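import Pool.Agent.H853.G2.Glue

/-!
# The density of the primes with a given Frobenius element in one of many independent fields
-/

set_option autoImplicit false
set_option linter.unusedSectionVars false

namespace Pool.Agent.H853.G2

open Pool.Agent.W401.Cheb NumberField Filter Topology Finset Polynomial IntermediateField
  Pool.Agent.W522.C

/-- The automorphisms of a subfield of `ℂ`. -/
abbrev AG (L : IntermediateField ℚ ℂ) : Type :=
  @AlgEquiv ℚ L L _ _ _ (IntermediateField.algebra' L) (IntermediateField.algebra' L)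

/-- Some automorphism of the algebraic closure of `ℚ_ℓ` over `ℚ_ℓ` acts on the field `L` as `τ`, for
some embedding. -/
def Lifts {L : IntermediateField ℚ ℂ} (τ : L → L) (ℓ : ℕ) [Fact ℓ.Prime] : Prop :=
  ∃ (ι : L →+* AlgebraicClosure ℚ_[ℓ])
    (σ : AlgebraicClosure ℚ_[ℓ] ≃ₐ[ℚ_[ℓ]] AlgebraicClosure ℚ_[ℓ]), ∀ x, σ (ι x) = ι (τ x)

variable {J : Type*} {L : J → IntermediateField ℚ ℂ} (τ : ∀ j, AG (L j)) (bd : J → Finset ℕ)

/-- The primes for which some `τ j` lifts. -/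
def liftSet : Set ℕ := {ℓ | ∃ h : ℓ.Prime, ∃ j, ℓ ∉ bd j ∧ @Lifts (L j) (τ j) ℓ ⟨h⟩}

theorem lifts_of {M : IntermediateField ℚ ℂ} {j : J} (g : M → M) (hL : L j ≤ M)
    (hg : ∀ (x : M) (hx : (x : ℂ) ∈ L j), ((g x : M) : ℂ) = (τ j ⟨x, hx⟩ : L j)) {ℓ : ℕ}
    [Fact ℓ.Prime] (ι : M →+* AlgebraicClosure ℚ_[ℓ])
    (σ : AlgebraicClosure ℚ_[ℓ] ≃ₐ[ℚ_[ℓ]] AlgebraicClosure ℚ_[ℓ]) (h : ∀ x, σ (ι x) = ι (g x)) :
    Lifts (τ j) ℓ := by
  let inc : L j →+* M := (L j).val.toRingHom.codRestrict M fun x => hL x.2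
  have hinc : ∀ x : L j, ((inc x : M) : ℂ) = x := fun x => rfl
  refine ⟨ι.comp inc, σ, fun x => ?_⟩
  have h3 : g (inc x) = inc (τ j x) := by
    apply Subtype.ext
    exact hg (inc x) x.2
  rw [RingHom.comp_apply, RingHom.comp_apply, h, h3]

theorem density_stepV (M : IntermediateField ℚ ℂ)
    (hM1 : FiniteDimensional ℚ M) (hM2 : @IsGalois ℚ _ M _ (IntermediateField.algebra' M)) (n : ℕ)
    (hn : n ≤ (condSet (M := M) (IntermediateField.algebra' M) fun g => ∃ j, L j ≤ M ∧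
      ∀ (x : M) (hx : (x : ℂ) ∈ L j), ((g x : M) : ℂ) = (τ j ⟨x, hx⟩ : L j)).ncard) :
    LowerDensity (liftSet τ bd)
      (n / Nat.card (@AlgEquiv ℚ M M _ _ _ (IntermediateField.algebra' M)
        (IntermediateField.algebra' M))) := by
  classical
  set p : (M → M) → Prop := fun g => ∃ j, L j ≤ M ∧
      ∀ (x : M) (hx : (x : ℂ) ∈ L j), ((g x : M) : ℂ) = (τ j ⟨x, hx⟩ : L j) with hp
  have hfin : @Module.Finite ℚ M _ _ (DivisionRing.toRatAlgebra : Algebra ℚ M).toModule :=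
    finite_trans (IntermediateField.algebra' M) _ hM1
  have : NumberField M := @NumberField.mk M _ inferInstance hfin
  have : IsGalois ℚ M := isGalois_trans _ _ hM2
  obtain ⟨D, hD, hT⟩ := torsor M
  set T : Finset Gal(M/ℚ) := univ.filter fun g => p g with hTdef
  have hTcard : (T.card : ℕ) = (condSet (M := M) (IntermediateField.algebra' M) p).ncard := by
    rw [card_condSet _ DivisionRing.toRatAlgebra, ← Set.ncard_coe_finset]
    congr 1
    ext g
    rw [hTdef]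
    simp only [coe_filter, mem_univ, true_and]
    rfl
  have hch : ∀ g : Gal(M/ℚ), ∃ B : Finset ℕ, g ∈ T → ∃ j, bd j = B ∧ L j ≤ M ∧
      ∀ (x : M) (hx : (x : ℂ) ∈ L j), ((g x : M) : ℂ) = (τ j ⟨x, hx⟩ : L j) := by
    intro g
    by_cases hg : g ∈ T
    · obtain ⟨j, hj⟩ := (mem_filter.1 hg).2
      exact ⟨bd j, fun _ => ⟨j, rfl, hj⟩⟩
    · exact ⟨∅, fun h => absurd h hg⟩
  choose Bd hBd using hch
  set D' : ℕ := D * ∏ g ∈ T, ∏ q ∈ (Bd g).filter (fun q => q ≠ 0), q with hD'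
  have hD'0 : 0 < D' := by
    refine Nat.mul_pos hD (Finset.prod_pos fun g _ => Finset.prod_pos fun q hq => ?_)
    exact Nat.pos_of_ne_zero (mem_filter.1 hq).2
  have h1 := lower_density M T hD'0 (fun p _ hp => hT p fun h => hp (h.mul_right _))
  have h2 := h1.mono (S' := liftSet τ bd) (by
    rintro ℓ hℓ ⟨h3, g, hg, h4⟩
    have : Fact ℓ.Prime := ⟨hℓ⟩
    have hℓD : ¬ ℓ ∣ D := fun h => h3 (h.mul_right _)
    obtain ⟨j, hj0, hj1, hj2⟩ := hBd g hg
    obtain ⟨ι, σ, hσ⟩ := sigma_lift M g (hT ℓ hℓD) h4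
    refine ⟨hℓ, j, fun h5 => h3 ?_, lifts_of τ g hj1 hj2 ι σ hσ⟩
    rw [hj0] at h5
    have h6 : ℓ ∣ ∏ q ∈ (Bd g).filter (fun q => q ≠ 0), q :=
      Finset.dvd_prod_of_mem _ (mem_filter.2 ⟨h5, hℓ.ne_zero⟩)
    exact (h6.trans (Finset.dvd_prod_of_mem
      (fun g => ∏ q ∈ (Bd g).filter (fun q => q ≠ 0), q) hg)).mul_left _)
  refine h2.le ?_
  rw [card_gal (M := M) (IntermediateField.algebra' M) DivisionRing.toRatAlgebra]
  apply div_le_div_of_nonneg_right _ (Nat.cast_nonneg _)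
  rw [hTcard]
  exact_mod_cast hn

/-- **The density for one field.** -/
theorem density_oneV (j : J) (h1 : FiniteDimensional ℚ (L j))
    (h2 : @IsGalois ℚ _ (L j) _ (IntermediateField.algebra' (L j))) :
    LowerDensity (liftSet τ bd) (1 / Module.finrank ℚ (L j)) := by
  have h3 := density_stepV τ bd (L j) h1 h2 1 (by
    rw [Nat.succ_le_iff, Set.ncard_pos (Set.toFinite _)]
    exact ⟨τ j, j, le_rfl, fun x hx => rfl⟩)
  have h4 : Nat.card (AG (L j)) = Module.finrank ℚ (L j) :=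
    @IsGalois.card_aut_eq_finrank ℚ _ (L j) _ (IntermediateField.algebra' (L j)) h1 h2
  rw [← h4, ← Nat.cast_one]
  exact h3

/-- **The density for many independent fields.** -/
theorem density_familyV (h1 : ∀ j, FiniteDimensional ℚ (L j))
    (h2 : ∀ j, @IsGalois ℚ _ (L j) _ (IntermediateField.algebra' (L j))) {B : ℕ}
    (hB : ∀ j, Module.finrank ℚ (L j) ≤ B)
    (hdisj : ∀ M : IntermediateField ℚ ℂ, FiniteDimensional ℚ M → ∃ j, L j ⊓ M ≤ ⊥) :
    LowerDensity (liftSet τ bd) 1 := by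
  classical
  have hB' : ∀ j, gsz (L j) ≤ B := by
    intro j
    unfold gsz
    rw [IsGalois.card_aut_eq_finrank]
    exact hB j
  obtain ⟨j0, -⟩ := hdisj ⊥ inferInstance
  have hB1 : 1 ≤ B := (gsz_pos (L j0)).trans_le (hB' j0)
  refine LowerDensity.of_lim fun η hη => ?_
  have hlim : Tendsto (fun N : ℕ => (1 - 1 / (B : ℝ)) ^ N) atTop (𝓝 0) := by
    apply tendsto_pow_atTop_nhds_zero_of_lt_one
    · have : 1 / (B : ℝ) ≤ 1 := by
        rw [div_le_one (by exact_mod_cast hB1)]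
        exact_mod_cast hB1
      linarith
    · have : 0 < 1 / (B : ℝ) := by
        have : (0 : ℝ) < B := by exact_mod_cast hB1
        positivity
      linarith
  obtain ⟨N, hN⟩ := (hlim.eventually (gt_mem_nhds hη)).exists
  obtain ⟨M, i1, i2, hM⟩ := exists_smallV (τ := τ) hB' hdisj N
  obtain ⟨good, hgood, hsum⟩ := exists_goodV (τ := τ) (M := M)
  have h3 := density_stepV τ bd M i1 i2 good.card (by
    rw [← Set.ncard_coe_finset]
    apply le_of_eq
    congr 1
    ext g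
    exact hgood g)
  refine ⟨_, ?_, h3⟩
  have hg : (0 : ℝ) < gsz M := by exact_mod_cast gsz_pos M
  change _ ≤ (good.card : ℝ) / (gsz M : ℝ)
  rw [le_div_iff₀ hg]
  have h4 : ((badV τ M).card : ℝ) ≤ η * gsz M := by
    rw [div_le_iff₀ hg] at hM
    exact hM.trans (mul_le_mul_of_nonneg_right hN.le hg.le)
  have h5 : (good.card : ℝ) + (badV τ M).card = gsz M := by exact_mod_cast hsum
  linarith

end Pool.Agent.H853.G2
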