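import Pool.Agent.H853.G2.Alg

/-!
# Stable subspaces of a seven-dimensional space with a cross product and different weights
-/

set_option autoImplicit false

namespace Pool.Agent.H853.G2

open Module

section uc

variable {k Ω : Type*} [Field k] [Field Ω] (i : k →+* Ω) {n : ℕ}

/-- The extension of scalars of a subspace. -/
def UC (U : Submodule k (Fin n → k)) : Submodule Ω (Fin n → Ω) :=
  Submodule.span Ω ((fun x : Fin n → k => fun s => i (x s)) '' (U : Set (Fin n → k)))

variable {i}

theorem UC_mono {U W : Submodule k (Fin n → k)} (h : U ≤ W) : UC i U ≤ UC i W :=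
  Submodule.span_mono (Set.image_mono h)

theorem mem_UC {U : Submodule k (Fin n → k)} {x : Fin n → k} (hx : x ∈ U) :
    (fun s => i (x s)) ∈ UC i U := Submodule.subset_span ⟨x, hx, rfl⟩

/-- A bilinear form which vanishes on two subspaces vanishes on the extensions. -/
theorem UC_form {B : (Fin n → k) →ₗ[k] (Fin n → k) →ₗ[k] k}
    {B' : (Fin n → Ω) →ₗ[Ω] (Fin n → Ω) →ₗ[Ω] Ω}
    (hB' : ∀ x y : Fin n → k, B' (fun s => i (x s)) (fun s => i (y s)) = i (B x y))
    {U W : Submodule k (Fin n → k)} (h : ∀ x ∈ U, ∀ y ∈ W, B x y = 0) :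
    ∀ x ∈ UC i U, ∀ y ∈ UC i W, B' x y = 0 := by
  intro x hx y hy
  refine Submodule.span_induction ?_ ?_ ?_ ?_ hx
  · rintro _ ⟨x', hx', rfl⟩
    refine Submodule.span_induction ?_ ?_ ?_ ?_ hy
    · rintro _ ⟨y', hy', rfl⟩
      exact (hB' x' y').trans (by rw [h x' hx' y' hy', map_zero])
    · rw [map_zero]
    · intro a b _ _ ha hb
      rw [map_add, ha, hb, add_zero]
    · intro c a _ ha
      rw [map_smul, ha, smul_zero]
  · rw [map_zero, LinearMap.zero_apply]
  · intro a b _ _ ha hb
    rw [map_add, LinearMap.add_apply, ha, hb, add_zero]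
  · intro c a _ ha
    rw [map_smul, LinearMap.smul_apply, ha, smul_zero]

end uc

theorem isCompl_of {k V : Type*} [Field k] [AddCommGroup V] [Module k V] [FiniteDimensional k V]
    {U W : Submodule k V} (h : U ⊓ W = ⊥) (h' : finrank k U + finrank k W = finrank k V) :
    IsCompl U W := by
  refine ⟨disjoint_iff.2 h, codisjoint_iff.2 ?_⟩
  apply Submodule.eq_top_of_finrank_eq
  have h1 := Submodule.finrank_sup_add_finrank_inf_eq U W
  rw [h, finrank_bot, add_zero] at h1
  omega

section main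

variable {k Ω A : Type*} [Field k] [Field Ω] {i : k →+* Ω} [AddCommGroup A]
  {B : (Fin 7 → k) →ₗ[k] (Fin 7 → k) →ₗ[k] k} {m : (Fin 7 → k) →ₗ[k] (Fin 7 → k) →ₗ[k] (Fin 7 → k)}
  {B' : (Fin 7 → Ω) →ₗ[Ω] (Fin 7 → Ω) →ₗ[Ω] Ω}
  {m' : (Fin 7 → Ω) →ₗ[Ω] (Fin 7 → Ω) →ₗ[Ω] (Fin 7 → Ω)}
  {P : Fin 7 → (Fin 7 → Ω)} {a : Fin 7 → A}
  {St : Submodule k (Fin 7 → k) → Prop}

/-- The orthogonal space. -/
def perp (B : (Fin 7 → k) →ₗ[k] (Fin 7 → k) →ₗ[k] k) (U : Submodule k (Fin 7 → k)) :
    Submodule k (Fin 7 → k) := LinearMap.BilinForm.orthogonal B U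

theorem mem_perp {U : Submodule k (Fin 7 → k)} {y : Fin 7 → k} :
    y ∈ perp B U ↔ ∀ x ∈ U, B x y = 0 := Iff.rfl

/-- The span of the products. -/
def prodSpan (m : (Fin 7 → k) →ₗ[k] (Fin 7 → k) →ₗ[k] (Fin 7 → k)) (U : Submodule k (Fin 7 → k)) :
    Submodule k (Fin 7 → k) := Submodule.span k {z | ∃ x ∈ U, ∃ y ∈ U, z = m x y}

/-- The main argument. -/
theorem semisimple_abs (h2 : (2 : k) ≠ 0) (hc : IsCrossB B m) (hnd : ∀ x, x ≠ 0 → ∃ z, B x z ≠ 0)
    (hB' : ∀ x y : Fin 7 → k, B' (fun s => i (x s)) (fun s => i (y s)) = i (B x y))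
    (hm' : ∀ x y : Fin 7 → k, m' (fun s => i (x s)) (fun s => i (y s)) = fun s => i (m x y s))
    (hm'0 : ∀ x, m' x x = 0) (hP : LinearIndependent Ω P) (ha : Function.Injective a)
    (hform1 : ∀ s t, B' (P s) (P t) ≠ 0 → a s + a t = 0) (hform2 : ∀ s, ∃ t, B' (P s) (P t) ≠ 0)
    (hcross : ∀ s t, m' (P s) (P t) ∈ Submodule.span Ω {v | ∃ u, v = P u ∧ a u = a s + a t})
    (hperp : ∀ U, St U → St (perp B U)) (hinf : ∀ U W, St U → St W → St (U ⊓ W))
    (hprod : ∀ U, St U → St (prodSpan m U))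
    (hS : ∀ U, St U → ∃ S : Finset (Fin 7), S.card = finrank k U ∧ (∀ s ∈ S, P s ∈ UC i U) ∧
      UC i U ≤ Submodule.span Ω (P '' (S : Set (Fin 7))) ∧ ∑ s ∈ S, a s = 0)
    (U : Submodule k (Fin 7 → k)) (hU : St U) : ∃ U', St U' ∧ IsCompl U U' := by
  classical
  have hBnd : (B : LinearMap.BilinForm k (Fin 7 → k)).Nondegenerate := by
    refine ⟨fun x hx => ?_, fun x hx => ?_⟩
    · by_contra h0
      obtain ⟨z, hz⟩ := hnd x h0
      exact hz (hx z)
    · by_contra h0
      obtain ⟨z, hz⟩ := hnd x h0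
      exact hz (by rw [hc.symm]; exact hx z)
  have hfr : ∀ W : Submodule k (Fin 7 → k), finrank k W + finrank k (perp B W) = 7 := by
    intro W
    have h3 := LinearMap.BilinForm.finrank_orthogonal hBnd W
    have h4 := Submodule.finrank_le W
    rw [finrank_fin_fun] at h3 h4
    change finrank k W + finrank k (LinearMap.BilinForm.orthogonal B W) = 7
    rw [h3]
    omega
  -- the partner of an index
  have hpart : ∀ s t, a s + a t = 0 → B' (P s) (P t) ≠ 0 := by
    intro s t hst
    obtain ⟨t', ht'⟩ := hform2 s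
    have h3 := hform1 s t' ht'
    have h4 : t' = t := ha (add_left_cancel (h3.trans hst.symm))
    rw [← h4]
    exact ht'
  have hmemS : ∀ {W : Submodule k (Fin 7 → k)} {S : Finset (Fin 7)} {u : Fin 7},
      UC i W ≤ Submodule.span Ω (P '' (S : Set (Fin 7))) → P u ∈ UC i W → u ∈ S := by
    intro W S u hW hu
    by_contra hno
    exact (hP.notMem_span_image (s := (S : Set (Fin 7))) (x := u) (by exact_mod_cast hno)) (hW hu)
  obtain ⟨R, hR⟩ : ∃ R, R = U ⊓ perp B U := ⟨_, rfl⟩
  have hRst : St R := by rw [hR]; exact hinf _ _ hU (hperp _ hU)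
  by_cases hR0 : R = ⊥
  · exact ⟨perp B U, hperp _ hU, isCompl_of (hR ▸ hR0) (by rw [hfr, finrank_fin_fun])⟩
  have hRiso : ∀ x ∈ R, ∀ y ∈ R, B x y = 0 := by
    intro x hx y hy
    rw [hR] at hx hy
    exact hy.2 x hx.1
  obtain ⟨S, hS1, hS2, hS3, hS4⟩ := hS R hRst
  have hSne : ∀ s ∈ S, ∀ t ∈ S, a s + a t ≠ 0 := by
    intro s hs t ht hst
    exact hpart s t hst (UC_form hB' hRiso _ (hS2 s hs) _ (hS2 t ht))
  have hSne0 : ∀ s ∈ S, a s ≠ 0 := by
    intro s hs h0
    exact hSne s hs s hs (by rw [h0, add_zero])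
  have hRpos : 0 < finrank k R := by
    rw [Nat.pos_iff_ne_zero, Ne, Submodule.finrank_eq_zero]
    exact hR0
  have hRle : R ≤ perp B R := fun y hy x hx => hRiso x hx y hy
  have hS3' : S.card = 3 := by
    have h3 := hfr R
    have h4 := Submodule.finrank_mono hRle
    have h5 : S.card ≤ 3 := by omega
    have h6 : 0 < S.card := by omega
    interval_cases hcard : S.card
    · obtain ⟨s, rfl⟩ := Finset.card_eq_one.1 hcard
      rw [Finset.sum_singleton] at hS4
      exact absurd hS4 (hSne0 s (Finset.mem_singleton_self s))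
    · obtain ⟨s, t, hst, rfl⟩ := Finset.card_eq_two.1 hcard
      rw [Finset.sum_pair hst] at hS4
      exact absurd hS4 (hSne s (by simp) t (by simp))
    · rfl
  have hR3 : finrank k R = 3 := by omega
  -- the products
  obtain ⟨R', hR'⟩ : ∃ R', R' = prodSpan m R := ⟨_, rfl⟩
  have hR'st : St R' := by rw [hR']; exact hprod _ hRst
  obtain ⟨x₀, hx₀, y₀, hy₀, hxy₀⟩ := hc.exists_ne h2 hnd hR3 hRiso (by
    intro v hv u hu hu'
    -- the orthogonal space has dimension four
    have h4 : R ⊔ Submodule.span k {u} = perp B R := by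
      apply Submodule.eq_of_le_of_finrank_le
      · refine sup_le hRle ?_
        rw [Submodule.span_singleton_le_iff_mem]
        exact hu
      · have h5 : R < R ⊔ Submodule.span k {u} := by
          refine lt_of_le_of_ne le_sup_left fun h6 => hu' ?_
          rw [h6]
          exact Submodule.mem_sup_right (Submodule.mem_span_singleton_self u)
        have h6 := Submodule.finrank_lt_finrank_of_lt h5
        have h7 := hfr R
        omega
    have h5 : v ∈ R ⊔ Submodule.span k {u} := by rw [h4]; exact hv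
    obtain ⟨w, hw, z, hz, hwz⟩ := Submodule.mem_sup.1 h5
    obtain ⟨c, rfl⟩ := Submodule.mem_span_singleton.1 hz
    exact ⟨w, hw, c, hwz.symm⟩)
  have hR'0 : R' ≠ ⊥ := by
    intro h0
    have h3 : m x₀ y₀ ∈ R' := by
      rw [hR']
      exact Submodule.subset_span ⟨x₀, hx₀, y₀, hy₀, rfl⟩
    rw [h0, Submodule.mem_bot] at h3
    exact hxy₀ h3
  -- the weights of the products
  have hthird : ∀ s ∈ S, ∀ t ∈ S, s ≠ t → ∃ r ∈ S, a s + a t = -a r := by
    intro s hs t ht hst
    have h3 : t ∈ S.erase s := Finset.mem_erase.2 ⟨hst.symm, ht⟩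
    have h4 : ((S.erase s).erase t).card = 1 := by
      rw [Finset.card_erase_of_mem h3, Finset.card_erase_of_mem hs, hS3']
    obtain ⟨r, hr⟩ := Finset.card_eq_one.1 h4
    have h5 : r ∈ (S.erase s).erase t := by rw [hr]; exact Finset.mem_singleton_self r
    refine ⟨r, (Finset.mem_erase.1 (Finset.mem_erase.1 h5).2).2, ?_⟩
    have h6 := Finset.add_sum_erase S a hs
    have h7 := Finset.add_sum_erase (S.erase s) a h3
    rw [hr, Finset.sum_singleton] at h7
    rw [← h7, hS4, ← add_assoc] at h6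
    exact eq_neg_of_add_eq_zero_left h6
  let E : Set (Fin 7) := {u | ∃ r ∈ S, a u = -a r}
  have hE0 : ∀ x ∈ Submodule.span Ω (P '' (S : Set (Fin 7))),
      ∀ y ∈ Submodule.span Ω (P '' (S : Set (Fin 7))), m' x y ∈ Submodule.span Ω (P '' E) := by
    intro x hx y hy
    refine Submodule.span_induction ?_ ?_ ?_ ?_ hx
    · rintro _ ⟨s, hs, rfl⟩
      refine Submodule.span_induction ?_ ?_ ?_ ?_ hy
      · rintro _ ⟨t, ht, rfl⟩
        by_cases hst : s = t
        · rw [hst, hm'0]
          exact Submodule.zero_mem _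
        · refine (Submodule.span_le.2 ?_) (hcross s t)
          rintro _ ⟨u, rfl, hu⟩
          obtain ⟨r, hr, hr'⟩ := hthird s (by exact_mod_cast hs) t (by exact_mod_cast ht) hst
          exact Submodule.subset_span ⟨u, ⟨r, hr, hu.trans hr'⟩, rfl⟩
      · rw [map_zero]
        exact Submodule.zero_mem _
      · intro v w _ _ hv hw
        rw [map_add]
        exact Submodule.add_mem _ hv hw
      · intro c v _ hv
        rw [map_smul]
        exact Submodule.smul_mem _ _ hv
    · rw [map_zero, LinearMap.zero_apply]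
      exact Submodule.zero_mem _
    · intro v w _ _ hv hw
      rw [map_add, LinearMap.add_apply]
      exact Submodule.add_mem _ hv hw
    · intro c v _ hv
      rw [map_smul, LinearMap.smul_apply]
      exact Submodule.smul_mem _ _ hv
  have hE : UC i R' ≤ Submodule.span Ω (P '' E) := by
    refine Submodule.span_le.2 ?_
    rintro _ ⟨z, hz, rfl⟩
    change z ∈ R' at hz
    rw [hR'] at hz
    change (fun s => i (z s)) ∈ Submodule.span Ω (P '' E)
    refine Submodule.span_induction ?_ ?_ ?_ ?_ hz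
    · rintro _ ⟨x, hx, y, hy, rfl⟩
      rw [← hm']
      exact hE0 _ (hS3 (mem_UC hx)) _ (hS3 (mem_UC hy))
    · have h3 : (fun s => i ((0 : Fin 7 → k) s)) = (0 : Fin 7 → Ω) := by
        funext s
        exact map_zero i
      rw [h3]
      exact Submodule.zero_mem _
    · intro v w _ _ hv hw
      have h3 : (fun s => i ((v + w) s)) = (fun s => i (v s)) + fun s => i (w s) := by
        funext s
        exact map_add i _ _
      rw [h3]
      exact Submodule.add_mem _ hv hw
    · intro c v _ hv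
      have h3 : (fun s => i ((c • v) s)) = i c • fun s => i (v s) := by
        funext s
        exact map_mul i _ _
      rw [h3]
      exact Submodule.smul_mem _ _ hv
  have hmemE : ∀ u, P u ∈ UC i R' → ∃ r ∈ S, a u = -a r := by
    intro u hu
    by_contra hno
    exact (hP.notMem_span_image (s := E) (x := u) hno) (hE hu)
  obtain ⟨S', hS'1, hS'2, hS'3, hS'4⟩ := hS R' hR'st
  have hS'E : ∀ u ∈ S', ∃ r ∈ S, a u = -a r := fun u hu => hmemE u (hS'2 u hu)
  choose! f hf1 hf2 using hS'E
  have hinj : Set.InjOn f (S' : Set (Fin 7)) := by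
    intro u hu u' hu' h3
    apply ha
    rw [hf2 u (by exact_mod_cast hu), hf2 u' (by exact_mod_cast hu'), h3]
  have hle : S'.card ≤ S.card := Finset.card_le_card_of_injOn f (fun u hu => hf1 u hu) hinj
  have hS'3' : S'.card = 3 := by
    have h5 : S'.card ≤ 3 := by omega
    have h6 : 0 < S'.card := by
      rw [hS'1, Nat.pos_iff_ne_zero, Ne, Submodule.finrank_eq_zero]
      exact hR'0
    interval_cases hcard : S'.card
    · obtain ⟨u, rfl⟩ := Finset.card_eq_one.1 hcard
      rw [Finset.sum_singleton, hf2 u (Finset.mem_singleton_self u), neg_eq_zero] at hS'4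
      exact absurd hS'4 (hSne0 _ (hf1 u (Finset.mem_singleton_self u)))
    · obtain ⟨u, u', huu, rfl⟩ := Finset.card_eq_two.1 hcard
      rw [Finset.sum_pair huu, hf2 u (by simp), hf2 u' (by simp), ← neg_add, neg_eq_zero] at hS'4
      exact absurd hS'4 (hSne _ (hf1 u (by simp)) _ (hf1 u' (by simp)))
    · rfl
  have hsurj : ∀ r ∈ S, ∃ u ∈ S', a u = -a r := by
    intro r hr
    have h3 : S'.image f = S := by
      apply Finset.eq_of_subset_of_card_le
      · intro x hx
        obtain ⟨u, hu, rfl⟩ := Finset.mem_image.1 hx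
        exact hf1 u hu
      · rw [Finset.card_image_of_injOn hinj]
        omega
    rw [← h3] at hr
    obtain ⟨u, hu, rfl⟩ := Finset.mem_image.1 hr
    exact ⟨u, hu, hf2 u hu⟩
  have hR'3 : finrank k R' = 3 := by omega
  -- the two decompositions
  have hZ : R' ⊓ perp B R = ⊥ := by
    by_contra h0
    obtain ⟨T, hT1, hT2, hT3, hT4⟩ := hS _ (hinf _ _ hR'st (hperp _ hRst))
    have hTpos : 0 < T.card := by
      rw [hT1, Nat.pos_iff_ne_zero, Ne, Submodule.finrank_eq_zero]
      exact h0
    obtain ⟨u, hu⟩ := Finset.card_pos.1 hTpos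
    have h3 := hT2 u hu
    obtain ⟨r, hr, hur⟩ := hmemE u (UC_mono inf_le_left h3)
    refine hpart r u (by rw [hur, add_neg_cancel]) ?_
    exact UC_form hB' (U := R) (W := perp B R) (fun x hx y hy => hy x hx) _ (hS2 r hr) _
      (UC_mono inf_le_right h3)
  have hZ' : R ⊓ perp B R' = ⊥ := by
    by_contra h0
    obtain ⟨T, hT1, hT2, hT3, hT4⟩ := hS _ (hinf _ _ hRst (hperp _ hR'st))
    have hTpos : 0 < T.card := by
      rw [hT1, Nat.pos_iff_ne_zero, Ne, Submodule.finrank_eq_zero]
      exact h0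
    obtain ⟨u, hu⟩ := Finset.card_pos.1 hTpos
    have h3 := hT2 u hu
    have h4 : u ∈ S := hmemS hS3 (UC_mono inf_le_left h3)
    obtain ⟨t, ht, hut⟩ := hsurj u h4
    refine hpart t u (by rw [hut, neg_add_cancel]) ?_
    exact UC_form hB' (U := R') (W := perp B R') (fun x hx y hy => hy x hx) _ (hS'2 t ht) _
      (UC_mono inf_le_right h3)
  have hRU : R ≤ U := by rw [hR]; exact inf_le_left
  have hUR : U ≤ perp B R := by
    intro y hy x hx
    rw [hR] at hx
    rw [hc.symm]
    exact hx.2 y hy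
  have h3 := Submodule.finrank_mono hUR
  have h4 := Submodule.finrank_mono hRU
  have h5 := hfr R
  rcases Nat.lt_or_ge 3 (finrank k U) with h6 | h6
  · have h7 : U = perp B R := Submodule.eq_of_le_of_finrank_le hUR (by omega)
    refine ⟨R', hR'st, ?_⟩
    rw [h7]
    exact (isCompl_of hZ (by rw [finrank_fin_fun]; omega)).symm
  · have h7 : R = U := Submodule.eq_of_le_of_finrank_le hRU (by omega)
    refine ⟨perp B R', hperp _ hR'st, ?_⟩
    rw [← h7]
    exact isCompl_of hZ' (by rw [finrank_fin_fun]; have := hfr R'; omega)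

end main

end Pool.Agent.H853.G2
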