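import Mathlib

/-!
# The cross product of the imaginary octonions: null subspaces
-/

set_option autoImplicit false

namespace Pool.Agent.H853.G2

open Module

section defs

variable {R : Type*} [CommRing R] {n : ℕ}

/-- The product of `x` and `y` with the structure constants `c`. -/
def cross (c : Fin n → Fin n → Fin n → R) (x y : Fin n → R) : Fin n → R :=
  fun k => ∑ i, ∑ j, c i j k * x i * y j

/-- The bilinear form with the matrix `J`. -/
def form (J : Matrix (Fin n) (Fin n) R) (x y : Fin n → R) : R := ∑ i, ∑ j, J i j * x i * y j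

/-- `J` is a nondegenerate symmetric bilinear form and `c` a cross product for it: `x × x = 0`,
`x × y` is orthogonal to `x`, and `x × (x × y) = J(x, y) x - J(x, x) y`.  (In dimension seven this is the
cross product of the imaginary elements of an octonion algebra.) -/
structure IsCross (J : Matrix (Fin n) (Fin n) R) (c : Fin n → Fin n → Fin n → R) : Prop where
  nondeg : IsUnit J.det
  symm : ∀ i j, J i j = J j i
  alt : ∀ x, cross c x x = 0
  orth : ∀ x y, form J (cross c x y) x = 0
  twice : ∀ x y, cross c x (cross c x y) = form J x y • x - form J x x • y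

end defs

section abs

variable {k : Type*} [Field k] {V : Type*} [AddCommGroup V] [Module k V]

/-- The same for a vector space, a bilinear form and a bilinear product. -/
structure IsCrossB (B : V →ₗ[k] V →ₗ[k] k) (m : V →ₗ[k] V →ₗ[k] V) : Prop where
  symm : ∀ x y, B x y = B y x
  alt : ∀ x, m x x = 0
  orth : ∀ x y, B (m x y) x = 0
  twice : ∀ x y, m x (m x y) = B x y • x - B x x • y

variable {B : V →ₗ[k] V →ₗ[k] k} {m : V →ₗ[k] V →ₗ[k] V}

theorem IsCrossB.anti (h : IsCrossB B m) (x y : V) : m x y = -m y x := by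
  have h1 := h.alt (x + y)
  simp only [map_add, LinearMap.add_apply, h.alt, zero_add, add_zero] at h1
  exact eq_neg_of_add_eq_zero_right h1

theorem IsCrossB.orth3 (h : IsCrossB B m) (x y z : V) : B (m x y) z = -B (m z y) x := by
  have h1 := h.orth (x + z) y
  simp only [map_add, LinearMap.add_apply, h.orth, zero_add, add_zero] at h1
  exact eq_neg_of_add_eq_zero_left (by rw [← h1]; ring)

/-- `B (x × y, z) = - B (y, x × z)`. -/
theorem IsCrossB.skew (h : IsCrossB B m) (x y z : V) : B (m x y) z = -B y (m x z) := by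
  have h1 := h.orth3 y x z
  rw [h.anti x y, map_neg, LinearMap.neg_apply, h1, neg_neg, h.anti z x, map_neg,
    LinearMap.neg_apply, h.symm]

theorem IsCrossB.twice2 (h : IsCrossB B m) (x x' y : V) :
    m x (m x' y) + m x' (m x y) = B x y • x' + B x' y • x - (2 * B x x') • y := by
  have h1 := h.twice (x + x') y
  simp only [map_add, LinearMap.add_apply, h.twice] at h1
  rw [h.symm x' x] at h1
  have h2 : m x (m x' y) + m x' (m x y) = (B x y + B x' y) • (x + x') -
      (B x x + B x x' + (B x x' + B x' x')) • y - (B x y • x - B x x • y) -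
      (B x' y • x' - B x' x' • y) := by
    rw [← h1]
    abel
  rw [h2]
  module

/-- A totally isotropic subspace of dimension three, with orthogonal space of dimension four, is not a
null subspace. -/
theorem IsCrossB.exists_ne (h : IsCrossB B m) (h2 : (2 : k) ≠ 0) [FiniteDimensional k V]
    (hB : ∀ x, x ≠ 0 → ∃ z, B x z ≠ 0) {W : Submodule k V} (hW : finrank k W = 3)
    (hiso : ∀ x ∈ W, ∀ y ∈ W, B x y = 0)
    (hperp : ∀ v, (∀ x ∈ W, B x v = 0) → ∀ u, (∀ x ∈ W, B x u = 0) → u ∉ W →
      ∃ w ∈ W, ∃ c : k, v = w + c • u) :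
    ∃ x ∈ W, ∃ y ∈ W, m x y ≠ 0 := by
  by_contra hcon
  push Not at hcon
  have hW0 : W ≠ ⊥ := by
    rintro rfl
    rw [finrank_bot] at hW
    omega
  obtain ⟨x, hx, hx0⟩ := W.ne_bot_iff.1 hW0
  obtain ⟨z, hz⟩ : ∃ z, B x z = 1 := by
    obtain ⟨z, hz⟩ := hB x hx0
    exact ⟨(B x z)⁻¹ • z, by rw [map_smul, smul_eq_mul, inv_mul_cancel₀ hz]⟩
  -- an element of `W` orthogonal to `z`
  obtain ⟨y, hy, hy0, hyz⟩ : ∃ y ∈ W, y ≠ 0 ∧ B y z = 0 := by
    let f : W →ₗ[k] k := (B.flip z).comp W.subtype
    have h3 : LinearMap.ker f ≠ ⊥ := by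
      intro h4
      have h5 := LinearMap.finrank_range_add_finrank_ker f
      rw [h4, finrank_bot, hW] at h5
      have h6 : finrank k (LinearMap.range f) ≤ 1 := by
        have := Submodule.finrank_le (LinearMap.range f)
        rwa [finrank_self] at this
      omega
    obtain ⟨y, hy, hy0⟩ := (Submodule.ne_bot_iff _).1 h3
    exact ⟨y.1, y.2, fun h5 => hy0 (Subtype.ext h5), LinearMap.mem_ker.1 hy⟩
  have hperp1 : ∀ w ∈ W, ∀ v, ∀ w' ∈ W, B w' (m w v) = 0 := by
    intro w hw v w' hw'
    rw [h.symm, h.skew, hcon w hw w' hw', map_zero, neg_zero]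
  have huu : B (m x z) (m x z) = -1 := by
    rw [h.skew, h.twice, hz, hiso x hx x hx, zero_smul, sub_zero, one_smul, h.symm, hz]
  have hu : m x z ∉ W := by
    intro h4
    rw [hiso _ h4 _ h4] at huu
    exact one_ne_zero (neg_eq_zero.1 huu.symm)
  obtain ⟨w₀, hw₀, c, hc⟩ := hperp (m y z) (hperp1 y hy z) (m x z) (hperp1 x hx z) hu
  have hc0 : c = 0 := by
    have h4 : B (m y z) (m y z) = 0 := by
      rw [h.skew, h.twice, hyz, hiso y hy y hy, zero_smul, zero_smul, sub_zero, map_zero, neg_zero]
    have h5 : B (m y z) (m y z) = -(c * c) := by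
      rw [hc]
      simp only [map_add, map_smul, LinearMap.add_apply, LinearMap.smul_apply, smul_eq_mul]
      rw [huu, h.symm (m x z) w₀, hperp1 x hx z w₀ hw₀, hiso w₀ hw₀ w₀ hw₀]
      ring
    rw [h4] at h5
    have h6 : c * c = 0 := by rw [← neg_eq_zero, ← h5]
    exact mul_self_eq_zero.1 h6
  rw [hc0, zero_smul, add_zero] at hc
  have h7 := h.twice2 x z y
  rw [h.anti z y, hc, map_neg, hcon x hx w₀ hw₀, neg_zero, hcon x hx y hy, map_zero, add_zero,
    hiso x hx y hy, zero_smul, zero_add, h.symm z y, hyz, zero_smul, zero_sub, hz, mul_one] at h7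
  have h8 : (2 : k) • y = 0 := by rw [← neg_eq_zero, ← h7]
  rcases smul_eq_zero.1 h8 with h9 | h9
  · exact h2 h9
  · exact hy0 h9

end abs

end Pool.Agent.H853.G2
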