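import Pool.Agent.H853.G2.Eig

/-!
# Semisimplicity of representations with values in `G₂`
-/

set_option autoImplicit false
set_option linter.unusedSectionVars false

open Module Matrix

namespace Pool.Agent.H853.G2

section defs

variable {G : Type*} [Group G] {k : Type*} [Field k] {n : ℕ} (ρ : G →* GL (Fin n) k)

/-- The subspace `U` is stable under the group. -/
def StableG (U : Submodule k (Fin n → k)) : Prop :=
  ∀ g, ∀ x ∈ U, (ρ g : Matrix (Fin n) (Fin n) k).mulVec x ∈ U

/-- Every stable subspace has a stable complement. -/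
def SemisimpleG : Prop := ∀ U, StableG ρ U → ∃ U', StableG ρ U' ∧ IsCompl U U'

/-- The group preserves the product with the structure constants `c`. -/
def Preserves (c : Fin n → Fin n → Fin n → k) : Prop :=
  ∀ g x y, cross c ((ρ g : Matrix (Fin n) (Fin n) k).mulVec x)
    ((ρ g : Matrix (Fin n) (Fin n) k).mulVec y) =
      (ρ g : Matrix (Fin n) (Fin n) k).mulVec (cross c x y)

end defs

section basic

variable {G : Type*} [Group G] {k : Type*} [Field k] {ρ : G →* GL (Fin 7) k}
  {J : Matrix (Fin 7) (Fin 7) k} {c : Fin 7 → Fin 7 → Fin 7 → k}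

theorem coe_inv_mul' {n : ℕ} (ρ : G →* GL (Fin n) k) (g : G) :
    (ρ g⁻¹ : Matrix (Fin n) (Fin n) k) * ρ g = 1 := by
  rw [map_inv]
  exact Units.inv_mul (ρ g)

theorem coe_mul_inv' {n : ℕ} (ρ : G →* GL (Fin n) k) (g : G) :
    (ρ g : Matrix (Fin n) (Fin n) k) * ρ g⁻¹ = 1 := by
  rw [map_inv]
  exact Units.mul_inv (ρ g)

theorem exists_not_mul (x : Fin 7 → k) : ∃ y : Fin 7 → k, ∀ c : k, y ≠ c • x := by
  by_cases hx : x = 0
  · exact ⟨Pi.single 0 1, fun c h => by
      rw [hx, smul_zero] at h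
      exact one_ne_zero ((Pi.single_eq_same (M := fun _ : Fin 7 => k) 0 1).symm.trans
        (congrFun h 0))⟩
  · by_contra hno
    push Not at hno
    have h3 : (⊤ : Submodule k (Fin 7 → k)) ≤ Submodule.span k {x} := by
      intro y _
      obtain ⟨c, rfl⟩ := hno y
      exact Submodule.smul_mem _ _ (Submodule.mem_span_singleton_self x)
    have h4 := Submodule.finrank_mono h3
    rw [finrank_top, finrank_fin_fun, finrank_span_singleton hx] at h4
    omega

theorem mulVec_inj {n : ℕ} (ρ : G →* GL (Fin n) k) (g : G) :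
    Function.Injective (ρ g : Matrix (Fin n) (Fin n) k).mulVecLin := by
  intro v w hvw
  have h6 := congrArg (fun z => (ρ g⁻¹ : Matrix (Fin n) (Fin n) k).mulVec z) hvw
  simpa [Matrix.mulVec_mulVec, coe_inv_mul' ρ g] using h6

theorem form_of_preserves (h2 : (2 : k) ≠ 0) (hJc : IsCross J c) (hinv : Preserves ρ c) (g : G)
    (x y : Fin 7 → k) : form J ((ρ g : Matrix (Fin 7) (Fin 7) k).mulVec x)
      ((ρ g : Matrix (Fin 7) (Fin 7) k).mulVec y) = form J x y :=
  form_inv h2 (isCrossB_of hJc) exists_not_mul (g := (ρ g : Matrix (Fin 7) (Fin 7) k).mulVecLin)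
    (mulVec_inj ρ g) (fun x y => hinv g x y) x y

theorem nondeg_of_cross {n : ℕ} {J : Matrix (Fin n) (Fin n) k} {c : Fin n → Fin n → Fin n → k}
    (hJc : IsCross J c) : ∀ x, x ≠ 0 → ∃ z, formB J x z ≠ 0 := by
  intro x hx
  by_contra hno
  push Not at hno
  have h3 : Matrix.vecMul x J = 0 := by
    funext t
    have h4 := hno (Pi.single t 1)
    rw [formB_apply, form_eq, Matrix.mulVec_single_one] at h4
    exact h4
  apply hx
  have h5 : Matrix.vecMul (Matrix.vecMul x J) J⁻¹ = 0 := by rw [h3, Matrix.zero_vecMul]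
  rwa [Matrix.vecMul_vecMul, Matrix.mul_nonsing_inv _ hJc.nondeg, Matrix.vecMul_one] at h5

/-- The criterion: a basis of vectors with different weights. -/
theorem semisimple_of_weights {Ω : Type*} [Field Ω] [CharZero Ω] {A : Type*} [AddCommGroup A]
    (h2 : (2 : k) ≠ 0) (hJc : IsCross J c) (hinv : Preserves ρ c) (i : k →+* Ω)
    {P : Matrix (Fin 7) (Fin 7) Ω} (hPdet : P.det ≠ 0) {a : Fin 7 → A} (ha : Function.Injective a)
    (hform1 : ∀ s t, (Pᵀ * J.map i * P) s t ≠ 0 → a s + a t = 0)
    (hcross : ∀ s t, cross (mapC i c) (fun u => P u s) (fun u => P u t) ∈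
      Submodule.span Ω {v | ∃ u, v = (fun u' => P u' u) ∧ a u = a s + a t})
    (hS : ∀ U, StableG ρ U → ∃ S : Finset (Fin 7), S.card = finrank k U ∧
      (∀ s ∈ S, (fun t => P t s) ∈ UC i U) ∧
      UC i U ≤ Submodule.span Ω ((fun s t => P t s) '' (S : Set (Fin 7))) ∧ ∑ s ∈ S, a s = 0) :
    SemisimpleG ρ := by
  classical
  have hcb : IsCrossB (formB J) (crossB c) := isCrossB_of hJc
  have hBinv := form_of_preserves h2 hJc hinv
  have hJdet : J.det ≠ 0 := hJc.nondeg.ne_zero
  have hnd := nondeg_of_cross hJc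
  have hJidet : (J.map i).det ≠ 0 := by
    have h1 : (J.map i).det = i J.det := (RingHom.map_det i _).symm
    rw [h1]
    exact (map_ne_zero i).2 hJdet
  have hli : LinearIndependent Ω (fun s t => P t s) :=
    Matrix.linearIndependent_cols_iff_isUnit.2 ((Matrix.isUnit_iff_isUnit_det _).2
      (isUnit_iff_ne_zero.2 hPdet))
  have hgr : ∀ s t, form (J.map i) (fun u => P u s) (fun u => P u t) = (Pᵀ * J.map i * P) s t := by
    intro s t
    rw [form_eq, Matrix.mul_assoc, Matrix.mul_apply]
    rfl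
  have hperpst : ∀ U, StableG ρ U → StableG ρ (perp (formB J) U) := by
    intro U hU g y hy x hx
    have h3 : x = (ρ g : Matrix (Fin 7) (Fin 7) k).mulVec
        ((ρ g⁻¹ : Matrix (Fin 7) (Fin 7) k).mulVec x) := by
      rw [Matrix.mulVec_mulVec, coe_mul_inv', Matrix.one_mulVec]
    change form J x ((ρ g : Matrix (Fin 7) (Fin 7) k).mulVec y) = 0
    rw [h3, hBinv]
    exact hy _ (hU g⁻¹ x hx)
  have hprodst : ∀ U, StableG ρ U → StableG ρ (prodSpan (crossB c) U) := by
    intro U hU g z hz
    change (ρ g : Matrix (Fin 7) (Fin 7) k).mulVecLin z ∈ _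
    refine Submodule.span_induction ?_ ?_ ?_ ?_ hz
    · rintro _ ⟨x, hx, y, hy, rfl⟩
      refine Submodule.subset_span ⟨_, hU g x hx, _, hU g y hy, ?_⟩
      exact (hinv g x y).symm
    · rw [map_zero]
      exact Submodule.zero_mem _
    · intro v w _ _ hv hw
      rw [map_add]
      exact Submodule.add_mem _ hv hw
    · intro b v _ hv
      rw [map_smul]
      exact Submodule.smul_mem _ _ hv
  intro U hU
  refine semisimple_abs (i := i) (B := formB J) (m := crossB c) (B' := formB (J.map i))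
    (m' := crossB (mapC i c)) (P := fun s t => P t s) (a := a) (St := StableG ρ) h2 hcb hnd
    (fun x y => form_map i J x y) (fun x y => cross_map i c x y)
    (fun x => cross_map_self i hJc.alt x) hli ha ?_ ?_ hcross hperpst
    (fun U W hU hW g x hx => ⟨hU g x hx.1, hW g x hx.2⟩) hprodst hS U hU
  · intro s t hst
    have h3 : (Pᵀ * J.map i * P) s t ≠ 0 := by rw [← hgr]; exact hst
    exact hform1 s t h3
  · intro s
    by_contra hno
    push Not at hno
    have h3 : (Pᵀ * J.map i * P).det = 0 := by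
      apply Matrix.det_eq_zero_of_row_eq_zero s
      intro t
      rw [← hgr]
      exact hno t
    rw [Matrix.det_mul, Matrix.det_mul, Matrix.det_transpose] at h3
    exact mul_ne_zero (mul_ne_zero hPdet hJidet) hPdet h3

end basic

section frob

variable {G : Type*} [Group G] {k : Type*} [Field k] [CharZero k] {ρ : G →* GL (Fin 7) k}
  {J : Matrix (Fin 7) (Fin 7) k} {c : Fin 7 → Fin 7 → Fin 7 → k}

theorem mulVec_pow {R : Type*} [CommRing R] {n : ℕ} {M : Matrix (Fin n) (Fin n) R}
    {v : Fin n → R} {z : R} (h : M.mulVec v = z • v) (m : ℕ) :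
    (M ^ m).mulVec v = z ^ m • v := by
  induction m with
  | zero => rw [pow_zero, pow_zero, Matrix.one_mulVec, one_smul]
  | succ m ih =>
    rw [pow_succ', ← Matrix.mulVec_mulVec, ih, Matrix.mulVec_smul, h, smul_smul, pow_succ]

/-- Eigenvalues of an element with simple powers are different modulo roots of unity. -/
theorem eq_of_pow {Ω : Type*} [Field Ω] [IsAlgClosed Ω] {i : k →+* Ω} {n : ℕ}
    {M : Matrix (Fin n) (Fin n) k} (hM : SimplePowers M) {P : Fin n → (Fin n → Ω)}
    {lam : Fin n → Ω} (hP : LinearIndependent Ω P)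
    (hev : ∀ s, (M.map i).mulVec (P s) = lam s • P s) {m : ℕ} (hm : 0 < m) {s t : Fin n}
    (h : lam s ^ m = lam t ^ m) : s = t := by
  classical
  obtain ⟨P', lam', hP', hlam', hev', -⟩ := exists_eigenbasis i (hM m hm)
  have hpow : ∀ s, ((M ^ m).map i).mulVec (P s) = lam s ^ m • P s := by
    intro s
    have h1 : (M ^ m).map i = (M.map i) ^ m := Matrix.map_pow M i m
    rw [h1]
    exact mulVec_pow (hev s) m
  have hone : ∀ s, ∃ (u : Fin n) (q : Ω), lam' u = lam s ^ m ∧ P s = q • P' u := by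
    intro s
    obtain ⟨q, hq, hq'⟩ := mem_span_of_eig hP' hev' (hpow s)
    have h0 : ∃ u, q u ≠ 0 := by
      by_contra hno
      push Not at hno
      refine hP.ne_zero s ?_
      rw [hq]
      exact Finset.sum_eq_zero fun t _ => by rw [hno, zero_smul]
    obtain ⟨u, hu⟩ := h0
    refine ⟨u, q u, hq' u hu, ?_⟩
    rw [hq]
    refine Finset.sum_eq_single u (fun t _ hts => ?_) fun h => absurd (Finset.mem_univ _) h
    by_contra hne
    have h5 : q t ≠ 0 := by
      intro h6
      exact hne (by rw [h6, zero_smul])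
    exact hts (hlam' ((hq' t h5).trans (hq' u hu).symm))
  obtain ⟨u, q, hu, hq⟩ := hone s
  obtain ⟨u', q', hu', hq'⟩ := hone t
  have huu : u = u' := hlam' (by rw [hu, hu', h])
  subst huu
  by_contra hst
  have h1 : q' • P s - q • P t = 0 := by
    rw [hq, hq']
    module
  have h2 : LinearIndependent Ω ![P s, P t] := by
    have h3 := hP.comp ![s, t] (by
      intro x y hxy
      fin_cases x <;> fin_cases y
      · rfl
      · exact absurd hxy hst
      · exact absurd hxy.symm hst
      · rfl)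
    convert h3 using 1
    funext x
    fin_cases x <;> rfl
  have h3 := LinearIndependent.pair_iff.1 h2 q' (-q) (by rw [← h1]; module)
  have h4 : q = 0 := neg_eq_zero.1 h3.2
  exact hP.ne_zero s (by rw [hq, h4, zero_smul])

theorem semisimple_of_elt' {Ω : Type*} [Field Ω] [CharZero Ω] [IsAlgClosed Ω] (i : k →+* Ω)
    (hJc : IsCross J c) (hinv : Preserves ρ c) (g : G)
    (hg : SimplePowers (ρ g : Matrix (Fin 7) (Fin 7) k))
    (hdet : ∀ U (hU : StableG ρ U), ∃ N : ℕ, 0 < N ∧
      LinearMap.det (((ρ g : Matrix (Fin 7) (Fin 7) k).mulVecLin).restrict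
        (p := U) (q := U) fun x hx => hU g x hx) ^ N = 1) :
    SemisimpleG ρ := by
  classical
  have h2 : (2 : k) ≠ 0 := two_ne_zero
  have hone : (ρ g : Matrix (Fin 7) (Fin 7) k).charpoly.Separable := by
    have h3 := hg 1 one_pos
    rwa [pow_one] at h3
  obtain ⟨P, lam, hP, hlam, hev, -⟩ := exists_eigenbasis i hone
  have hlam0 : ∀ s, lam s ≠ 0 := by
    intro s h0
    have h3 := hev s
    rw [h0, zero_smul] at h3
    have h4 : ((ρ g⁻¹ : Matrix (Fin 7) (Fin 7) k).map i) *
        ((ρ g : Matrix (Fin 7) (Fin 7) k).map i) = 1 := by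
      rw [← Matrix.map_mul, coe_inv_mul', Matrix.map_one i (map_zero i) (map_one i)]
    have h5 := congrArg (fun z => ((ρ g⁻¹ : Matrix (Fin 7) (Fin 7) k).map i).mulVec z) h3
    simp only [Matrix.mulVec_mulVec, h4, Matrix.one_mulVec, Matrix.mulVec_zero] at h5
    exact hP.ne_zero s h5
  let Q := Ωˣ ⧸ CommGroup.torsion Ωˣ
  let a : Fin 7 → Additive Q := fun s => Additive.ofMul (QuotientGroup.mk (Units.mk0 (lam s) (hlam0 s)))
  have haeq : ∀ x y : Ωˣ, (QuotientGroup.mk x : Q) = QuotientGroup.mk y ↔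
      ∃ m : ℕ, 0 < m ∧ x ^ m = y ^ m := by
    intro x y
    rw [QuotientGroup.eq, CommGroup.mem_torsion, isOfFinOrder_iff_pow_eq_one]
    constructor
    · rintro ⟨m, hm, h3⟩
      refine ⟨m, hm, ?_⟩
      rw [mul_pow, inv_pow] at h3
      exact inv_mul_eq_one.1 h3
    · rintro ⟨m, hm, h3⟩
      refine ⟨m, hm, ?_⟩
      rw [mul_pow, inv_pow, h3, inv_mul_cancel]
  have ha : Function.Injective a := by
    intro s t hst
    obtain ⟨m, hm, h3⟩ := (haeq _ _).1 (Additive.ofMul.injective hst)
    have h4 := congrArg Units.val h3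
    rw [Units.val_pow_eq_pow_val, Units.val_pow_eq_pow_val, Units.val_mk0, Units.val_mk0] at h4
    exact eq_of_pow hg hP hev hm h4
  let Pm : Matrix (Fin 7) (Fin 7) Ω := Matrix.of fun t s => P s t
  have hPm : (fun s t => Pm t s) = P := rfl
  have hPdet : Pm.det ≠ 0 := by
    have h3 : LinearIndependent Ω Pm.col := hP
    exact ((Matrix.isUnit_iff_isUnit_det _).1
      (Matrix.linearIndependent_cols_iff_isUnit.1 h3)).ne_zero
  have hform : ∀ x y : Fin 7 → Ω, form (J.map i) (((ρ g : Matrix (Fin 7) (Fin 7) k).map i).mulVec x)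
      (((ρ g : Matrix (Fin 7) (Fin 7) k).map i).mulVec y) = form (J.map i) x y := by
    intro x y
    have h3 : (ρ g : Matrix (Fin 7) (Fin 7) k)ᵀ * J * (ρ g : Matrix (Fin 7) (Fin 7) k) = J :=
      form_matrix (form_of_preserves h2 hJc hinv g)
    have h4 : ((ρ g : Matrix (Fin 7) (Fin 7) k).map i)ᵀ * J.map i *
        ((ρ g : Matrix (Fin 7) (Fin 7) k).map i) = J.map i := by
      have h5 := congrArg (fun M : Matrix (Fin 7) (Fin 7) k => M.map i) h3
      simp only [Matrix.map_mul] at h5
      exact h5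
    rw [form_eq, form_eq, Matrix.mulVec_mulVec, Matrix.dotProduct_mulVec, Matrix.vecMul_mulVec,
      ← Matrix.dotProduct_mulVec]
    conv_rhs => rw [← h4]
    rw [Matrix.mul_assoc]
  refine semisimple_of_weights (P := Pm) (a := a) h2 hJc hinv i hPdet ha ?_ ?_ ?_
  · intro s t hst
    have h3 : form (J.map i) (P s) (P t) ≠ 0 := by
      have h4 : form (J.map i) (P s) (P t) = (Pmᵀ * J.map i * Pm) s t := by
        rw [form_eq, Matrix.mul_assoc, Matrix.mul_apply]
        rfl
      rw [h4]
      exact hst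
    have h4 := hform (P s) (P t)
    rw [hev, hev, ← formB_apply, map_smul, map_smul, LinearMap.smul_apply, smul_eq_mul,
      smul_eq_mul, formB_apply, ← mul_assoc] at h4
    have h5 : lam t * lam s = 1 := by
      have h6 : (lam t * lam s - 1) * form (J.map i) (P s) (P t) = 0 := by
        rw [sub_mul, one_mul, h4, sub_self]
      exact sub_eq_zero.1 ((mul_eq_zero.1 h6).resolve_right h3)
    change Additive.ofMul _ + Additive.ofMul _ = 0
    rw [← ofMul_mul, ← QuotientGroup.mk_mul]
    have h6 : Units.mk0 (lam s) (hlam0 s) * Units.mk0 (lam t) (hlam0 t) = 1 := by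
      apply Units.ext
      rw [Units.val_mul, Units.val_mk0, Units.val_mk0, Units.val_one, mul_comm, h5]
    rw [h6]
    rfl
  · intro s t
    have h3 : (((ρ g : Matrix (Fin 7) (Fin 7) k).map i).mulVec (cross (mapC i c) (P s) (P t))) =
        (lam s * lam t) • cross (mapC i c) (P s) (P t) := by
      rw [← cross_map_mulVec i (M := (ρ g : Matrix (Fin 7) (Fin 7) k)) (hinv g), hev, hev,
        ← crossB_apply, map_smul, map_smul, LinearMap.smul_apply, smul_smul, mul_comm]
      rfl
    obtain ⟨q, hq, hq'⟩ := mem_span_of_eig hP hev h3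
    change cross (mapC i c) (P s) (P t) ∈ _
    rw [hq]
    refine Submodule.sum_mem _ fun u _ => ?_
    by_cases hu : q u = 0
    · rw [hu, zero_smul]
      exact Submodule.zero_mem _
    · refine Submodule.smul_mem _ _ (Submodule.subset_span ⟨u, rfl, ?_⟩)
      change Additive.ofMul _ = Additive.ofMul _ + Additive.ofMul _
      rw [← ofMul_mul, ← QuotientGroup.mk_mul]
      congr 2
      apply Units.ext
      rw [Units.val_mul, Units.val_mk0, Units.val_mk0, Units.val_mk0, hq' u hu]
  · intro U hU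
    obtain ⟨S, h3, h4, h5, h6⟩ := exists_S_of_eig hP hlam hev (U := U) (fun x hx => hU g x hx)
    refine ⟨S, h3, h4, h5, ?_⟩
    obtain ⟨N, hN, hN'⟩ := hdet U hU
    have h7 : (∏ s ∈ S, lam s) ^ N = 1 := by
      rw [h6, ← map_pow, hN', map_one]
    have h8 : ∑ s ∈ S, a s = Additive.ofMul
        (QuotientGroup.mk (∏ s ∈ S, Units.mk0 (lam s) (hlam0 s)) : Q) := by
      rw [← QuotientGroup.mk'_apply, map_prod, ofMul_prod]
      rfl
    rw [h8]
    have h9 : (QuotientGroup.mk (∏ s ∈ S, Units.mk0 (lam s) (hlam0 s)) : Q) = 1 := by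
      rw [← QuotientGroup.mk_one, haeq]
      refine ⟨N, hN, ?_⟩
      apply Units.ext
      rw [Units.val_pow_eq_pow_val, Units.coe_prod, one_pow, Units.val_one]
      simpa only [Units.val_mk0] using h7
    rw [h9]
    rfl

/-- **The case of an element with simple powers.** -/
theorem semisimple_of_elt (hJc : IsCross J c) (hinv : Preserves ρ c) (g : G)
    (hg : SimplePowers (ρ g : Matrix (Fin 7) (Fin 7) k))
    (hdet : ∀ U (hU : StableG ρ U), ∃ N : ℕ, 0 < N ∧
      LinearMap.det (((ρ g : Matrix (Fin 7) (Fin 7) k).mulVecLin).restrict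
        (p := U) (q := U) fun x hx => hU g x hx) ^ N = 1) :
    SemisimpleG ρ := by
  have hcharΩ : CharZero (AlgebraicClosure k) :=
    charZero_of_injective_ringHom (algebraMap k (AlgebraicClosure k)).injective
  exact semisimple_of_elt' (algebraMap k (AlgebraicClosure k)) hJc hinv g hg hdet

end frob

end Pool.Agent.H853.G2
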