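import Pool.Agent.H853.SR.Fin
import Pool.Agent.H853.G2.Gen

/-!
# The Lie algebra of derivations of a cross product
-/

set_option autoImplicit false
set_option linter.unusedSectionVars false

namespace Pool.Agent.H853.G2

open Module Pool.Agent.Y114.RM Pool.Agent.H853.SR

section alg

variable {k : Type} [Field k] {V : Type} [AddCommGroup V] [Module k V]

/-- The derivations of the product `m`. -/
def DerOf (m : V →ₗ[k] V →ₗ[k] V) : Submodule k (End k V) where
  carrier := {X | ∀ x y, X (m x y) = m (X x) y + m x (X y)}
  add_mem' := by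
    intro X Y hX hY x y
    simp only [LinearMap.add_apply, map_add, hX x y, hY x y]
    abel
  zero_mem' := by
    intro x y
    simp only [LinearMap.zero_apply, map_zero, add_zero]
  smul_mem' := by
    intro c X hX x y
    simp only [LinearMap.smul_apply, map_smul, hX x y, smul_add]

theorem mem_der {m : V →ₗ[k] V →ₗ[k] V} {X : End k V} :
    X ∈ DerOf m ↔ ∀ x y, X (m x y) = m (X x) y + m x (X y) := Iff.rfl

theorem isLie_der (m : V →ₗ[k] V →ₗ[k] V) : IsLie (DerOf m) := by
  intro X hX Y hY x y
  rw [mem_der] at hX hY
  simp only [LinearMap.sub_apply, Module.End.mul_apply, hX, hY, map_add, LinearMap.add_apply,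
    map_sub]
  abel

theorem der_conj {m : V →ₗ[k] V →ₗ[k] V} {g g' : End k V} (hg : ∀ x y, g (m x y) = m (g x) (g y))
    (hgg : g * g' = 1) (hg'g : g' * g = 1) {X : End k V} (hX : X ∈ DerOf m) :
    g * X * g' ∈ DerOf m := by
  have h1 : ∀ x, g (g' x) = x := fun x => by
    rw [← Module.End.mul_apply, hgg, Module.End.one_apply]
  have h2 : ∀ x, g' (g x) = x := fun x => by
    rw [← Module.End.mul_apply, hg'g, Module.End.one_apply]
  have h3 : ∀ x y, g' (m x y) = m (g' x) (g' y) := by
    intro x y
    rw [← h2 (m (g' x) (g' y)), hg, h1, h1]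
  intro x y
  rw [Module.End.mul_apply, Module.End.mul_apply, Module.End.mul_apply, Module.End.mul_apply,
    Module.End.mul_apply, Module.End.mul_apply, h3, hX, map_add, hg, hg, h1, h1]

variable {B : V →ₗ[k] V →ₗ[k] k} {m : V →ₗ[k] V →ₗ[k] V}

/-- Derivations are skew. -/
theorem der_skew (h2 : (2 : k) ≠ 0) (h : IsCrossB B m) (hdim : ∀ x : V, ∃ y, ∀ c : k, y ≠ c • x)
    {X : End k V} (hX : X ∈ DerOf m) (x y : V) : B (X x) y + B x (X y) = 0 := by
  have h1 : ∀ x, B x (X x) = 0 := by
    intro x
    by_cases hx : x = 0
    · rw [hx, map_zero, LinearMap.zero_apply]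
    obtain ⟨y, hy⟩ := hdim x
    have h3 := congrArg X (h.twice x y)
    rw [hX, hX, map_sub, map_smul, map_smul] at h3
    have h4 := h.twice2 x (X x) y
    have h5 := h.twice x (X y)
    rw [map_add, h5] at h3
    have h6 : (B x y • X x + B (X x) y • x - (2 * B x (X x)) • y) + (B x (X y) • x - B x x • X y) =
        B x y • X x - B x x • X y := by
      rw [← h4, ← h3]
      abel
    have h7 : (2 * B x (X x)) • y = (B (X x) y + B x (X y)) • x := by
      have h8 : (B x y • X x + B (X x) y • x - (2 * B x (X x)) • y) +
          (B x (X y) • x - B x x • X y) - (B x y • X x - B x x • X y) =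
          (B (X x) y + B x (X y)) • x - (2 * B x (X x)) • y := by module
      rw [h6, sub_self] at h8
      exact (sub_eq_zero.1 h8.symm).symm
    by_contra hne
    have h8 : (2 * B x (X x)) ≠ 0 := mul_ne_zero h2 hne
    apply hy ((2 * B x (X x))⁻¹ * (B (X x) y + B x (X y)))
    rw [mul_smul, ← h7, smul_smul, inv_mul_cancel₀ h8, one_smul]
  have h3 := h1 (x + y)
  simp only [map_add, LinearMap.add_apply, h1, zero_add, add_zero] at h3
  rw [h.symm (X x) y]
  exact h3

/-- The trilinear tensor of the product. -/
def tens3 (B : V →ₗ[k] V →ₗ[k] k) (m : V →ₗ[k] V →ₗ[k] V) : Tensor k V 3 where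
  toFun v := B (m (v 0).1 (v 1).1) (v 2).1
  map_update_add' := by
    intro inst v i x y
    have hinst : inst = instDecidableEqFin 3 := Subsingleton.elim _ _
    subst hinst
    fin_cases i
    · change B (m (Function.update v 0 (x + y) 0).1 (Function.update v 0 (x + y) 1).1)
        (Function.update v 0 (x + y) 2).1 =
        B (m (Function.update v 0 x 0).1 (Function.update v 0 x 1).1)
        (Function.update v 0 x 2).1 +
        B (m (Function.update v 0 y 0).1 (Function.update v 0 y 1).1)
        (Function.update v 0 y 2).1
      have h1 : ∀ z, Function.update v 0 z 1 = v 1 := fun z =>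
        Function.update_of_ne (by decide) _ _
      have h2 : ∀ z, Function.update v 0 z 2 = v 2 := fun z =>
        Function.update_of_ne (by decide) _ _
      simp only [h1, h2, Function.update_self, Prod.fst_add, map_add, LinearMap.add_apply]
    · change B (m (Function.update v 1 (x + y) 0).1 (Function.update v 1 (x + y) 1).1)
        (Function.update v 1 (x + y) 2).1 =
        B (m (Function.update v 1 x 0).1 (Function.update v 1 x 1).1)
        (Function.update v 1 x 2).1 +
        B (m (Function.update v 1 y 0).1 (Function.update v 1 y 1).1)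
        (Function.update v 1 y 2).1
      have h1 : ∀ z, Function.update v 1 z 0 = v 0 := fun z =>
        Function.update_of_ne (by decide) _ _
      have h2 : ∀ z, Function.update v 1 z 2 = v 2 := fun z =>
        Function.update_of_ne (by decide) _ _
      simp only [h1, h2, Function.update_self, Prod.fst_add, map_add, LinearMap.add_apply]
    · change B (m (Function.update v 2 (x + y) 0).1 (Function.update v 2 (x + y) 1).1)
        (Function.update v 2 (x + y) 2).1 =
        B (m (Function.update v 2 x 0).1 (Function.update v 2 x 1).1)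
        (Function.update v 2 x 2).1 +
        B (m (Function.update v 2 y 0).1 (Function.update v 2 y 1).1)
        (Function.update v 2 y 2).1
      have h1 : ∀ z, Function.update v 2 z 0 = v 0 := fun z =>
        Function.update_of_ne (by decide) _ _
      have h2 : ∀ z, Function.update v 2 z 1 = v 1 := fun z =>
        Function.update_of_ne (by decide) _ _
      simp only [h1, h2, Function.update_self, Prod.fst_add, map_add]
  map_update_smul' := by
    intro inst v i c x
    have hinst : inst = instDecidableEqFin 3 := Subsingleton.elim _ _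
    subst hinst
    fin_cases i
    · change B (m (Function.update v 0 (c • x) 0).1 (Function.update v 0 (c • x) 1).1)
        (Function.update v 0 (c • x) 2).1 =
        c • B (m (Function.update v 0 x 0).1 (Function.update v 0 x 1).1)
        (Function.update v 0 x 2).1
      have h1 : ∀ z, Function.update v 0 z 1 = v 1 := fun z =>
        Function.update_of_ne (by decide) _ _
      have h2 : ∀ z, Function.update v 0 z 2 = v 2 := fun z =>
        Function.update_of_ne (by decide) _ _
      simp only [h1, h2, Function.update_self, Prod.smul_fst, map_smul, LinearMap.smul_apply]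
    · change B (m (Function.update v 1 (c • x) 0).1 (Function.update v 1 (c • x) 1).1)
        (Function.update v 1 (c • x) 2).1 =
        c • B (m (Function.update v 1 x 0).1 (Function.update v 1 x 1).1)
        (Function.update v 1 x 2).1
      have h1 : ∀ z, Function.update v 1 z 0 = v 0 := fun z =>
        Function.update_of_ne (by decide) _ _
      have h2 : ∀ z, Function.update v 1 z 2 = v 2 := fun z =>
        Function.update_of_ne (by decide) _ _
      simp only [h1, h2, Function.update_self, Prod.smul_fst, map_smul, LinearMap.smul_apply]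
    · change B (m (Function.update v 2 (c • x) 0).1 (Function.update v 2 (c • x) 1).1)
        (Function.update v 2 (c • x) 2).1 =
        c • B (m (Function.update v 2 x 0).1 (Function.update v 2 x 1).1)
        (Function.update v 2 x 2).1
      have h1 : ∀ z, Function.update v 2 z 0 = v 0 := fun z =>
        Function.update_of_ne (by decide) _ _
      have h2 : ∀ z, Function.update v 2 z 1 = v 1 := fun z =>
        Function.update_of_ne (by decide) _ _
      simp only [h1, h2, Function.update_self, Prod.smul_fst, map_smul]

theorem tens3_apply (v : Fin 3 → V × Dual k V) :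
    tens3 B m v = B (m (v 0).1 (v 1).1) (v 2).1 := rfl

/-- The bilinear form as a tensor. -/
def tens2 (B : V →ₗ[k] V →ₗ[k] k) : Tensor k V 2 :=
  Pool.Agent.H204R3.SP.bil2 (B.compl₁₂ (LinearMap.fst k V (Dual k V)) (LinearMap.fst k V (Dual k V)))

theorem tens2_apply (v : Fin 2 → V × Dual k V) : tens2 B v = B (v 0).1 (v 1).1 := rfl

theorem kills_tens2 {X : End k V} : KillsTensor X (tens2 B) ↔ ∀ x y, B (X x) y + B x (X y) = 0 := by
  constructor
  · intro h x y
    have h1 := h ![(x, 0), (y, 0)]
    rw [Fin.sum_univ_two, tens2_apply, tens2_apply, Function.update_self, Function.update_self,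
      Function.update_of_ne Fin.zero_ne_one.symm, Function.update_of_ne Fin.zero_ne_one] at h1
    exact h1
  · intro h v
    rw [Fin.sum_univ_two, tens2_apply, tens2_apply, Function.update_self, Function.update_self,
      Function.update_of_ne Fin.zero_ne_one.symm, Function.update_of_ne Fin.zero_ne_one]
    exact h _ _

theorem kills_tens3 {X : End k V} : KillsTensor X (tens3 B m) ↔
    ∀ x y z, B (m (X x) y) z + B (m x (X y)) z + B (m x y) (X z) = 0 := by
  have h1 : ∀ v : Fin 3 → V × Dual k V, ∑ l, tens3 B m (Function.update v l (lie X (v l))) =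
      B (m (X (v 0).1) (v 1).1) (v 2).1 + B (m (v 0).1 (X (v 1).1)) (v 2).1 +
        B (m (v 0).1 (v 1).1) (X (v 2).1) := by
    intro v
    rw [Fin.sum_univ_three, tens3_apply, tens3_apply, tens3_apply, Function.update_self,
      Function.update_self, Function.update_self]
    have e1 : ∀ z, Function.update v 0 z 1 = v 1 := fun z =>
      Function.update_of_ne (by decide) _ _
    have e2 : ∀ z, Function.update v 0 z 2 = v 2 := fun z =>
      Function.update_of_ne (by decide) _ _
    have e3 : ∀ z, Function.update v 1 z 0 = v 0 := fun z =>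
      Function.update_of_ne (by decide) _ _
    have e4 : ∀ z, Function.update v 1 z 2 = v 2 := fun z =>
      Function.update_of_ne (by decide) _ _
    have e5 : ∀ z, Function.update v 2 z 0 = v 0 := fun z =>
      Function.update_of_ne (by decide) _ _
    have e6 : ∀ z, Function.update v 2 z 1 = v 1 := fun z =>
      Function.update_of_ne (by decide) _ _
    rw [e1, e2, e3, e4, e5, e6]
    rfl
  constructor
  · intro h x y z
    have h2 := h ![(x, 0), (y, 0), (z, 0)]
    rw [h1] at h2
    exact h2
  · intro h v
    rw [h1]
    exact h _ _ _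

/-- An endomorphism is a derivation if it kills the form and the trilinear form. -/
theorem der_of_kills (hnd : ∀ x, (∀ z, B x z = 0) → x = 0) {X : End k V}
    (h2 : KillsTensor X (tens2 B)) (h3 : KillsTensor X (tens3 B m)) : X ∈ DerOf m := by
  rw [kills_tens2] at h2
  rw [kills_tens3] at h3
  intro x y
  rw [← sub_eq_zero]
  apply hnd
  intro z
  rw [map_sub, map_add, LinearMap.sub_apply, LinearMap.add_apply]
  linear_combination h2 (m x y) z - h3 x y z

theorem closed_der (h2 : (2 : k) ≠ 0) (h : IsCrossB B m)
    (hdim : ∀ x : V, ∃ y, ∀ c : k, y ≠ c • x) (hnd : ∀ x, (∀ z, B x z = 0) → x = 0) :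
    Closed (DerOf m) := by
  intro X hX
  have hk2 : ∀ Y ∈ DerOf m, ∀ x y, B (Y x) y + B x (Y y) = 0 :=
    fun Y hY => der_skew h2 h hdim hY
  refine der_of_kills hnd (hX 2 (tens2 B) fun Y hY => kills_tens2.2 (hk2 Y hY))
    (hX 3 (tens3 B m) fun Y hY => kills_tens3.2 fun x y z => ?_)
  have h3 := hk2 Y hY (m x y) z
  rw [hY, map_add, LinearMap.add_apply] at h3
  exact h3

/-- The monodromy Lie algebra is contained in the derivations. -/
theorem le_der {Γ : Type} [Group Γ] {ρ : Representation k Γ V}
    (hρ : ∀ g x y, ρ g (m x y) = m (ρ g x) (ρ g y)) (hρB : ∀ g x y, B (ρ g x) (ρ g y) = B x y)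
    (hnd : ∀ x, (∀ z, B x z = 0) → x = 0) {X : End k V}
    (hX : ∀ (n : ℕ) (φ : Tensor k V n), TateTensor ρ φ → KillsTensor X φ) : X ∈ DerOf m := by
  have hfix : ∀ g, (∀ v : Fin 2 → V × Dual k V, tens2 B (fun l => grp (ρ g) (ρ g⁻¹) (v l)) =
      tens2 B v) ∧ ∀ v : Fin 3 → V × Dual k V, tens3 B m (fun l => grp (ρ g) (ρ g⁻¹) (v l)) =
      tens3 B m v := by
    intro g
    refine ⟨fun v => ?_, fun v => ?_⟩
    · rw [tens2_apply, tens2_apply]
      exact hρB g _ _
    · rw [tens3_apply, tens3_apply]
      change B (m (ρ g (v 0).1) (ρ g (v 1).1)) (ρ g (v 2).1) = _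
      rw [← hρ, hρB]
  refine der_of_kills hnd (hX 2 _ ⟨⊤, inferInstance, fun g _ => (hfix g).1⟩)
    (hX 3 _ ⟨⊤, inferInstance, fun g _ => (hfix g).2⟩)

end alg

end Pool.Agent.H853.G2
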