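import Pool.Agent.H853.G2.HT

/-!
# Stable subspaces and elements with simple eigenvalues
-/

set_option autoImplicit false
set_option linter.unusedSectionVars false

open Module Matrix

namespace Pool.Agent.H853.G2

open Pool.Agent.K7.H9.SS

/-- All powers of the matrix have simple eigenvalues. -/
def SimplePowers {k : Type*} [Field k] {n : ℕ} (M : Matrix (Fin n) (Fin n) k) : Prop :=
  ∀ m : ℕ, 0 < m → (M ^ m).charpoly.Separable

/-- A basis of a subspace, as a matrix. -/
theorem exists_base' {𝕂 : Type*} [Field 𝕂] {n : ℕ} (U : Submodule 𝕂 (Fin n → 𝕂)) :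
    ∃ B : Matrix (Fin n) (Fin (finrank 𝕂 U)) 𝕂, (∀ k, (fun i => B i k) ∈ U) ∧
      (∃ L : Matrix (Fin (finrank 𝕂 U)) (Fin n) 𝕂, L * B = 1) ∧
      ∀ (A : Matrix (Fin n) (Fin n) 𝕂) (h : ∀ x ∈ U, (Matrix.mulVecLin A) x ∈ U),
        ∃ C : Matrix (Fin (finrank 𝕂 U)) (Fin (finrank 𝕂 U)) 𝕂, A * B = B * C ∧
          C.det = LinearMap.det ((Matrix.mulVecLin A).restrict h) := by
  classical
  let b := Module.finBasis 𝕂 U
  let B : Matrix (Fin n) (Fin (finrank 𝕂 U)) 𝕂 := fun i k => (b k : Fin n → 𝕂) i
  have hB : ∀ c : Fin (finrank 𝕂 U) → 𝕂, B.mulVec c = ((∑ k, c k • b k : U) : Fin n → 𝕂) := by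
    intro c
    funext i
    rw [Submodule.coe_sum, Finset.sum_apply]
    simp only [Matrix.mulVec, dotProduct, Submodule.coe_smul, Pi.smul_apply, smul_eq_mul]
    exact Finset.sum_congr rfl fun k _ => mul_comm _ _
  refine ⟨B, fun k => (b k).2, ?_, ?_⟩
  · have hinj : LinearMap.ker B.mulVecLin = ⊥ := by
      rw [LinearMap.ker_eq_bot']
      intro c hc
      rw [Matrix.mulVecLin_apply, hB] at hc
      have h1 : ∑ k, c k • b k = 0 := Subtype.ext hc
      funext k
      exact (Fintype.linearIndependent_iff.1 b.linearIndependent) c h1 k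
    obtain ⟨L, hL⟩ := LinearMap.exists_leftInverse_of_injective B.mulVecLin hinj
    refine ⟨LinearMap.toMatrix' L, ?_⟩
    have h2 : LinearMap.toMatrix' (L ∘ₗ B.mulVecLin) = LinearMap.toMatrix' L * B := by
      rw [LinearMap.toMatrix'_comp, ← Matrix.toLin'_apply', LinearMap.toMatrix'_toLin']
    rw [← h2, hL, LinearMap.toMatrix'_id]
  · intro A h
    refine ⟨LinearMap.toMatrix b b ((Matrix.mulVecLin A).restrict h), ?_, ?_⟩
    · apply Matrix.toLin'.injective
      refine (Pi.basisFun 𝕂 (Fin (finrank 𝕂 U))).ext fun k => ?_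
      rw [Pi.basisFun_apply, Matrix.toLin'_apply, Matrix.toLin'_apply, ← Matrix.mulVec_mulVec,
        ← Matrix.mulVec_mulVec, hB, hB]
      have h1 : (∑ l, (Pi.single k (1 : 𝕂) : Fin (finrank 𝕂 U) → 𝕂) l • b l : U) = b k := by
        rw [Finset.sum_eq_single k]
        · rw [Pi.single_eq_same, one_smul]
        · intro l _ hl
          rw [Pi.single_eq_of_ne hl, zero_smul]
        · intro h
          exact absurd (Finset.mem_univ k) h
      rw [h1]
      have h2 : (LinearMap.toMatrix b b ((Matrix.mulVecLin A).restrict h)).mulVec (Pi.single k 1) =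
          b.repr (((Matrix.mulVecLin A).restrict h) (b k)) := by
        rw [← LinearMap.toMatrix_mulVec_repr b b, b.repr_self]
        congr 1
        funext l
        rw [Finsupp.single_apply, Pi.single_apply]
        simp only [eq_comm]
      have h3 : (∑ l, (b.repr (((Matrix.mulVecLin A).restrict h) (b k))) l • b l : U) =
          ((Matrix.mulVecLin A).restrict h) (b k) := b.sum_repr _
      rw [h2, h3]
      rfl
    · rw [LinearMap.det_toMatrix]

section eig

variable {k Ω : Type*} [Field k] [Field Ω] (i : k →+* Ω) {n : ℕ}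

/-- A basis of eigenvectors. -/
theorem exists_eigenbasis [IsAlgClosed Ω] {M : Matrix (Fin n) (Fin n) k}
    (hM : M.charpoly.Separable) :
    ∃ (P : Fin n → (Fin n → Ω)) (lam : Fin n → Ω), LinearIndependent Ω P ∧
      Function.Injective lam ∧ (∀ s, (M.map i).mulVec (P s) = lam s • P s) ∧
      ∀ s, Polynomial.eval₂ i (lam s) M.charpoly = 0 := by
  classical
  have hch : (M.map i).charpoly = M.charpoly.map i := Matrix.charpoly_map M i
  have hsep : (M.map i).charpoly.Separable := by
    rw [hch]
    exact hM.map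
  have hmonic : (M.map i).charpoly.Monic := Matrix.charpoly_monic _
  have hcard : (M.map i).charpoly.roots.toFinset.card = n := by
    rw [Multiset.toFinset_card_of_nodup (Polynomial.nodup_roots hsep),
      IsAlgClosed.card_roots_eq_natDegree, Matrix.charpoly_natDegree_eq_dim, Fintype.card_fin]
  obtain ⟨e⟩ : Nonempty (Fin n ≃ (M.map i).charpoly.roots.toFinset) :=
    ⟨(Finset.equivFinOfCardEq hcard).symm⟩
  have hmem : ∀ s, (M.map i).charpoly.IsRoot (e s : Ω) := by
    intro s
    have h1 : (e s : Ω) ∈ (M.map i).charpoly.roots := Multiset.mem_toFinset.1 (e s).2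
    exact (Polynomial.mem_roots hmonic.ne_zero).1 h1
  have hroot : ∀ s, ∃ v : Fin n → Ω, v ≠ 0 ∧ (M.map i).mulVec v = (e s : Ω) • v := by
    intro s
    have h3 : Module.End.HasEigenvalue (Matrix.toLin' (M.map i)) (e s : Ω) := by
      rw [Module.End.hasEigenvalue_iff_isRoot_charpoly, Matrix.charpoly_toLin']
      exact hmem s
    obtain ⟨v, hv⟩ := h3.exists_hasEigenvector
    exact ⟨v, hv.2, by rw [← Matrix.toLin'_apply]; exact hv.apply_eq_smul⟩
  choose P hP0 hP using hroot
  have hinj : Function.Injective fun s => (e s : Ω) :=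
    fun s t hst => e.injective (Subtype.ext hst)
  refine ⟨P, fun s => e s, ?_, hinj, hP, fun s => ?_⟩
  · refine Module.End.eigenvectors_linearIndependent' (Matrix.toLin' (M.map i))
      (fun s => (e s : Ω)) hinj P fun s => ⟨?_, hP0 s⟩
    rw [Module.End.mem_eigenspace_iff, Matrix.toLin'_apply]
    exact hP s
  · have h1 : Polynomial.eval (e s : Ω) (M.map i).charpoly = 0 := hmem s
    change Polynomial.eval₂ i (e s : Ω) M.charpoly = 0
    rw [← Polynomial.eval_map, ← hch]
    exact h1

variable {i}

theorem cols_eq {U : Submodule k (Fin n → k)} {d : ℕ} (hd : finrank k U = d)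
    {B : Matrix (Fin n) (Fin d) k} (hBU : ∀ l, (fun t => B t l) ∈ U)
    {L : Matrix (Fin d) (Fin n) k} (hL : L * B = 1) :
    UC i U = Submodule.span Ω (Set.range fun (l : Fin d) t => i (B t l)) := by
  refine le_antisymm (UC_le_cols i hd hBU hL) ?_
  rw [Submodule.span_le]
  rintro _ ⟨l, rfl⟩
  exact mem_UC (hBU l)

theorem cols_indep {d : ℕ} {B : Matrix (Fin n) (Fin d) k}
    {L : Matrix (Fin d) (Fin n) k} (hL : L * B = 1) :
    LinearIndependent Ω (fun (l : Fin d) t => i (B t l)) := by
  have hLi : (L.map i) * (B.map i) = 1 := by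
    rw [← Matrix.map_mul, hL, Matrix.map_one i (map_zero i) (map_one i)]
  have h5 : Function.Injective (B.map i).mulVec := by
    intro v w hvw
    have h6 := congrArg (fun z => (L.map i).mulVec z) hvw
    simpa [Matrix.mulVec_mulVec, hLi] using h6
  exact Matrix.mulVec_injective_iff.1 h5

theorem UC_stable {U : Submodule k (Fin n → k)} {M : Matrix (Fin n) (Fin n) k}
    (hU : ∀ x ∈ U, M.mulVecLin x ∈ U) : ∀ x ∈ UC i U, (M.map i).mulVecLin x ∈ UC i U := by
  intro x hx
  refine Submodule.span_induction ?_ ?_ ?_ ?_ hx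
  · rintro _ ⟨y, hy, rfl⟩
    change (M.map i).mulVec (fun s => i (y s)) ∈ UC i U
    rw [map_mulVec]
    exact mem_UC (hU y hy)
  · rw [map_zero]
    exact Submodule.zero_mem _
  · intro v w _ _ hv hw
    rw [map_add]
    exact Submodule.add_mem _ hv hw
  · intro b v _ hv
    rw [map_smul]
    exact Submodule.smul_mem _ _ hv

/-- A vector which is an eigenvector. -/
theorem mem_span_of_eig {M : Matrix (Fin n) (Fin n) Ω} {P : Fin n → (Fin n → Ω)}
    {lam : Fin n → Ω} (hP : LinearIndependent Ω P) (hev : ∀ s, M.mulVec (P s) = lam s • P s)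
    {x : Fin n → Ω} {μ : Ω} (hx : M.mulVec x = μ • x) :
    ∃ q : Fin n → Ω, x = ∑ s, q s • P s ∧ ∀ s, q s ≠ 0 → lam s = μ := by
  have htop : Submodule.span Ω (Set.range P) = ⊤ :=
    hP.span_eq_top_of_card_eq_finrank' (by rw [Fintype.card_fin, finrank_fin_fun])
  have h1 : x ∈ Submodule.span Ω (Set.range P) := by rw [htop]; exact Submodule.mem_top
  obtain ⟨q, hq⟩ := (Submodule.mem_span_range_iff_exists_fun Ω).1 h1
  refine ⟨q, hq.symm, fun s hs => ?_⟩
  have h2 : ∑ s, (q s * (lam s - μ)) • P s = 0 := by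
    have h3 : M.mulVec x = ∑ s, (q s * lam s) • P s := by
      rw [← hq]
      change M.mulVecLin (∑ s, q s • P s) = _
      rw [map_sum]
      refine Finset.sum_congr rfl fun s _ => ?_
      rw [map_smul, mul_smul]
      congr 1
      exact hev s
    rw [hx, ← hq, Finset.smul_sum] at h3
    rw [← sub_eq_zero, ← Finset.sum_sub_distrib] at h3
    rw [← neg_eq_zero, ← Finset.sum_neg_distrib, ← h3]
    refine Finset.sum_congr rfl fun s _ => ?_
    module
  have h4 := (Fintype.linearIndependent_iff.1 hP) _ h2 s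
  exact sub_eq_zero.1 ((mul_eq_zero.1 h4).resolve_left hs)

/-- A stable subspace is, after the extension of scalars, the span of some of the eigenvectors. -/
theorem exists_S_of_eig {U : Submodule k (Fin n → k)} {M : Matrix (Fin n) (Fin n) k}
    {P : Fin n → (Fin n → Ω)} {lam : Fin n → Ω} (hP : LinearIndependent Ω P)
    (hlam : Function.Injective lam) (hev : ∀ s, (M.map i).mulVec (P s) = lam s • P s)
    (hU : ∀ x ∈ U, M.mulVecLin x ∈ U) :
    ∃ S : Finset (Fin n), S.card = finrank k U ∧ (∀ s ∈ S, P s ∈ UC i U) ∧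
      UC i U ≤ Submodule.span Ω (P '' (S : Set (Fin n))) ∧
      ∏ s ∈ S, lam s = i (LinearMap.det (M.mulVecLin.restrict hU)) := by
  classical
  obtain ⟨B, hBU, ⟨L, hL⟩, hA⟩ := exists_base' U
  obtain ⟨C, hC1, hC2⟩ := hA M hU
  have hcols := cols_eq (i := i) rfl hBU hL
  have hind := cols_indep (i := i) hL
  let S : Finset (Fin n) := Finset.univ.filter fun s => P s ∈ UC i U
  have hSmem : ∀ s, s ∈ S ↔ P s ∈ UC i U := fun s => by simp [S]
  have htop : Submodule.span Ω (Set.range P) = ⊤ :=
    hP.span_eq_top_of_card_eq_finrank' (by rw [Fintype.card_fin, finrank_fin_fun])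
  have hge : Submodule.span Ω (P '' (S : Set (Fin n))) ≤ UC i U := by
    rw [Submodule.span_le]
    rintro _ ⟨s, hs, rfl⟩
    exact (hSmem s).1 (by exact_mod_cast hs)
  have hle : UC i U ≤ Submodule.span Ω (P '' (S : Set (Fin n))) := by
    have h1 : ⨆ μ, Module.End.genEigenspace ((M.map i).mulVecLin) μ 1 = ⊤ := by
      rw [eq_top_iff, ← htop, Submodule.span_le]
      rintro _ ⟨s, rfl⟩
      refine Submodule.mem_iSup_of_mem (lam s) ?_
      change P s ∈ Module.End.eigenspace ((M.map i).mulVecLin) (lam s)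
      rw [Module.End.mem_eigenspace_iff]
      exact hev s
    rw [Submodule.eq_iSup_inf_genEigenspace 1 (UC_stable hU) h1]
    refine iSup_le fun μ => ?_
    rintro x ⟨hx1, hx2⟩
    have hx3 : (M.map i).mulVec x = μ • x := Module.End.mem_eigenspace_iff.1 hx2
    obtain ⟨q, hq, hq'⟩ := mem_span_of_eig hP hev hx3
    by_cases h0 : ∃ s, q s ≠ 0
    · obtain ⟨s, hs⟩ := h0
      have hx4 : x = q s • P s := by
        rw [hq]
        refine Finset.sum_eq_single s (fun t _ hts => ?_) fun h => absurd (Finset.mem_univ _) h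
        by_contra hne
        have h5 : q t ≠ 0 := by
          intro h6
          exact hne (by rw [h6, zero_smul])
        exact hts (hlam ((hq' t h5).trans (hq' s hs).symm))
      have hs' : s ∈ S := by
        rw [hSmem]
        have h5 : P s = (q s)⁻¹ • x := by rw [hx4, smul_smul, inv_mul_cancel₀ hs, one_smul]
        rw [h5]
        exact Submodule.smul_mem _ _ hx1
      rw [hx4]
      exact Submodule.smul_mem _ _ (Submodule.subset_span ⟨s, by exact_mod_cast hs', rfl⟩)
    · push Not at h0
      have hx4 : x = 0 := by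
        rw [hq]
        exact Finset.sum_eq_zero fun t _ => by rw [h0, zero_smul]
      rw [hx4]
      exact Submodule.zero_mem _
  have heq : UC i U = Submodule.span Ω (P '' (S : Set (Fin n))) := le_antisymm hle hge
  have hcard : S.card = finrank k U := by
    have h1 : finrank Ω (UC i U) = finrank k U := by
      rw [hcols, finrank_span_eq_card hind, Fintype.card_fin]
    have h2 : finrank Ω (Submodule.span Ω (P '' (S : Set (Fin n)))) = S.card := by
      have h3 : P '' (S : Set (Fin n)) = Set.range fun s : S => P s := by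
        ext v
        constructor
        · rintro ⟨s, hs, rfl⟩
          exact ⟨⟨s, by exact_mod_cast hs⟩, rfl⟩
        · rintro ⟨s, rfl⟩
          exact ⟨s, by exact_mod_cast s.2, rfl⟩
      have h4 := finrank_span_eq_card (hP.comp (fun s : S => (s : Fin n)) Subtype.val_injective)
      rw [Fintype.card_coe] at h4
      rw [h3]
      exact h4
    rw [← h1, ← h2, heq]
  refine ⟨S, hcard, fun s hs => (hSmem s).1 hs, hle, ?_⟩
  obtain ⟨e⟩ : Nonempty (Fin (finrank k U) ≃ S) := ⟨(Finset.equivFinOfCardEq hcard).symm⟩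
  have hEx : ∀ j, ∃ q : Fin (finrank k U) → Ω, ∑ l, q l • (fun t => i (B t l)) = P (e j) := by
    intro j
    have h1 : P (e j) ∈ UC i U := (hSmem _).1 (e j).2
    rw [hcols] at h1
    exact (Submodule.mem_span_range_iff_exists_fun Ω).1 h1
  choose q hq using hEx
  let E : Matrix (Fin (finrank k U)) (Fin (finrank k U)) Ω := fun l j => q j l
  let PS : Matrix (Fin n) (Fin (finrank k U)) Ω := fun t j => P (e j) t
  have hPS : PS = B.map i * E := by
    ext t j
    rw [Matrix.mul_apply]
    change P (e j) t = _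
    rw [← hq j, Finset.sum_apply]
    refine Finset.sum_congr rfl fun l _ => ?_
    rw [Matrix.map_apply, Pi.smul_apply, smul_eq_mul, mul_comm]
  have hLi : (L.map i) * (B.map i) = 1 := by
    rw [← Matrix.map_mul, hL, Matrix.map_one i (map_zero i) (map_one i)]
  have hMPS : M.map i * PS = PS * Matrix.diagonal fun j => lam (e j) := by
    ext t j
    rw [Matrix.mul_diagonal]
    have h1 := congrFun (hev (e j)) t
    rw [Pi.smul_apply, smul_eq_mul, mul_comm] at h1
    exact h1
  have hCE : C.map i * E = E * Matrix.diagonal fun j => lam (e j) := by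
    have h1 : B.map i * (C.map i * E) = B.map i * (E * Matrix.diagonal fun j => lam (e j)) := by
      rw [← Matrix.mul_assoc, ← Matrix.map_mul, ← hC1, Matrix.map_mul, Matrix.mul_assoc, ← hPS,
        hMPS, hPS, Matrix.mul_assoc]
    have h2 := congrArg (fun Z => L.map i * Z) h1
    simpa only [← Matrix.mul_assoc, hLi, Matrix.one_mul] using h2
  have hEdet : E.det ≠ 0 := by
    have h1 : Function.Injective E.mulVec := by
      intro v w hvw
      have h2 : PS.mulVec v = PS.mulVec w := by
        rw [hPS, ← Matrix.mulVec_mulVec, ← Matrix.mulVec_mulVec, hvw]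
      have h3 : LinearIndependent Ω fun j t => PS t j :=
        hP.comp (fun j => ((e j : S) : Fin n)) (Subtype.val_injective.comp e.injective)
      exact Matrix.mulVec_injective_iff.2 h3 h2
    have h2 : IsUnit E := Matrix.mulVec_injective_iff_isUnit.1 h1
    exact ((Matrix.isUnit_iff_isUnit_det _).1 h2).ne_zero
  have h1 := congrArg Matrix.det hCE
  rw [Matrix.det_mul, Matrix.det_mul, Matrix.det_diagonal, mul_comm] at h1
  have h2 : (C.map i).det = ∏ j, lam (e j) := mul_left_cancel₀ hEdet h1
  have h3 : (C.map i).det = i C.det := (RingHom.map_det i _).symm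
  rw [← hC2, ← h3, h2]
  rw [← Finset.prod_coe_sort S lam]
  exact (Equiv.prod_comp e fun s : S => lam s).symm

end eig

end Pool.Agent.H853.G2
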