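import Pool.Agent.H853.G2.Wts

/-!
# The eigenvectors of a generic automorphism
-/

set_option autoImplicit false
set_option linter.unusedSectionVars false

namespace Pool.Agent.H853.G2

open Module

variable {K : Type*} [Field K] {E : Type*} [AddCommGroup E] [Module K E]
  {B : E →ₗ[K] E →ₗ[K] K} {m : E →ₗ[K] E →ₗ[K] E} {F : E →ₗ[K] E} {P : Basis (Fin 7) K E}
  {lam : Fin 7 → K}

theorem exists_lab (h2 : (2 : K) ≠ 0) (hc : IsCrossB B m) (hnd : ∀ x, (∀ y, B x y = 0) → x = 0)
    (heig : ∀ s, F (P s) = lam s • P s) (haut : ∀ x y, F (m x y) = m (F x) (F y))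
    (hform : ∀ x y, B (F x) (F y) = B x y) (hg : Gen lam) :
    ∃ (opp : Fin 7 → Fin 7) (s₀ : Fin 7), Lab B m F P lam opp s₀ := by
  have hinj : Function.Injective lam := fun s t hst =>
    hg.tf 1 one_pos s t (by rw [pow_one, pow_one, hst])
  have hB : ∀ s t, B (P s) (P t) ≠ 0 → lam s * lam t = 1 := by
    intro s t hst
    have h1 := hform (P s) (P t)
    rw [heig, heig, map_smul, map_smul, LinearMap.smul_apply, smul_eq_mul, smul_eq_mul] at h1
    have h2 : (lam s * lam t - 1) * B (P s) (P t) = 0 := by linear_combination h1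
    exact sub_eq_zero.1 ((mul_eq_zero.1 h2).resolve_right hst)
  have hex : ∀ s, ∃ t, B (P s) (P t) ≠ 0 := by
    intro s
    by_contra hcon
    push Not at hcon
    apply P.ne_zero s
    apply hnd
    intro y
    rw [← P.sum_repr y, map_sum]
    exact Finset.sum_eq_zero fun t _ => by rw [map_smul, hcon, smul_zero]
  choose opp hopp using hex
  have hmul : ∀ s, lam s * lam (opp s) = 1 := fun s => hB s _ (hopp s)
  have hne : ∀ s, lam s ≠ 0 := fun s h0 => by
    have h1 := hmul s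
    rw [h0, zero_mul] at h1
    exact zero_ne_one h1
  have hoo : ∀ s, opp (opp s) = s := by
    intro s
    apply hinj
    apply mul_left_cancel₀ (hne (opp s))
    rw [hmul, mul_comm, hmul]
  have huniq : ∀ s t, t ≠ opp s → B (P s) (P t) = 0 := by
    intro s t hst
    by_contra h0
    exact hst (hinj (mul_left_cancel₀ (hne s) ((hB s t h0).trans (hmul s).symm)))
  let e : Equiv.Perm (Fin 7) := ⟨opp, opp, hoo, hoo⟩
  have he : e ^ 2 ^ 1 = 1 := by
    ext s
    rw [pow_one, pow_two]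
    change ((opp (opp s) : Fin 7) : ℕ) = (s : ℕ)
    rw [hoo]
  have : Fact (Nat.Prime 2) := ⟨Nat.prime_two⟩
  have h7 : ¬2 ∣ Fintype.card (Fin 7) := by rw [Fintype.card_fin]; norm_num
  obtain ⟨s₀, hs₀⟩ := Equiv.Perm.exists_fixed_point_of_prime h7 he
  have hs₀' : opp s₀ = s₀ := hs₀
  refine ⟨opp, s₀, h2, hc, hnd, heig, hinj, hmul, ?_, haut, hform⟩
  obtain ⟨s, hs⟩ : ∃ s : Fin 7, s ≠ s₀ := exists_ne s₀
  have hsq : lam s₀ ^ 2 = 1 := by
    have h1 := hmul s₀
    rw [hs₀'] at h1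
    rw [pow_two, h1]
  have h00 : B (P s₀) (P s₀) ≠ 0 := by
    have h1 := hopp s₀
    rwa [hs₀'] at h1
  have h0s : B (P s₀) (P s) = 0 := huniq _ _ (by rw [hs₀']; exact hs)
  have hms : m (P s₀) (P s) ≠ 0 := by
    intro h0
    have h1 := hc.twice (P s₀) (P s)
    rw [h0, map_zero, h0s, zero_smul, zero_sub, eq_comm, neg_eq_zero] at h1
    exact (smul_ne_zero h00 (P.ne_zero s)) h1
  have hF : F (m (P s₀) (P s)) = (lam s₀ * lam s) • m (P s₀) (P s) := by
    rw [haut, heig, heig, map_smul, map_smul, LinearMap.smul_apply, smul_smul, mul_comm]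
  obtain ⟨t, ht⟩ := exists_repr (P := P) hms
  have h1 := eig_repr heig hF ht
  have h3 : t = s := hg.tf 2 (by norm_num) t s (by rw [← h1, mul_pow, hsq, one_mul])
  rw [h3] at h1
  exact mul_right_cancel₀ (hne s) (by rw [h1, one_mul])

end Pool.Agent.H853.G2
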