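import Pool.Agent.H853.G2.Gen

/-!
# Extension of scalars of a cross product
-/

set_option autoImplicit false
set_option linter.unusedSectionVars false

namespace Pool.Agent.H853.G2

open Module

section ext

variable {k Ω : Type*} [Field k] [Field Ω] {i : k →+* Ω} {n : ℕ}

theorem ext_single {W : Type*} [AddCommGroup W] [Module Ω W] {f g : (Fin n → Ω) →ₗ[Ω] W}
    (h : ∀ x : Fin n → k, f (fun s => i (x s)) = g (fun s => i (x s))) : f = g := by
  apply LinearMap.pi_ext'
  intro s
  apply LinearMap.ext_ring
  change f (Pi.single s 1) = g (Pi.single s 1)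
  rw [← map_single i s]
  exact h _

variable {J : Matrix (Fin n) (Fin n) k} {c : Fin n → Fin n → Fin n → k}

/-- **The extension of a cross product is a cross product.** -/
theorem isCross_map (h2 : (2 : Ω) ≠ 0) [CharZero Ω] (h : IsCross J c) :
    IsCross (J.map i) (mapC i c) := by
  have hc := isCrossB_of h
  set B := formB J
  set m := crossB c
  set B' := formB (J.map i) with hB'
  set m' := crossB (mapC i c) with hm'
  have hBi : ∀ x y : Fin n → k, B' (fun s => i (x s)) (fun s => i (y s)) = i (B x y) :=
    fun x y => form_map i J x y
  have hmi : ∀ x y : Fin n → k, m' (fun s => i (x s)) (fun s => i (y s)) =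
      fun s => i (m x y s) := fun x y => cross_map i c x y
  -- the trilinear identity
  have tri : ∀ x z y : Fin n → Ω, m' x (m' z y) + m' z (m' x y) =
      B' x y • z + B' z y • x - (2 * B' x z) • y := by
    have h0 : ∀ x z y : Fin n → k, m' (fun s => i (x s)) (m' (fun s => i (z s)) (fun s => i (y s))) +
        m' (fun s => i (z s)) (m' (fun s => i (x s)) (fun s => i (y s))) =
        B' (fun s => i (x s)) (fun s => i (y s)) • (fun s => i (z s)) +
        B' (fun s => i (z s)) (fun s => i (y s)) • (fun s => i (x s)) -
        (2 * B' (fun s => i (x s)) (fun s => i (z s))) • (fun s => i (y s)) := by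
      intro x z y
      rw [hmi, hmi, hmi, hmi, hBi, hBi, hBi]
      funext s
      have h3 := congrFun (hc.twice2 x z y) s
      have h4 := congrArg i h3
      simp only [Pi.add_apply, Pi.sub_apply, Pi.smul_apply, smul_eq_mul, map_add, map_sub,
        map_mul, map_ofNat] at h4 ⊢
      exact h4
    have h1 : ∀ x z : Fin n → k, ∀ y : Fin n → Ω, m' (fun s => i (x s)) (m' (fun s => i (z s)) y) +
        m' (fun s => i (z s)) (m' (fun s => i (x s)) y) =
        B' (fun s => i (x s)) y • (fun s => i (z s)) + B' (fun s => i (z s)) y • (fun s => i (x s)) -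
        (2 * B' (fun s => i (x s)) (fun s => i (z s))) • y := by
      intro x z y
      have h3 := ext_single (i := i)
        (f := m' (fun s => i (x s)) ∘ₗ m' (fun s => i (z s)) +
          m' (fun s => i (z s)) ∘ₗ m' (fun s => i (x s)))
        (g := (B' (fun s => i (x s))).smulRight (fun s => i (z s)) +
          (B' (fun s => i (z s))).smulRight (fun s => i (x s)) -
          (2 * B' (fun s => i (x s)) (fun s => i (z s))) • LinearMap.id) (fun y => h0 x z y)
      exact LinearMap.congr_fun h3 y
    have h2 : ∀ x : Fin n → k, ∀ z y : Fin n → Ω, m' (fun s => i (x s)) (m' z y) +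
        m' z (m' (fun s => i (x s)) y) =
        B' (fun s => i (x s)) y • z + B' z y • (fun s => i (x s)) -
        (2 * B' (fun s => i (x s)) z) • y := by
      intro x z y
      have h3 := ext_single (i := i)
        (f := m' (fun s => i (x s)) ∘ₗ m'.flip y + m'.flip (m' (fun s => i (x s)) y))
        (g := B' (fun s => i (x s)) y • LinearMap.id + (B'.flip y).smulRight (fun s => i (x s)) -
          (2 : Ω) • (B' (fun s => i (x s))).smulRight y) (fun z => by
            have h4 := h1 x z y
            simp only [LinearMap.add_apply, LinearMap.comp_apply, LinearMap.flip_apply,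
              LinearMap.sub_apply, LinearMap.smul_apply, LinearMap.id_apply,
              LinearMap.smulRight_apply, smul_smul]
            exact h4)
      have h5 := LinearMap.congr_fun h3 z
      simp only [LinearMap.add_apply, LinearMap.comp_apply, LinearMap.flip_apply,
              LinearMap.sub_apply, LinearMap.smul_apply, LinearMap.id_apply,
              LinearMap.smulRight_apply, smul_smul] at h5
      exact h5
    intro x z y
    have h3 := ext_single (i := i)
      (f := m'.flip (m' z y) + m' z ∘ₗ m'.flip y)
      (g := (B'.flip y).smulRight z + B' z y • LinearMap.id -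
        (2 : Ω) • (B'.flip z).smulRight y) (fun x => by
          have h4 := h2 x z y
          simp only [LinearMap.add_apply, LinearMap.comp_apply, LinearMap.flip_apply,
            LinearMap.sub_apply, LinearMap.smul_apply, LinearMap.id_apply,
            LinearMap.smulRight_apply, smul_smul]
          exact h4)
    have h5 := LinearMap.congr_fun h3 x
    simp only [LinearMap.add_apply, LinearMap.comp_apply, LinearMap.flip_apply,
            LinearMap.sub_apply, LinearMap.smul_apply, LinearMap.id_apply,
            LinearMap.smulRight_apply, smul_smul] at h5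
    exact h5
  have orth : ∀ x y z : Fin n → Ω, B' (m' x y) z + B' (m' z y) x = 0 := by
    have h0 : ∀ x y z : Fin n → k, B' (m' (fun s => i (x s)) (fun s => i (y s))) (fun s => i (z s)) +
        B' (m' (fun s => i (z s)) (fun s => i (y s))) (fun s => i (x s)) = 0 := by
      intro x y z
      rw [hmi, hmi, hBi, hBi, ← map_add, hc.orth3 x y z, neg_add_cancel, map_zero]
    have h1 : ∀ x y : Fin n → k, ∀ z : Fin n → Ω,
        B' (m' (fun s => i (x s)) (fun s => i (y s))) z +
        B' (m' z (fun s => i (y s))) (fun s => i (x s)) = 0 := by
      intro x y z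
      have h3 := ext_single (i := i) (f := B' (m' (fun s => i (x s)) (fun s => i (y s))) +
        (B'.flip (fun s => i (x s))) ∘ₗ (m'.flip (fun s => i (y s)))) (g := 0) (fun z => h0 x y z)
      exact LinearMap.congr_fun h3 z
    have h2 : ∀ x : Fin n → k, ∀ y z : Fin n → Ω,
        B' (m' (fun s => i (x s)) y) z + B' (m' z y) (fun s => i (x s)) = 0 := by
      intro x y z
      have h3 := ext_single (i := i) (f := (B'.flip z) ∘ₗ (m' (fun s => i (x s))) +
        (B'.flip (fun s => i (x s))) ∘ₗ (m' z)) (g := 0) (fun y => h1 x y z)
      exact LinearMap.congr_fun h3 y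
    intro x y z
    have h3 := ext_single (i := i) (f := (B'.flip z) ∘ₗ (m'.flip y) + B' (m' z y)) (g := 0)
      (fun x => h2 x y z)
    exact LinearMap.congr_fun h3 x
  refine ⟨?_, fun s t => ?_, fun x => cross_map_self i h.alt x, fun x y => ?_, fun x y => ?_⟩
  · have h1 : (J.map i).det = i J.det := (RingHom.map_det i _).symm
    rw [h1]
    exact h.nondeg.map i
  · rw [Matrix.map_apply, Matrix.map_apply, h.symm]
  · have h3 := orth x y x
    rw [← two_mul] at h3
    exact (mul_eq_zero.1 h3).resolve_left h2
  · have h3 := tri x x y
    have h4 : (2 : Ω) • (m' x (m' x y)) = (2 : Ω) • (B' x y • x - B' x x • y) := by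
      rw [two_smul, h3]
      module
    have h5 := congrArg (fun v => (2 : Ω)⁻¹ • v) h4
    simp only [smul_smul, inv_mul_cancel₀ h2, one_smul] at h5
    exact h5

end ext

end Pool.Agent.H853.G2
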