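import Pool.Graph.R_seed8.W522.C.C8
import Pool.Graph.R_seed8.W522.C.C7

/-!
# Independent fields with given automorphisms
-/

set_option autoImplicit false
set_option linter.unusedSectionVars false

namespace Pool.Agent.H853.G2

open Finset IntermediateField Pool.Agent.W522.C

section Rec

variable {F K : Type*} [Field F] [Field K] [Algebra F K] {J : Type*}
  {L : J → IntermediateField F K} (τ : ∀ j, Gal(L j/F))

/-- The automorphism `g` of `M` is given by `τ j` on `L j`. -/
def IsOnV {M : IntermediateField F K} (g : Gal(M/F)) (j : J) : Prop :=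
  L j ≤ M ∧ ∀ (x : M) (hx : (x : K) ∈ L j), ((g x : M) : K) = (τ j ⟨x, hx⟩ : L j)

open scoped Classical in
/-- Automorphisms which are given by `τ j` on no `L j`. -/
noncomputable def badV (M : IntermediateField F K) [FiniteDimensional F M] : Finset Gal(M/F) :=
  univ.filter fun g => ∀ j, ¬ IsOnV τ g j

variable {τ}

theorem exists_goodV {M : IntermediateField F K} [FiniteDimensional F M] :
    ∃ good : Finset Gal(M/F), (∀ g, g ∈ good ↔ ∃ j, IsOnV τ g j) ∧
      good.card + (badV τ M).card = gsz M := by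
  classical
  refine ⟨univ.filter fun g => ∃ j, IsOnV τ g j, fun g => by simp, ?_⟩
  unfold gsz badV
  rw [Nat.card_eq_fintype_card, ← Finset.card_univ,
    ← Finset.card_filter_add_card_filter_not (s := (univ : Finset Gal(M/F)))
      (fun g => ∃ j, IsOnV τ g j)]
  congr 2
  ext g
  simp only [mem_filter, mem_univ, true_and, not_exists]

theorem badV_step {M M' : IntermediateField F K} [FiniteDimensional F M] [IsGalois F M]
    [FiniteDimensional F M'] [IsGalois F M'] [∀ j, FiniteDimensional F (L j)]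
    [∀ j, IsGalois F (L j)] (j : J) (hMM' : M ≤ M') (hPM' : L j ≤ M')
    (hsz : gsz M' ≤ gsz M * gsz (L j)) (hdisj : L j ⊓ M ≤ ⊥) :
    ((badV τ M').card : ℝ) / gsz M' ≤
      (1 - 1 / (gsz (L j) : ℝ)) * ((badV τ M).card / gsz M) := by
  classical
  obtain ⟨ρ, hρ, h1⟩ := exists_res2 hMM'
  -- the fibres
  set k : ℕ := (univ.filter fun x => ρ x = 1).card with hk
  have hfib : ∀ g, (univ.filter fun x => ρ x = g).card * gsz M = gsz M' := by
    intro g
    have h2 := card_fiber ρ hρ g
    unfold gsz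
    rw [Nat.card_eq_fintype_card, Nat.card_eq_fintype_card, ← h2]
  have hfibk : ∀ g, (univ.filter fun x => ρ x = g).card = k := fun g =>
    Nat.eq_of_mul_eq_mul_right (gsz_pos M) ((hfib g).trans (hfib 1).symm)
  have hkM : k * gsz M = gsz M' := hfib 1
  have hk0 : 0 < k := by
    rcases Nat.eq_zero_or_pos k with h2 | h2
    · rw [h2, zero_mul] at hkM
      exact absurd hkM.symm (gsz_pos M').ne'
    · exact h2
  have hkP : k ≤ gsz (L j) := by
    rw [← hkM, mul_comm] at hsz
    exact Nat.le_of_mul_le_mul_left hsz (gsz_pos M)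
  -- elements of the fibre over a given element
  have hglue : ∀ g : Gal(M/F), ∃ x, ρ x = g ∧ IsOnV τ x j := by
    intro g
    obtain ⟨x, h2, h3⟩ := exists_glue2 hPM' hMM' g (τ j) (by
      intro x y hxy
      have h4 : (x : K) ∈ (⊥ : IntermediateField F K) :=
        hdisj ⟨by rw [hxy]; exact y.2, x.2⟩
      obtain ⟨a, ha⟩ := IntermediateField.mem_bot.1 h4
      have hx : x = algebraMap F M a := Subtype.ext ha.symm
      have hy : y = algebraMap F (L j) a := Subtype.ext (hxy.symm.trans ha.symm)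
      rw [hx, hy, AlgEquiv.commutes, AlgEquiv.commutes]
      rfl)
    refine ⟨x, ?_, hPM', ?_⟩
    · apply AlgEquiv.ext
      intro y
      apply Subtype.ext
      rw [h1 x y ⟨y, hMM' y.2⟩ rfl]
      exact h2 y _ rfl
    · intro y hy
      rw [h3 ⟨y, hy⟩ y rfl]
  have hbound : (badV τ M').card ≤ (badV τ M).card * (k - 1) := by
    have h2 : badV τ M' ⊆ (badV τ M).biUnion fun g =>
        (univ.filter fun x => ρ x = g).filter fun x => ¬ IsOnV τ x j := by
      intro x hx
      unfold badV at hx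
      obtain ⟨-, hxP⟩ := mem_filter.1 hx
      rw [mem_biUnion]
      refine ⟨ρ x, ?_, ?_⟩
      · unfold badV
        rw [mem_filter]
        refine ⟨mem_univ _, fun i hi => hxP i ?_⟩
        refine ⟨hi.1.trans hMM', fun y hy => ?_⟩
        have h4 := hi.2 ⟨y, hi.1 hy⟩ hy
        rw [h1 x _ y rfl] at h4
        exact h4
      · rw [mem_filter, mem_filter]
        exact ⟨⟨mem_univ _, rfl⟩, hxP j⟩
    refine (card_le_card h2).trans (card_biUnion_le_card_mul _ _ _ ?_)
    intro g hg
    obtain ⟨x, hx1, hx2⟩ := hglue g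
    have h3 : ((univ.filter fun x => ρ x = g).filter fun x => ¬ IsOnV τ x j) ⊂
        (univ.filter fun x => ρ x = g) := by
      rw [Finset.ssubset_iff_of_subset (filter_subset _ _)]
      refine ⟨x, mem_filter.2 ⟨mem_univ _, hx1⟩, fun h4 => ?_⟩
      exact (mem_filter.1 h4).2 hx2
    have h4 := card_lt_card h3
    rw [hfibk g] at h4
    omega
  have hkR : (0 : ℝ) < k := by exact_mod_cast hk0
  have hMR : (0 : ℝ) < gsz M := by exact_mod_cast gsz_pos M
  have hPR : (0 : ℝ) < gsz (L j) := by exact_mod_cast gsz_pos (L j)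
  have h5 : (gsz M' : ℝ) = k * gsz M := by rw [← hkM]; push_cast; ring
  have h6 : ((badV τ M').card : ℝ) ≤ (badV τ M).card * (k - 1) := by
    have h7 : ((k - 1 : ℕ) : ℝ) = (k : ℝ) - 1 := by
      rw [Nat.cast_sub hk0, Nat.cast_one]
    rw [← h7]
    exact_mod_cast hbound
  rw [h5, div_le_iff₀ (mul_pos hkR hMR)]
  refine h6.trans ?_
  have h8 : (1 - 1 / (gsz (L j) : ℝ)) * ((badV τ M).card / gsz M) * (k * gsz M) =
      (badV τ M).card * (k - k / gsz (L j)) := by
    field_simp
  rw [h8]
  apply mul_le_mul_of_nonneg_left _ (Nat.cast_nonneg _)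
  have h9 : (k : ℝ) / gsz (L j) ≤ 1 := by
    rw [div_le_one hPR]
    exact_mod_cast hkP
  linarith

/-- There are finite Galois extensions for which the proportion of bad elements is arbitrarily
small. -/
theorem exists_smallV [∀ j, FiniteDimensional F (L j)] [∀ j, IsGalois F (L j)] {B : ℕ}
    (hB : ∀ j, gsz (L j) ≤ B)
    (hdisj : ∀ (M : IntermediateField F K), FiniteDimensional F M → ∃ j, L j ⊓ M ≤ ⊥) (N : ℕ) :
    ∃ (M : IntermediateField F K) (_ : FiniteDimensional F M) (_ : IsGalois F M),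
      ((badV τ M).card : ℝ) / gsz M ≤ (1 - 1 / (B : ℝ)) ^ N := by
  induction N with
  | zero =>
    refine ⟨⊥, inferInstance, inferInstance, ?_⟩
    rw [pow_zero, div_le_one (by exact_mod_cast gsz_pos (⊥ : IntermediateField F K))]
    unfold gsz
    rw [Nat.card_eq_fintype_card]
    exact_mod_cast card_le_univ _
  | succ N ih =>
    obtain ⟨M, i1, i2, hM⟩ := ih
    obtain ⟨j, hj⟩ := hdisj M i1
    refine ⟨M ⊔ L j, inferInstance, inferInstance, ?_⟩
    refine (badV_step j le_sup_left le_sup_right gsz_sup_le hj).trans ?_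
    have h1 : (0 : ℝ) < gsz (L j) := by exact_mod_cast gsz_pos (L j)
    have h2 : (gsz (L j) : ℝ) ≤ B := by exact_mod_cast hB j
    have h3 : 1 / (B : ℝ) ≤ 1 / gsz (L j) := one_div_le_one_div_of_le h1 h2
    have h4 : (0 : ℝ) ≤ ((badV τ M).card : ℝ) / gsz M := by positivity
    have h5 : (0 : ℝ) ≤ 1 - 1 / (B : ℝ) := by
      have h6 : (1 : ℝ) ≤ B := by
        have : 1 ≤ gsz (L j) := gsz_pos (L j)
        exact_mod_cast this.trans (hB j)
      have : 1 / (B : ℝ) ≤ 1 := by
        rw [div_le_one (by linarith)]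
        exact h6
      linarith
    calc (1 - 1 / (gsz (L j) : ℝ)) * ((badV τ M).card / gsz M)
        ≤ (1 - 1 / (B : ℝ)) * ((badV τ M).card / gsz M) :=
          mul_le_mul_of_nonneg_right (by linarith) h4
      _ ≤ (1 - 1 / (B : ℝ)) * (1 - 1 / (B : ℝ)) ^ N := mul_le_mul_of_nonneg_left hM h5
      _ = (1 - 1 / (B : ℝ)) ^ (N + 1) := by ring

end Rec

end Pool.Agent.H853.G2
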