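import Pool.Agent.H853.G2.Abs
import Pool.Graph.R_pool_sql_team_seeded_35f281b4.K7.H9.HT.Main
import Pool.Graph.R_pool_sql_team_seeded_35f281b4.K7.H9.AST.Main

/-!
# Representations with values in `G₂` and with different Hodge-Tate weights are semisimple
-/

set_option autoImplicit false
set_option linter.unusedSectionVars false

open NumberField IsDedekindDomain Module Matrix

namespace Pool.Agent.H853.G2

open Pool.Agent.K7.H9.SS Pool.Agent.K7.H9.HT
open Pool.Agent.W569.FM Pool.Agent.W571.FM Pool.Agent.Y115.Chi Pool.Agent.Y115.T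
  Pool.Agent.Y115.R Pool.Agent.Y115.CQ

section cross

variable {R : Type*} [CommRing R] {n : ℕ}

/-- The cross product as a bilinear map. -/
def crossB (c : Fin n → Fin n → Fin n → R) :
    (Fin n → R) →ₗ[R] (Fin n → R) →ₗ[R] (Fin n → R) :=
  LinearMap.mk₂ R (cross c)
    (fun x x' y => by
      funext k
      simp only [cross, Pi.add_apply, mul_add, add_mul, Finset.sum_add_distrib])
    (fun a x y => by
      funext k
      simp only [cross, Pi.smul_apply, smul_eq_mul, Finset.mul_sum]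
      refine Finset.sum_congr rfl fun i _ => Finset.sum_congr rfl fun j _ => ?_
      ring)
    (fun x y y' => by
      funext k
      simp only [cross, Pi.add_apply, mul_add, Finset.sum_add_distrib])
    (fun a x y => by
      funext k
      simp only [cross, Pi.smul_apply, smul_eq_mul, Finset.mul_sum]
      refine Finset.sum_congr rfl fun i _ => Finset.sum_congr rfl fun j _ => ?_
      ring)

theorem crossB_apply (c : Fin n → Fin n → Fin n → R) (x y : Fin n → R) :
    crossB c x y = cross c x y := rfl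

/-- The bilinear form. -/
def formB (J : Matrix (Fin n) (Fin n) R) : (Fin n → R) →ₗ[R] (Fin n → R) →ₗ[R] R :=
  LinearMap.mk₂ R (form J)
    (fun x x' y => by
      simp only [form, Pi.add_apply, mul_add, add_mul, Finset.sum_add_distrib])
    (fun a x y => by
      simp only [form, Pi.smul_apply, smul_eq_mul, Finset.mul_sum]
      refine Finset.sum_congr rfl fun i _ => Finset.sum_congr rfl fun j _ => ?_
      ring)
    (fun x y y' => by
      simp only [form, Pi.add_apply, mul_add, Finset.sum_add_distrib])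
    (fun a x y => by
      simp only [form, Pi.smul_apply, smul_eq_mul, Finset.mul_sum]
      refine Finset.sum_congr rfl fun i _ => Finset.sum_congr rfl fun j _ => ?_
      ring)

theorem formB_apply (J : Matrix (Fin n) (Fin n) R) (x y : Fin n → R) :
    formB J x y = form J x y := rfl

theorem form_eq (J : Matrix (Fin n) (Fin n) R) (x y : Fin n → R) : form J x y = x ⬝ᵥ J *ᵥ y := by
  simp only [form, dotProduct, mulVec, Finset.mul_sum]
  refine Finset.sum_congr rfl fun i _ => Finset.sum_congr rfl fun j _ => ?_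
  ring

/-- The extension of scalars of the structure constants. -/
def mapC {S : Type*} [CommRing S] (i : R →+* S) (c : Fin n → Fin n → Fin n → R) :
    Fin n → Fin n → Fin n → S := fun s t u => i (c s t u)

theorem cross_map {S : Type*} [CommRing S] (i : R →+* S) (c : Fin n → Fin n → Fin n → R)
    (x y : Fin n → R) : cross (mapC i c) (fun s => i (x s)) (fun s => i (y s)) =
      fun s => i (cross c x y s) := by
  funext k
  simp only [cross, mapC, map_sum, map_mul]

theorem form_map {S : Type*} [CommRing S] (i : R →+* S) (J : Matrix (Fin n) (Fin n) R)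
    (x y : Fin n → R) : form (J.map i) (fun s => i (x s)) (fun s => i (y s)) = i (form J x y) := by
  simp only [form, Matrix.map_apply, map_sum, map_mul]

theorem cross_single (c : Fin n → Fin n → Fin n → R) (s t u : Fin n) :
    cross c (Pi.single s 1) (Pi.single t 1) u = c s t u := by
  simp only [cross]
  rw [Finset.sum_eq_single s, Finset.sum_eq_single t]
  · simp
  · intro j _ hj
    simp [Pi.single_eq_of_ne hj]
  · intro h
    exact absurd (Finset.mem_univ _) h
  · intro i _ hi
    simp [Pi.single_eq_of_ne hi]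
  · intro h
    exact absurd (Finset.mem_univ _) h

/-- The extended product is alternating. -/
theorem cross_map_self {S : Type*} [Field S] [CharZero S] (i : R →+* S)
    {c : Fin n → Fin n → Fin n → R}
    (h : ∀ x, cross c x x = 0) (x : Fin n → S) : cross (mapC i c) x x = 0 := by
  have h1 : ∀ s u, c s s u = 0 := by
    intro s u
    rw [← cross_single c, h]
    rfl
  have h2 : ∀ s t u, c s t u = -c t s u := by
    intro s t u
    have h3 := congrFun (h (Pi.single s 1 + Pi.single t 1)) u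
    have h4 : cross c (Pi.single s 1 + Pi.single t 1) (Pi.single s 1 + Pi.single t 1) u =
        c s s u + c t s u + (c s t u + c t t u) := by
      rw [← crossB_apply]
      simp only [map_add, LinearMap.add_apply, Pi.add_apply, crossB_apply, cross_single]
    rw [h4, h1, h1, zero_add, add_zero] at h3
    exact eq_neg_of_add_eq_zero_right h3
  funext u
  have h5 : cross (mapC i c) x x u = -cross (mapC i c) x x u := by
    conv_lhs => rw [cross]
    rw [Finset.sum_comm]
    rw [cross, ← Finset.sum_neg_distrib]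
    refine Finset.sum_congr rfl fun s _ => ?_
    rw [← Finset.sum_neg_distrib]
    refine Finset.sum_congr rfl fun t _ => ?_
    simp only [mapC]
    rw [h2 t s u, map_neg]
    ring
  exact self_eq_neg.1 h5

end cross

section inv

variable {k : Type*} [Field k] {V : Type*} [AddCommGroup V] [Module k V]
  {B : V →ₗ[k] V →ₗ[k] k} {m : V →ₗ[k] V →ₗ[k] V}

/-- Automorphisms of the product preserve the form. -/
theorem form_inv (h2 : (2 : k) ≠ 0) (h : IsCrossB B m) (hdim : ∀ x : V, ∃ y, ∀ c : k, y ≠ c • x)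
    {g : V →ₗ[k] V} (hg : Function.Injective g) (hgm : ∀ x y, m (g x) (g y) = g (m x y))
    (x y : V) : B (g x) (g y) = B x y := by
  have h1 : ∀ x, B (g x) (g x) = B x x := by
    intro x
    by_contra hne
    obtain ⟨y, hy⟩ := hdim x
    have h3 : g (m x (m x y)) = m (g x) (m (g x) (g y)) := by rw [hgm, hgm]
    rw [h.twice, h.twice, map_sub, map_smul, map_smul] at h3
    have h4 : (B (g x) (g x) - B x x) • g y = (B (g x) (g y) - B x y) • g x := by
      rw [sub_smul, sub_smul]
      have h5 : B (g x) (g x) • g y - B x x • g y - (B (g x) (g y) • g x - B x y • g x) =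
          (B x y • g x - B x x • g y) - (B (g x) (g y) • g x - B (g x) (g x) • g y) := by abel
      rw [h3, sub_self] at h5
      exact sub_eq_zero.1 h5
    have h5 : g y = g (((B (g x) (g x) - B x x)⁻¹ * (B (g x) (g y) - B x y)) • x) := by
      rw [map_smul, mul_smul, ← h4, smul_smul, inv_mul_cancel₀ (sub_ne_zero.2 hne), one_smul]
    exact hy _ (hg h5)
  have h3 := h1 (x + y)
  simp only [map_add, LinearMap.add_apply, h1] at h3
  rw [h.symm (g y) (g x), h.symm y x] at h3
  have h4 : 2 * B (g x) (g y) = 2 * B x y := by linear_combination h3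
  exact mul_left_cancel₀ h2 h4

theorem isCrossB_of {R : Type*} [Field R] {n : ℕ} {J : Matrix (Fin n) (Fin n) R}
    {c : Fin n → Fin n → Fin n → R} (h : IsCross J c) : IsCrossB (formB J) (crossB c) where
  symm x y := by
    rw [formB_apply, formB_apply]
    simp only [form]
    rw [Finset.sum_comm]
    refine Finset.sum_congr rfl fun s _ => Finset.sum_congr rfl fun t _ => ?_
    rw [h.symm]
    ring
  alt x := h.alt x
  orth x y := h.orth x y
  twice x y := h.twice x y

end inv

section gen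

variable {k Ω : Type*} [Field k] [Field Ω] (i : k →+* Ω) {n d : ℕ}

theorem span_cols {U : Submodule k (Fin n → k)} (hd : finrank k U = d)
    {B : Matrix (Fin n) (Fin d) k} (hBU : ∀ l, (fun t => B t l) ∈ U)
    {L : Matrix (Fin d) (Fin n) k} (hL : L * B = 1) :
    Submodule.span k (Set.range fun (l : Fin d) t => B t l) = U := by
  apply Submodule.eq_of_le_of_finrank_le
  · rw [Submodule.span_le]
    rintro _ ⟨l, rfl⟩
    exact hBU l
  · have h4 : LinearIndependent k fun (l : Fin d) t => B t l := by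
      have h5 : Function.Injective B.mulVec := by
        intro v w hvw
        have h6 := congrArg (fun z => L.mulVec z) hvw
        simpa [Matrix.mulVec_mulVec, hL] using h6
      exact Matrix.mulVec_injective_iff.1 h5
    have h5 := finrank_span_eq_card h4
    rw [Fintype.card_fin] at h5
    rw [hd]
    exact h5.ge

theorem UC_le_cols {U : Submodule k (Fin n → k)} (hd : finrank k U = d)
    {B : Matrix (Fin n) (Fin d) k} (hBU : ∀ l, (fun t => B t l) ∈ U)
    {L : Matrix (Fin d) (Fin n) k} (hL : L * B = 1) :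
    UC i U ≤ Submodule.span Ω (Set.range fun (l : Fin d) t => i (B t l)) := by
  refine Submodule.span_le.2 ?_
  rintro _ ⟨y, hy, rfl⟩
  rw [SetLike.mem_coe, ← span_cols hd hBU hL] at hy
  change (fun s => i (y s)) ∈ Submodule.span Ω (Set.range fun (l : Fin d) t => i (B t l))
  refine Submodule.span_induction ?_ ?_ ?_ ?_ hy
  · rintro _ ⟨l, rfl⟩
    exact Submodule.subset_span ⟨l, rfl⟩
  · have h4 : (fun s => i ((0 : Fin n → k) s)) = 0 := by
      funext s
      exact map_zero i
    rw [h4]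
    exact Submodule.zero_mem _
  · intro v w _ _ hv hw
    have h4 : (fun s => i ((v + w) s)) = (fun s => i (v s)) + fun s => i (w s) := by
      funext s
      exact map_add i _ _
    rw [h4]
    exact Submodule.add_mem _ hv hw
  · intro c v _ hv
    have h4 : (fun s => i ((c • v) s)) = i c • fun s => i (v s) := by
      funext s
      exact map_mul i _ _
    rw [h4]
    exact Submodule.smul_mem _ _ hv

theorem S_of_Y {U : Submodule k (Fin n → k)} (hd : finrank k U = d)
    {B : Matrix (Fin n) (Fin d) k} (hBU : ∀ l, (fun t => B t l) ∈ U)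
    {L : Matrix (Fin d) (Fin n) k} (hL : L * B = 1)
    {P : Matrix (Fin n) (Fin n) Ω} (hPdet : P.det ≠ 0) {r : Fin d → Fin n}
    (hr : Function.Injective r) {Y : Matrix (Fin n) (Fin d) Ω} {E : Matrix (Fin d) (Fin d) Ω}
    (hPY : P * Y = B.map i * E) (hY0 : ∀ s j, s ≠ r j → Y s j = 0) (hY1 : ∀ j, Y (r j) j = 1) :
    (Finset.univ.image r).card = d ∧ (∀ s ∈ Finset.univ.image r, (fun t => P t s) ∈ UC i U) ∧
      UC i U ≤ Submodule.span Ω
        ((fun s t => P t s) '' ((Finset.univ.image r : Finset (Fin n)) : Set (Fin n))) := by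
  have hcol : ∀ j, (fun t => P t (r j)) = fun t => (P * Y) t j := by
    intro j
    funext t
    rw [Matrix.mul_apply, Finset.sum_eq_single (r j)]
    · rw [hY1, mul_one]
    · intro s _ hs
      rw [hY0 s j hs, mul_zero]
    · intro h0
      exact absurd (Finset.mem_univ _) h0
  have hmem : ∀ j, (fun t => P t (r j)) ∈ UC i U := by
    intro j
    rw [hcol j, hPY]
    have h1 : (fun t => (B.map i * E) t j) = ∑ l, E l j • fun t => i (B t l) := by
      funext t
      rw [Matrix.mul_apply, Finset.sum_apply]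
      refine Finset.sum_congr rfl fun l _ => ?_
      rw [Matrix.map_apply, Pi.smul_apply, smul_eq_mul, mul_comm]
    rw [h1]
    exact Submodule.sum_mem _ fun l _ => Submodule.smul_mem _ _ (mem_UC (hBU l))
  have hli : LinearIndependent Ω (fun s t => P t s) :=
    Matrix.linearIndependent_cols_iff_isUnit.2 ((Matrix.isUnit_iff_isUnit_det _).2
      (isUnit_iff_ne_zero.2 hPdet))
  refine ⟨?_, ?_, ?_⟩
  · rw [Finset.card_image_of_injective _ hr, Finset.card_univ, Fintype.card_fin]
  · intro s hs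
    obtain ⟨j, -, rfl⟩ := Finset.mem_image.1 hs
    exact hmem j
  · have hle : Submodule.span Ω
        ((fun s t => P t s) '' ((Finset.univ.image r : Finset (Fin n)) : Set (Fin n))) ≤
        UC i U := by
      rw [Submodule.span_le]
      rintro _ ⟨s, hs, rfl⟩
      obtain ⟨j, -, rfl⟩ := Finset.mem_image.1 (Finset.mem_coe.1 hs)
      exact hmem j
    refine (Submodule.eq_of_le_of_finrank_le hle ?_).ge
    have h2 : finrank Ω (UC i U) ≤ d := by
      refine (Submodule.finrank_mono (UC_le_cols i hd hBU hL)).trans ?_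
      have h3 := finrank_range_le_card (R := Ω) (fun (l : Fin d) t => i (B t l))
      rwa [Fintype.card_fin] at h3
    refine h2.trans ?_
    have h4 : ((fun s t => P t s) '' ((Finset.univ.image r : Finset (Fin n)) : Set (Fin n))) =
        Set.range fun j t => P t (r j) := by
      ext v
      constructor
      · rintro ⟨s, hs, rfl⟩
        obtain ⟨j, -, rfl⟩ := Finset.mem_image.1 (Finset.mem_coe.1 hs)
        exact ⟨j, rfl⟩
      · rintro ⟨j, rfl⟩
        exact ⟨r j, Finset.mem_coe.2 (Finset.mem_image.2 ⟨j, Finset.mem_univ _, rfl⟩), rfl⟩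
    rw [h4]
    have h5 := finrank_span_eq_card (hli.comp r hr)
    rw [Fintype.card_fin] at h5
    exact h5.ge

end gen

section weights

variable {Ω : Type*} [Field Ω] {Γ : Type*} (h : Γ → Ω ≃+* Ω) (x : Γ → Ω) (hx : ∀ γ, x γ ≠ 0)
  (tate : ∀ m : ℤ, m ≠ 0 → ∀ c : Ω, (∀ γ, h γ c = x γ ^ m * c) → c = 0)
  {n : ℕ} (a : Fin n → ℤ) (P : Matrix (Fin n) (Fin n) Ω) (hP : P.det ≠ 0)
  (R : Γ → Matrix (Fin n) (Fin n) Ω)
  (hR : ∀ γ, R γ * P.map (h γ) = P * Matrix.diagonal fun s => x γ ^ (-a s))
  (c : Fin n → Fin n → Fin n → Ω) (hc : ∀ γ s t u, h γ (c s t u) = c s t u)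
  (hRc : ∀ γ v w, cross c ((R γ).mulVec v) ((R γ).mulVec w) = (R γ).mulVec (cross c v w))

include hx tate hP hR hc hRc in
/-- The product of vectors of weights `a s` and `a t` has the weight `a s + a t`. -/
theorem cross_weights (s t : Fin n) : cross c (fun u => P u s) (fun u => P u t) ∈
    Submodule.span Ω {v | ∃ u, v = (fun u' => P u' u) ∧ a u = a s + a t} := by
  classical
  have hPu : IsUnit P.det := isUnit_iff_ne_zero.2 hP
  obtain ⟨q, hq⟩ : ∃ q, P.mulVec q = cross c (fun u => P u s) (fun u => P u t) :=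
    ⟨P⁻¹.mulVec (cross c (fun u => P u s) (fun u => P u t)), by
      rw [Matrix.mulVec_mulVec, Matrix.mul_nonsing_inv _ hPu, Matrix.one_mulVec]⟩
  have hinj : Function.Injective P.mulVec := by
    intro v w hvw
    have h6 := congrArg (fun z => P⁻¹.mulVec z) hvw
    simpa [Matrix.mulVec_mulVec, Matrix.nonsing_inv_mul _ hPu] using h6
  -- the semilinear action on the basis vectors
  have hcol : ∀ γ r, (R γ).mulVec (fun u => h γ (P u r)) = x γ ^ (-a r) • fun u => P u r := by
    intro γ r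
    funext u
    have h1 := congrFun (congrFun (hR γ) u) r
    rw [Matrix.mul_diagonal] at h1
    rw [Pi.smul_apply, smul_eq_mul, mul_comm (x γ ^ (-a r)), ← h1]
    rfl
  have hcr : ∀ γ (v w : Fin n → Ω), (fun u => h γ (cross c v w u)) =
      cross c (fun u => h γ (v u)) (fun u => h γ (w u)) := by
    intro γ v w
    funext u
    simp only [cross, map_sum, map_mul, hc]
  have hq0 : ∀ u, a u ≠ a s + a t → q u = 0 := by
    intro u hu
    refine tate (a u - a s - a t) (fun h0 => hu (by linarith)) _ fun γ => ?_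
    have h1 : P.mulVec ((Matrix.diagonal fun s => x γ ^ (-a s)).mulVec fun u => h γ (q u)) =
        P.mulVec ((x γ ^ (-a s) * x γ ^ (-a t)) • q) := by
      rw [Matrix.mulVec_mulVec, ← hR, ← Matrix.mulVec_mulVec, Matrix.mulVec_smul, hq]
      have h3 : ((P.map (h γ)).mulVec fun u => h γ (q u)) = fun u => h γ (P.mulVec q u) := by
        funext u
        simp only [Matrix.mulVec, dotProduct, Matrix.map_apply, map_sum, map_mul]
      rw [h3, hq, hcr, ← hRc, hcol, hcol, ← crossB_apply, map_smul, map_smul,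
        LinearMap.smul_apply, smul_smul, mul_comm (x γ ^ (-a t)), crossB_apply]
    have h2 := congrFun (hinj h1) u
    rw [Matrix.mulVec_diagonal, Pi.smul_apply, smul_eq_mul] at h2
    have h3 : x γ ^ (a u) * x γ ^ (-a u) = 1 := by rw [← zpow_add₀ (hx γ), add_neg_cancel, zpow_zero]
    calc h γ (q u) = x γ ^ (a u) * (x γ ^ (-a u) * h γ (q u)) := by rw [← mul_assoc, h3, one_mul]
      _ = x γ ^ (a u) * (x γ ^ (-a s) * x γ ^ (-a t) * q u) := by rw [h2]
      _ = x γ ^ (a u - a s - a t) * q u := by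
        rw [sub_eq_add_neg, sub_eq_add_neg, zpow_add₀ (hx γ), zpow_add₀ (hx γ)]
        ring
  rw [← hq]
  have h1 : P.mulVec q = ∑ u, q u • fun u' => P u' u := by
    funext u'
    rw [Finset.sum_apply]
    simp only [Matrix.mulVec, dotProduct, Pi.smul_apply, smul_eq_mul, mul_comm]
  rw [h1]
  refine Submodule.sum_mem _ fun u _ => ?_
  by_cases hu : a u = a s + a t
  · exact Submodule.smul_mem _ _ (Submodule.subset_span ⟨u, rfl, hu⟩)
  · rw [hq0 u hu, zero_smul]
    exact Submodule.zero_mem _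

end weights

section bc

variable {k Ω : Type*} [Field k] [Field Ω] (i : k →+* Ω) {n : ℕ}

theorem map_mulVec (M : Matrix (Fin n) (Fin n) k) (v : Fin n → k) :
    (M.map i).mulVec (fun s => i (v s)) = fun s => i (M.mulVec v s) := by
  funext s
  simp only [Matrix.mulVec, dotProduct, Matrix.map_apply, map_sum, map_mul]

theorem map_single (s : Fin n) : (fun t => i ((Pi.single s (1 : k) : Fin n → k) t)) =
    (Pi.single s (1 : Ω) : Fin n → Ω) := by
  funext t
  by_cases h : t = s
  · subst h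
    simp
  · simp [Pi.single_eq_of_ne h]

theorem cross_map_mulVec {c : Fin n → Fin n → Fin n → k} {M : Matrix (Fin n) (Fin n) k}
    (h : ∀ x y, cross c (M.mulVec x) (M.mulVec y) = M.mulVec (cross c x y)) (v w : Fin n → Ω) :
    cross (mapC i c) ((M.map i).mulVec v) ((M.map i).mulVec w) =
      (M.map i).mulVec (cross (mapC i c) v w) := by
  have h1 : (crossB (mapC i c)).compl₁₂ (M.map i).mulVecLin (M.map i).mulVecLin =
      (crossB (mapC i c)).compr₂ (M.map i).mulVecLin := by
    apply LinearMap.pi_ext'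
    intro s
    apply LinearMap.ext_ring
    apply LinearMap.pi_ext'
    intro t
    apply LinearMap.ext_ring
    change cross (mapC i c) ((M.map i).mulVec (Pi.single s 1)) ((M.map i).mulVec (Pi.single t 1)) =
      (M.map i).mulVec (cross (mapC i c) (Pi.single s 1) (Pi.single t 1))
    rw [← map_single i s, ← map_single i t, map_mulVec, map_mulVec, cross_map, cross_map, h,
      map_mulVec]
  exact congrFun (congrArg DFunLike.coe (congrFun (congrArg DFunLike.coe h1) v)) w

theorem form_matrix {J M : Matrix (Fin n) (Fin n) k}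
    (h : ∀ x y, form J (M.mulVec x) (M.mulVec y) = form J x y) : Mᵀ * J * M = J := by
  have h1 : ∀ x y : Fin n → k, x ⬝ᵥ (Mᵀ * J * M) *ᵥ y = x ⬝ᵥ J *ᵥ y := by
    intro x y
    have h3 := h x y
    rw [form_eq, form_eq] at h3
    rw [← h3, ← Matrix.mulVec_mulVec, ← Matrix.mulVec_mulVec, Matrix.dotProduct_mulVec,
      Matrix.vecMul_transpose]
  ext s t
  have h2 := h1 (Pi.single s 1) (Pi.single t 1)
  simpa [Matrix.mulVec_single_one] using h2

end bc

theorem mat_inv_mul {F : Type} [Field F] [NumberField F] {𝕂 : Type} [NormedField 𝕂] {n : ℕ}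
    (ρ : Gal(AlgebraicClosure F/F) →* GL (Fin n) 𝕂) (g : Gal(AlgebraicClosure F/F)) :
    mat ρ g⁻¹ * mat ρ g = 1 := by
  rw [← mat_mul, inv_mul_cancel]
  unfold mat
  rw [map_one, Units.val_one]

theorem mat_mul_inv {F : Type} [Field F] [NumberField F] {𝕂 : Type} [NormedField 𝕂] {n : ℕ}
    (ρ : Gal(AlgebraicClosure F/F) →* GL (Fin n) 𝕂) (g : Gal(AlgebraicClosure F/F)) :
    mat ρ g * mat ρ g⁻¹ = 1 := by
  rw [← mat_mul, mul_inv_cancel]
  unfold mat
  rw [map_one, Units.val_one]

section ht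

variable (ℓ : ℕ) [hℓ : Fact ℓ.Prime]
  {𝕂 : Type} [NormedField 𝕂] [NormedAlgebra ℚ_[ℓ] 𝕂] [FiniteDimensional ℚ_[ℓ] 𝕂] {n : ℕ}
  (ρ : Gal(AlgebraicClosure ℚ/ℚ) →* GL (Fin n) 𝕂)

/-- A stable subspace is, after the extension of scalars, the span of some of the basis vectors, if
the weights are different. -/
theorem exists_S {a : Fin n → ℤ} (ha : Function.Injective a) {i : 𝕂 →ₐ[ℚ_[ℓ]] PadicComplex ℓ}
    {e : AlgebraicClosure ℚ →+* PadicComplex ℓ} (htate : TateTheorem i e)
    {P : Matrix (Fin n) (Fin n) (PadicComplex ℓ)} (hPdet : P.det ≠ 0)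
    (hP : ∀ h g, Induces i e h g →
      (mat ρ g).map i * P.map h = P * Matrix.diagonal fun k => cyc ℓ g ^ (-a k))
    {U : Submodule 𝕂 (Fin n → 𝕂)} (hU : Stable ρ U) (hU' : ∀ g, U ≤ U.comap (act ρ g))
    {N : ℕ} {A : ℤ} (hN : 0 < N) (hdt : ∀ g, dt ρ U hU' g ^ N = chiE ℓ 𝕂 g ^ A) :
    ∃ S : Finset (Fin n), S.card = finrank 𝕂 U ∧ (∀ s ∈ S, (fun t => P t s) ∈ UC (i : 𝕂 →+* _) U) ∧
      UC (i : 𝕂 →+* _) U ≤ Submodule.span (PadicComplex ℓ)
        ((fun s t => P t s) '' (S : Set (Fin n))) ∧ N * ∑ s ∈ S, a s = -A := by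
  classical
  have hcompl : CompleteSpace 𝕂 := FiniteDimensional.complete ℚ_[ℓ] 𝕂
  have hultra : IsUltrametricDist 𝕂 := IsUltrametricDist.of_normedAlgebra ℚ_[ℓ]
  have hchar : CharZero 𝕂 := charZero_of_injective_algebraMap (algebraMap ℚ_[ℓ] 𝕂).injective
  obtain ⟨B, hBU, ⟨L, hL⟩, hA⟩ := exists_base U
  have hC : ∀ g : GF ℚ, ∃ C : Matrix (Fin (finrank 𝕂 U)) (Fin (finrank 𝕂 U)) 𝕂,
      mat ρ g * B = B * C ∧ C.det = ((dt ρ U hU' g : 𝕂ˣ) : 𝕂) := by
    intro g
    obtain ⟨C, h1, h2⟩ := hA (mat ρ g) (fun x hx => hU g x hx)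
    exact ⟨C, h1, h2⟩
  choose C hC1 hC2 using hC
  let Γ : Type := {q : (PadicComplex ℓ ≃+* PadicComplex ℓ) × GF ℚ // Induces i e q.1 q.2}
  let h : Γ → PadicComplex ℓ ≃+* PadicComplex ℓ := fun γ => γ.1.1
  let x : Γ → PadicComplex ℓ := fun γ => cyc ℓ γ.1.2
  have hcyc : ∀ g : GF ℚ, cyc ℓ g = i ((chiE ℓ 𝕂 g : 𝕂ˣ) : 𝕂) := by
    intro g
    rw [coe_chiE, AlgHom.commutes]
    rfl
  have hx : ∀ γ, x γ ≠ 0 := by
    intro γ
    change cyc ℓ γ.1.2 ≠ 0
    rw [hcyc]
    exact (map_ne_zero i).2 (Units.ne_zero _)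
  have tate : ∀ m : ℤ, m ≠ 0 → ∀ c : PadicComplex ℓ, (∀ γ, h γ c = x γ ^ m * c) → c = 0 :=
    fun m hm c hc => htate m hm c fun h' g hg => hc ⟨(h', g), hg⟩
  let R : Γ → Matrix (Fin n) (Fin n) (PadicComplex ℓ) := fun γ => (mat ρ γ.1.2).map i
  have hR : ∀ γ, R γ * P.map (h γ) = P * Matrix.diagonal fun s => x γ ^ (-a s) :=
    fun γ => hP γ.1.1 γ.1.2 γ.2
  have hfixM : ∀ {m k : ℕ} (M : Matrix (Fin m) (Fin k) 𝕂) (γ : Γ), (M.map i).map (h γ) = M.map i := by
    intro m k M γ
    ext s t
    exact γ.2.fix _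
  have hmm : ∀ {m k l : ℕ} (M : Matrix (Fin m) (Fin k) 𝕂) (M' : Matrix (Fin k) (Fin l) 𝕂),
      (M * M').map i = M.map i * M'.map i := fun M M' => Matrix.map_mul
  have hLi : (L.map i) * (B.map i) = 1 := by
    rw [← hmm, hL, Matrix.map_one i (map_zero i) (map_one i)]
  have hCi : ∀ γ : Γ, R γ * B.map i = B.map i * (C γ.1.2).map i := by
    intro γ
    change (mat ρ γ.1.2).map i * B.map i = _
    rw [← hmm, hC1, hmm]
  have hdet : ∀ γ : Γ, ((C γ.1.2).map i).det ^ N = x γ ^ A := by
    intro γ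
    have h1 : ((C γ.1.2).map i).det = i (C γ.1.2).det := (AlgHom.map_det i _).symm
    have h3 : ((dt ρ U hU' γ.1.2 : 𝕂ˣ) : 𝕂) ^ N = ((chiE ℓ 𝕂 γ.1.2 : 𝕂ˣ) : 𝕂) ^ A := by
      rw [← Units.val_pow_eq_pow_val, ← Units.val_zpow_eq_zpow_val]
      exact congrArg Units.val (hdt _)
    rw [h1, hC2, ← map_pow, h3, map_zpow₀, ← hcyc]
  obtain ⟨r, Y, E, hr, hsum, hYr, hPY, ⟨L', hL'⟩, hYa⟩ :=
    exists_Y h x hx tate a P hPdet R hR (B.map i) (hfixM B) (L.map i) hLi
      (fun γ => (C γ.1.2).map i) hCi hdet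
  -- the columns of `Y` are basis vectors
  have hY0 : ∀ s j, s ≠ r j → Y s j = 0 := by
    intro s j hs
    by_contra h0
    exact hs (ha (hYa s j h0))
  have hY1 : ∀ j, Y (r j) j = 1 := by
    intro j
    have h5 := congrFun (congrFun hYr j) j
    rwa [Matrix.submatrix_apply, Matrix.one_apply_eq] at h5
  obtain ⟨h1, h2, h3⟩ := S_of_Y (i : 𝕂 →+* PadicComplex ℓ) rfl hBU hL hPdet hr hPY hY0 hY1
  refine ⟨Finset.univ.image r, h1, h2, h3, ?_⟩
  rw [Finset.sum_image fun _ _ _ _ h1 => hr h1]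
  exact hsum

/-- **Representations with values in `G₂`.** -/
theorem ht_semisimple (ρ : Gal(AlgebraicClosure ℚ/ℚ) →* GL (Fin 7) 𝕂) (hρ : Continuous ρ)
    {J : Matrix (Fin 7) (Fin 7) 𝕂} {c : Fin 7 → Fin 7 → Fin 7 → 𝕂} (hJc : IsCross J c)
    (hinv : ∀ g x y, cross c ((mat ρ g).mulVec x) ((mat ρ g).mulVec y) =
      (mat ρ g).mulVec (cross c x y)) (j : 𝕂 →+* ℂ)
    (R : HeightOneSpectrum (𝓞 ℚ) → Multiset ℂ) (T : Set ℕ) (hT3 : 3 ≤ T.encard)
    (hT : ∀ p ∈ T, p.Prime ∧ p ≠ ℓ) (hR : ∀ p ∈ T, ∀ v, Above v p → PureAt ρ j 0 v (R v))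
    (hgood : ∃ p ∈ T, ∀ v, Above v p → ∀ a ∈ R v, ‖a‖ ^ 2 = (qq v : ℝ) ^ (0 : ℤ))
    (i : 𝕂 →ₐ[ℚ_[ℓ]] PadicComplex ℓ) (e : AlgebraicClosure ℚ →+* PadicComplex ℓ)
    {a : Fin 7 → ℤ} (ha : Function.Injective a) (hHT : HodgeTate ρ i e a) : Semisimple ρ := by
  classical
  have hcompl : CompleteSpace 𝕂 := FiniteDimensional.complete ℚ_[ℓ] 𝕂
  have hultra : IsUltrametricDist 𝕂 := IsUltrametricDist.of_normedAlgebra ℚ_[ℓ]
  have hchar : CharZero 𝕂 := charZero_of_injective_algebraMap (algebraMap ℚ_[ℓ] 𝕂).injective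
  have htate : TateTheorem i e := Pool.Agent.K7.H9.AST.tateTheorem i e
  obtain ⟨P, hPdet, hP⟩ := hHT
  have hcb : IsCrossB (formB J) (crossB c) := isCrossB_of hJc
  have h2 : (2 : 𝕂) ≠ 0 := two_ne_zero
  have hginj : ∀ g, Function.Injective (mat ρ g).mulVecLin := by
    intro g v w hvw
    have h6 := congrArg (fun z => (mat ρ g⁻¹).mulVec z) hvw
    have h7 : mat ρ g⁻¹ * mat ρ g = 1 := mat_inv_mul ρ g
    simpa [Matrix.mulVec_mulVec, h7] using h6
  have hdim : ∀ x : Fin 7 → 𝕂, ∃ y, ∀ c : 𝕂, y ≠ c • x := by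
    intro x
    by_cases hx : x = 0
    · exact ⟨Pi.single 0 1, fun c h => by
        rw [hx, smul_zero] at h
        exact one_ne_zero ((Pi.single_eq_same (M := fun _ : Fin 7 => 𝕂) 0 1).symm.trans
          (congrFun h 0))⟩
    · by_contra hno
      push Not at hno
      have h3 : (⊤ : Submodule 𝕂 (Fin 7 → 𝕂)) ≤ Submodule.span 𝕂 {x} := by
        intro y _
        obtain ⟨c, rfl⟩ := hno y
        exact Submodule.smul_mem _ _ (Submodule.mem_span_singleton_self x)
      have h4 := Submodule.finrank_mono h3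
      rw [finrank_top, finrank_fin_fun, finrank_span_singleton hx] at h4
      omega
  have hBinv : ∀ g x y, form J ((mat ρ g).mulVec x) ((mat ρ g).mulVec y) = form J x y := by
    intro g x y
    exact form_inv h2 hcb hdim (g := (mat ρ g).mulVecLin) (hginj g) (fun x y => hinv g x y) x y
  have hJdet : J.det ≠ 0 := hJc.nondeg.ne_zero
  have hnd : ∀ x, x ≠ 0 → ∃ z, formB J x z ≠ 0 := by
    intro x hx
    by_contra hno
    push Not at hno
    have h3 : Matrix.vecMul x J = 0 := by
      funext t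
      have h4 := hno (Pi.single t 1)
      rw [formB_apply, form_eq, Matrix.mulVec_single_one] at h4
      exact h4
    apply hx
    have h5 : Matrix.vecMul (Matrix.vecMul x J) J⁻¹ = 0 := by rw [h3, Matrix.zero_vecMul]
    rwa [Matrix.vecMul_vecMul, Matrix.mul_nonsing_inv _ hJc.nondeg, Matrix.vecMul_one] at h5
  let i' : 𝕂 →+* PadicComplex ℓ := (i : 𝕂 →+* PadicComplex ℓ)
  have hcharΩ : CharZero (PadicComplex ℓ) := charZero_of_injective_ringHom i'.injective
  -- the semilinear action
  let Γ : Type := {q : (PadicComplex ℓ ≃+* PadicComplex ℓ) × GF ℚ // Induces i e q.1 q.2}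
  let h : Γ → PadicComplex ℓ ≃+* PadicComplex ℓ := fun γ => γ.1.1
  let x : Γ → PadicComplex ℓ := fun γ => cyc ℓ γ.1.2
  have hcyc : ∀ g : GF ℚ, cyc ℓ g = i ((chiE ℓ 𝕂 g : 𝕂ˣ) : 𝕂) := by
    intro g
    rw [coe_chiE, AlgHom.commutes]
    rfl
  have hx : ∀ γ, x γ ≠ 0 := by
    intro γ
    change cyc ℓ γ.1.2 ≠ 0
    rw [hcyc]
    exact (map_ne_zero i).2 (Units.ne_zero _)
  have tate : ∀ m : ℤ, m ≠ 0 → ∀ c : PadicComplex ℓ, (∀ γ, h γ c = x γ ^ m * c) → c = 0 :=
    fun m hm c hc => htate m hm c fun h' g hg => hc ⟨(h', g), hg⟩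
  let R' : Γ → Matrix (Fin 7) (Fin 7) (PadicComplex ℓ) := fun γ => (mat ρ γ.1.2).map i
  have hR' : ∀ γ, R' γ * P.map (h γ) = P * Matrix.diagonal fun s => x γ ^ (-a s) :=
    fun γ => hP γ.1.1 γ.1.2 γ.2
  have hRc : ∀ γ v w, cross (mapC i' c) ((R' γ).mulVec v) ((R' γ).mulVec w) =
      (R' γ).mulVec (cross (mapC i' c) v w) := fun γ v w =>
    cross_map_mulVec i' (M := mat ρ γ.1.2) (hinv γ.1.2) v w
  have hJi : ∀ γ, (R' γ)ᵀ * J.map i * R' γ = x γ ^ (-(0 : ℤ)) • J.map i := by
    intro γ
    have h3 : (mat ρ γ.1.2)ᵀ * J * mat ρ γ.1.2 = J := form_matrix (hBinv γ.1.2)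
    have h4 := congrArg (fun M : Matrix (Fin 7) (Fin 7) 𝕂 => M.map i) h3
    simp only [Matrix.map_mul] at h4
    rw [neg_zero, zpow_zero, one_smul]
    exact h4
  have hfixJ : ∀ γ, (J.map i).map (h γ) = J.map i := by
    intro γ
    ext s t
    exact γ.2.fix _
  have hJidet : (J.map i).det ≠ 0 := by
    have h1 : (J.map i).det = i J.det := (AlgHom.map_det i _).symm
    rw [h1]
    exact (map_ne_zero i).2 hJdet
  have hli : LinearIndependent (PadicComplex ℓ) (fun s t => P t s) :=
    Matrix.linearIndependent_cols_iff_isUnit.2 ((Matrix.isUnit_iff_isUnit_det _).2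
      (isUnit_iff_ne_zero.2 hPdet))
  have hgr : ∀ s t, form (J.map i) (fun u => P u s) (fun u => P u t) = (Pᵀ * J.map i * P) s t := by
    intro s t
    rw [form_eq, Matrix.mul_assoc, Matrix.mul_apply]
    rfl
  have hperpst : ∀ U, Stable ρ U → Stable ρ (perp (formB J) U) := by
    intro U hU g y hy x hx
    have h7 : mat ρ g * mat ρ g⁻¹ = 1 := mat_mul_inv ρ g
    have h3 : x = (mat ρ g).mulVec ((mat ρ g⁻¹).mulVec x) := by
      rw [Matrix.mulVec_mulVec, h7, Matrix.one_mulVec]
    change form J x ((mat ρ g).mulVec y) = 0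
    rw [h3, hBinv]
    exact hy _ (hU g⁻¹ x hx)
  have hprodst : ∀ U, Stable ρ U → Stable ρ (prodSpan (crossB c) U) := by
    intro U hU g z hz
    change (mat ρ g).mulVecLin z ∈ _
    refine Submodule.span_induction ?_ ?_ ?_ ?_ hz
    · rintro _ ⟨x, hx, y, hy, rfl⟩
      refine Submodule.subset_span ⟨_, hU g x hx, _, hU g y hy, ?_⟩
      exact (hinv g x y).symm
    · rw [map_zero]
      exact Submodule.zero_mem _
    · intro v w _ _ hv hw
      rw [map_add]
      exact Submodule.add_mem _ hv hw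
    · intro b v _ hv
      rw [map_smul]
      exact Submodule.smul_mem _ _ hv
  intro U hU
  refine semisimple_abs (i := i') (B := formB J) (m := crossB c) (B' := formB (J.map i))
    (m' := crossB (mapC i' c)) (P := fun s t => P t s) (a := a) (St := Stable ρ) h2 hcb hnd
    (fun x y => form_map i' J x y) (fun x y => cross_map i' c x y)
    (fun x => cross_map_self i' hJc.alt x) hli ha ?_ ?_ ?_ hperpst
    (fun U W hU hW g x hx => ⟨hU g x hx.1, hW g x hx.2⟩) hprodst ?_ U hU
  · intro s t hst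
    have h3 : (Pᵀ * J.map i * P) s t ≠ 0 := by rw [← hgr]; exact hst
    exact gram h x hx tate a P R' hR' (J.map i) hfixJ hJi s t h3
  · intro s
    by_contra hno
    push Not at hno
    have h3 : (Pᵀ * J.map i * P).det = 0 := by
      apply Matrix.det_eq_zero_of_row_eq_zero s
      intro t
      rw [← hgr]
      exact hno t
    rw [Matrix.det_mul, Matrix.det_mul, Matrix.det_transpose] at h3
    exact mul_ne_zero (mul_ne_zero hPdet hJidet) hPdet h3
  · intro s t
    exact cross_weights h x hx tate a P hPdet R' hR' (mapC i' c) (fun γ s t u => γ.2.fix _) hRc s t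
  · intro U hU
    have hU' : ∀ g, U ≤ U.comap (act ρ g) := fun g x hx => hU g x hx
    obtain ⟨N, A, hN, hdt, hwA⟩ := exists_char ℓ ρ hρ j 0 R T hT3
      (fun p hp => ⟨(hT p hp).1, (hT p hp).2, unramifiedIn_rat (hT p hp).1⟩) hR hgood U hU hU'
    have hA0 : A = 0 := by
      rw [zero_mul, zero_mul] at hwA
      omega
    obtain ⟨S, h3, h4, h5, h6⟩ := exists_S ℓ ρ ha htate hPdet hP hU hU' hN hdt
    refine ⟨S, h3, h4, h5, ?_⟩
    rw [hA0, neg_zero] at h6
    exact (mul_eq_zero.1 h6).resolve_left (Nat.cast_ne_zero.2 hN.ne')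

end ht

end Pool.Agent.H853.G2
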