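import Pool.Agent.H853.G2.Wts

/-!
# The trace formula for the vector fixed by an automorphism of a cross product
-/

set_option autoImplicit false
set_option linter.unusedSectionVars false

namespace Pool.Agent.H853.G2

open Module

variable {K : Type*} [Field K] {E : Type*} [AddCommGroup E] [Module K E] {ι : Type*} [Fintype ι]
  [DecidableEq ι] {B : E →ₗ[K] E →ₗ[K] K} {m : E →ₗ[K] E →ₗ[K] E} {F : E →ₗ[K] E} {P : Basis ι K E}
  {lam : ι → K} {opp : ι → ι} {s₀ : ι}

theorem trace_eig {T : E →ₗ[K] E} {μ : ι → K} (hT : ∀ s, T (P s) = μ s • P s) :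
    LinearMap.trace K E T = ∑ s, μ s := by
  rw [LinearMap.trace_eq_matrix_trace K P, Matrix.trace]
  refine Finset.sum_congr rfl fun s _ => ?_
  rw [Matrix.diag_apply, LinearMap.toMatrix_apply, hT, map_smul, P.repr_self, Finsupp.smul_apply,
    Finsupp.single_eq_same, smul_eq_mul, mul_one]

namespace Lab

/-- The seven weights. -/
theorem exists_three (h : Lab B m F P lam opp s₀) (h7 : Fintype.card ι = 7) :
    ∃ x y z : ι, x ≠ s₀ ∧ y ≠ s₀ ∧ z ≠ s₀ ∧ y ≠ x ∧ z ≠ x ∧ z ≠ y ∧
      sgn m P s₀ y = sgn m P s₀ x ∧ sgn m P s₀ z = sgn m P s₀ x ∧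
      ∀ f : ι → K, ∑ s, f s = f s₀ + (f x + f y + f z) + (f (opp x) + f (opp y) + f (opp z)) := by
  classical
  obtain ⟨u, hu⟩ : ∃ u : ι, u ≠ s₀ := by
    by_contra hcon
    push Not at hcon
    have h1 : Fintype.card ι ≤ 1 := Fintype.card_le_one_iff.2 fun a b => by rw [hcon a, hcon b]
    omega
  have hinj : Function.Injective opp := fun a b hab => by
    rw [← h.opp_opp a, hab, h.opp_opp]
  let A : Finset ι := Finset.univ.filter fun s => s ≠ s₀ ∧ sgn m P s₀ s = sgn m P s₀ u
  have hA : ∀ s, s ∈ A ↔ s ≠ s₀ ∧ sgn m P s₀ s = sgn m P s₀ u := fun s => by simp [A]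
  have hd : Disjoint A (A.image opp) := by
    rw [Finset.disjoint_left]
    intro a ha ha'
    obtain ⟨b, hb, rfl⟩ := Finset.mem_image.1 ha'
    have h1 := ((hA _).1 ha).2
    rw [h.sgn_opp, ((hA b).1 hb).2] at h1
    exact h.ne_neg hu h1.symm
  have hn : s₀ ∉ A ∪ A.image opp := by
    rw [Finset.mem_union, not_or]
    refine ⟨fun h1 => ((hA _).1 h1).1 rfl, fun h1 => ?_⟩
    obtain ⟨b, hb, hb'⟩ := Finset.mem_image.1 h1
    exact h.opp_ne ((hA b).1 hb).1 hb'
  have huniv : insert s₀ (A ∪ A.image opp) = Finset.univ := by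
    rw [Finset.eq_univ_iff_forall]
    intro s
    rw [Finset.mem_insert, Finset.mem_union]
    by_cases hs : s = s₀
    · exact Or.inl hs
    · right
      rcases h.sgn_eq_or hs hu with h1 | h1
      · exact Or.inl ((hA s).2 ⟨hs, h1⟩)
      · refine Or.inr (Finset.mem_image.2 ⟨opp s, (hA _).2 ⟨h.opp_ne hs, ?_⟩, h.opp_opp s⟩)
        rw [h.sgn_opp, h1, neg_neg]
  have hc : A.card = 3 := by
    have h1 := congrArg Finset.card huniv
    rw [Finset.card_insert_of_notMem hn, Finset.card_union_of_disjoint hd,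
      Finset.card_image_of_injective _ hinj, Finset.card_univ, h7] at h1
    omega
  obtain ⟨x, y, z, hxy, hxz, hyz, hxyz⟩ := Finset.card_eq_three.1 hc
  have hx := (hA x).1 (by rw [hxyz]; simp)
  have hy := (hA y).1 (by rw [hxyz]; simp)
  have hz := (hA z).1 (by rw [hxyz]; simp)
  refine ⟨x, y, z, hx.1, hy.1, hz.1, hxy.symm, hxz.symm, hyz.symm, hy.2.trans hx.2.symm,
    hz.2.trans hx.2.symm, fun f => ?_⟩
  rw [← huniv, Finset.sum_insert hn, Finset.sum_union hd, Finset.sum_image fun a _ b _ hab =>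
    hinj hab, hxyz]
  have e1 : ∀ g : ι → K, ∑ s ∈ ({x, y, z} : Finset ι), g s = g x + g y + g z := by
    intro g
    rw [Finset.sum_insert (by simp [hxy, hxz]), Finset.sum_insert (by simp [hyz]),
      Finset.sum_singleton, add_assoc]
  rw [e1, e1 fun s => f (opp s), ← add_assoc]

/-- **The trace formula.** -/
theorem trace_formula (h : Lab B m F P lam opp s₀) (h7 : Fintype.card ι = 7) :
    LinearMap.trace K E (m (P s₀) ∘ₗ F) ^ 2 = -B (P s₀) (P s₀) *
      (2 * LinearMap.trace K E (F ∘ₗ F) - LinearMap.trace K E F ^ 2 +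
        6 * LinearMap.trace K E F - 7) := by
  obtain ⟨x, y, z, hx, hy, hz, hyx, hzx, hzy, hsy, hsz, hsum⟩ := h.exists_three h7
  obtain ⟨w, hw, hwx, hwy, hsw, hp⟩ := h.mul_same hx hy hsy hyx
  have hwz : w = z := by
    rcases h.three h7 hx hy hz hyx hzx hzy hsy hsz w hw with (h1 | h1 | h1) | h1
    · exact absurd h1 hwx
    · exact absurd h1 hwy
    · exact h1
    · exfalso
      have h2 : sgn m P s₀ (opp w) = sgn m P s₀ x := by
        rcases h1 with h1 | h1 | h1
        · rw [h1]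
        · rw [h1, hsy]
        · rw [h1, hsz]
      rw [h.sgn_opp, hsw] at h2
      exact h.ne_neg hx h2.symm
  rw [hwz] at hp
  have t1 : LinearMap.trace K E F = ∑ s, lam s := trace_eig h.eig
  have t2 : LinearMap.trace K E (F ∘ₗ F) = ∑ s, lam s * lam s := by
    refine trace_eig (P := P) fun s => ?_
    rw [LinearMap.comp_apply, h.eig, map_smul, h.eig, smul_smul]
  have t3 : LinearMap.trace K E (m (P s₀) ∘ₗ F) = ∑ s, lam s * sgn m P s₀ s := by
    refine trace_eig (P := P) fun s => ?_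
    rw [LinearMap.comp_apply, h.eig, map_smul, h.mul_s₀, smul_smul]
  have hk := h.sgn_sq hx
  have ox := h.opp_mul x
  have oy := h.opp_mul y
  have oz := h.opp_mul z
  have h1 := h.one
  have f1 : lam (opp x) = lam y * lam z := by
    apply mul_left_cancel₀ (h.lam_ne x)
    rw [ox, ← hp]
    ring
  have f2 : lam (opp y) = lam x * lam z := by
    apply mul_left_cancel₀ (h.lam_ne y)
    rw [oy, ← hp]
    ring
  have f3 : lam (opp z) = lam x * lam y := by
    apply mul_left_cancel₀ (h.lam_ne z)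
    rw [oz, ← hp]
    ring
  rw [t1, t2, t3, hsum, hsum, hsum, h.sgn_opp, h.sgn_opp, h.sgn_opp, hsy, hsz, h.sgn_s₀, h1, f1, f2,
    f3, ← hk]
  generalize lam x = a at *
  generalize lam y = b at *
  generalize lam z = c at *
  linear_combination (sgn m P s₀ x ^ 2) * (4 * (a + b + c)) * hp

end Lab

end Pool.Agent.H853.G2
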