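import Pool.Agent.H853.G2.Str
import Pool.Agent.H853.G2.Trc

/-!
# Endomorphisms which commute with a subgroup of finite index
-/

set_option autoImplicit false
set_option linter.unusedSectionVars false

namespace Pool.Agent.H853.G2

open Module TensorProduct Pool.Agent.Y114.RM Pool.Agent.H853.SR

variable {k : Type} [Field k] [CharZero k] [Algebra k ℂ] {Γ : Type} [Group Γ]
  {ρ : Representation k Γ (Fin 7 → k)} {J : Matrix (Fin 7) (Fin 7) k}
  {c : Fin 7 → Fin 7 → Fin 7 → k}

/-- The discriminant of an automorphism of a cross product: `(t - t')²`, if `1 + t + t'` is the trace and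
`t` and `t'` are the traces on the two eigenspaces of the product with the fixed vector. -/
noncomputable def disc (T : End k (Fin 7 → k)) : k :=
  2 * LinearMap.trace k _ (T * T) - LinearMap.trace k _ T ^ 2 + 6 * LinearMap.trace k _ T - 7

theorem conj_pow (T : End k (Fin 7 → k)) (n : ℕ) :
    (eC k 7).conj ((T ^ n).baseChange ℂ) = ((eC k 7).conj (T.baseChange ℂ)) ^ n := by
  induction n with
  | zero =>
    rw [pow_zero, pow_zero, bc_one]
    exact LinearEquiv.conj_id _
  | succ n ih => rw [pow_succ, pow_succ, bc_mul, Module.End.mul_eq_comp, LinearEquiv.conj_comp, ih]; rfl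

theorem repr_pow {K : Type*} [Field K] {E : Type*} [AddCommGroup E] [Module K E] {ι : Type*}
    [Fintype ι] [DecidableEq ι] {P : Basis ι K E} {T : E →ₗ[K] E} {μ : ι → K}
    (hT : ∀ s, T (P s) = μ s • P s) (n : ℕ) (s : ι) : (T ^ n) (P s) = μ s ^ n • P s := by
  induction n with
  | zero => rw [pow_zero, pow_zero, one_smul]; rfl
  | succ n ih => rw [pow_succ, Module.End.mul_apply, hT, map_smul, ih, smul_smul, pow_succ, mul_comm]

/-- Vectors proportional over the complex numbers. -/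
theorem smul_descent {v w : Fin 7 → k} (hv : v ≠ 0) {a : ℂ}
    (h : (fun s => algebraMap k ℂ (w s)) = a • fun s => algebraMap k ℂ (v s)) :
    ∃ b : k, w = b • v := by
  obtain ⟨t, ht⟩ : ∃ t, v t ≠ 0 := by
    by_contra hcon
    push Not at hcon
    exact hv (funext hcon)
  have hi := (algebraMap k ℂ).injective
  have h1 : ∀ u, algebraMap k ℂ (w u) = a * algebraMap k ℂ (v u) := fun u => congrFun h u
  have hvt : algebraMap k ℂ (v t) ≠ 0 := (map_ne_zero _).2 ht
  refine ⟨w t / v t, funext fun u => hi ?_⟩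
  rw [Pi.smul_apply, smul_eq_mul, map_mul, map_div₀, h1 u, h1 t]
  field_simp

/-- The vector fixed by an element with generic eigenvalues. -/
theorem exists_fixed (hJc : IsCross J c)
    (hinv : ∀ g x y, ρ g (cross c x y) = cross c (ρ g x) (ρ g y)) (γ : Γ)
    (hγ : GenericMat (LinearMap.toMatrix' (ρ γ))) :
    ∃ v : Fin 7 → k, v ≠ 0 ∧ ρ γ v = v ∧ formB J v v ≠ 0 ∧
      (∀ n : ℕ, 0 < n → ∀ w, (ρ γ ^ n) w = w → ∃ a : k, w = a • v) ∧
      LinearMap.trace k _ (crossB c v * ρ γ) ^ 2 = -formB J v v * disc (ρ γ) := by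
  obtain ⟨P, lam, opp, s₀, hL, hg, hroot⟩ := exists_labC hJc hinv γ hγ
  have hi := (algebraMap k ℂ).injective
  -- the fixed vector
  obtain ⟨v, hv0, hv⟩ : ∃ v : Fin 7 → k, v ≠ 0 ∧ ρ γ v = v := by
    have h1 := hroot s₀
    rw [hL.one, ← (map_one (algebraMap k ℂ)), Polynomial.eval₂_at_apply] at h1
    have h2 : (LinearMap.toMatrix' (ρ γ)).charpoly.IsRoot 1 := by
      apply hi
      rw [h1, map_zero]
    have h3 : Module.End.HasEigenvalue (ρ γ) 1 := by
      rw [Module.End.hasEigenvalue_iff_isRoot_charpoly, ← LinearMap.charpoly_toMatrix (ρ γ)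
        (Pi.basisFun k (Fin 7))]
      exact h2
    obtain ⟨v, hv⟩ := h3.exists_hasEigenvector
    exact ⟨v, hv.2, by rw [hv.apply_eq_smul, one_smul]⟩
  have hFv : ∀ w : Fin 7 → k, (eC k 7).conj ((ρ γ).baseChange ℂ)
      (fun s => algebraMap k ℂ (w s)) = fun s => algebraMap k ℂ (ρ γ w s) := conj_bc (ρ γ)
  obtain ⟨c₀, hc₀⟩ : ∃ c₀ : ℂ, (fun s => algebraMap k ℂ (v s)) = c₀ • P s₀ :=
    ⟨_, hL.eig_of (by rw [hFv, hv, hL.one, one_smul])⟩
  have hc₀0 : c₀ ≠ 0 := by
    rintro rfl
    rw [zero_smul] at hc₀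
    apply hv0
    funext s
    apply hi
    rw [Pi.zero_apply, map_zero]
    exact congrFun hc₀ s
  have hBv : algebraMap k ℂ (formB J v v) =
      c₀ ^ 2 * formB (J.map (algebraMap k ℂ)) (P s₀) (P s₀) := by
    have h1 : formB (J.map (algebraMap k ℂ)) (fun s => algebraMap k ℂ (v s))
        (fun s => algebraMap k ℂ (v s)) = algebraMap k ℂ (formB J v v) :=
      form_map (algebraMap k ℂ) J v v
    rw [← h1, hc₀, map_smul, map_smul, LinearMap.smul_apply, smul_eq_mul, smul_eq_mul]
    ring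
  refine ⟨v, hv0, hv, ?_, ?_, ?_⟩
  · intro h0
    rw [h0, map_zero] at hBv
    exact (mul_ne_zero (pow_ne_zero 2 hc₀0) hL.form_s₀_ne) hBv.symm
  · intro n hn w hw
    have h1 : (((eC k 7).conj ((ρ γ).baseChange ℂ)) ^ n) (fun s => algebraMap k ℂ (w s)) =
        (1 : ℂ) • fun s => algebraMap k ℂ (w s) := by
      rw [← conj_pow, conj_bc, hw, one_smul]
    have h2 : (fun s => algebraMap k ℂ (w s)) = P.repr (fun s => algebraMap k ℂ (w s)) s₀ • P s₀ := by
      conv_lhs => rw [← P.sum_repr (fun s => algebraMap k ℂ (w s))]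
      refine Finset.sum_eq_single s₀ (fun t _ hts => ?_) fun h2 => absurd (Finset.mem_univ _) h2
      have h3 : P.repr (fun s => algebraMap k ℂ (w s)) t = 0 := by
        by_contra h0
        exact hL.pow_ne hg hts hn (eig_repr (repr_pow hL.eig n) h1 h0).symm
      rw [h3, zero_smul]
    refine smul_descent hv0 (a := P.repr (fun s => algebraMap k ℂ (w s)) s₀ * c₀⁻¹) ?_
    rw [hc₀, smul_smul, mul_assoc, inv_mul_cancel₀ hc₀0, mul_one]
    exact h2
  · apply hi
    have h1 := hL.trace_formula (Fintype.card_fin 7)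
    have h3 : (crossB (mapC (algebraMap k ℂ) c) (P s₀)) =
        c₀⁻¹ • (eC k 7).conj ((crossB c v).baseChange ℂ) := by
      have h4 : (eC k 7).conj ((crossB c v).baseChange ℂ) =
          crossB (mapC (algebraMap k ℂ) c) (fun s => algebraMap k ℂ (v s)) := by
        refine ext_single (i := algebraMap k ℂ) fun w => ?_
        rw [conj_bc]
        exact (cross_map (algebraMap k ℂ) c v w).symm
      rw [h4, hc₀, map_smul, smul_smul, inv_mul_cancel₀ hc₀0, one_smul]
    have tr : ∀ T : End k (Fin 7 → k), LinearMap.trace ℂ _ ((eC k 7).conj (T.baseChange ℂ)) =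
        algebraMap k ℂ (LinearMap.trace k _ T) := by
      intro T
      rw [LinearMap.trace_conj', LinearMap.trace_baseChange]
    rw [h3, LinearMap.smul_comp, ← LinearEquiv.conj_comp, ← LinearEquiv.conj_comp,
      ← Module.End.mul_eq_comp, ← Module.End.mul_eq_comp, ← bc_mul, ← bc_mul, map_smul, tr, tr, tr,
      smul_eq_mul] at h1
    have h6 : algebraMap k ℂ (-formB J v v * disc (ρ γ)) =
        -(c₀ ^ 2 * formB (J.map (algebraMap k ℂ)) (P s₀) (P s₀)) *
        (2 * algebraMap k ℂ (LinearMap.trace k _ (ρ γ * ρ γ)) -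
          algebraMap k ℂ (LinearMap.trace k _ (ρ γ)) ^ 2 +
          6 * algebraMap k ℂ (LinearMap.trace k _ (ρ γ)) - 7) := by
      rw [map_mul, map_neg, hBv, disc]
      simp only [map_sub, map_add, map_mul, map_pow, map_ofNat]
    rw [h6, map_pow]
    have h5 : algebraMap k ℂ (LinearMap.trace k _ (crossB c v * ρ γ)) ^ 2 =
        c₀ ^ 2 * (c₀⁻¹ * algebraMap k ℂ (LinearMap.trace k _ (crossB c v * ρ γ))) ^ 2 := by
      rw [mul_pow, ← mul_assoc, ← mul_pow, mul_inv_cancel₀ hc₀0, one_pow, one_mul]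
    rw [h5, h1]
    ring

/-- An endomorphism which commutes with a power commutes with the element. -/
theorem comm_of_pow (hJc : IsCross J c)
    (hinv : ∀ g x y, ρ g (cross c x y) = cross c (ρ g x) (ρ g y)) (γ : Γ)
    (hγ : GenericMat (LinearMap.toMatrix' (ρ γ))) {n : ℕ} (hn : 0 < n) {Y : End k (Fin 7 → k)}
    (hY : Y * ρ γ ^ n = ρ γ ^ n * Y) : Y * ρ γ = ρ γ * Y := by
  obtain ⟨P, lam, opp, s₀, hL, hg, -⟩ := exists_labC hJc hinv γ hγ
  have hi := (algebraMap k ℂ).injective
  set F := (eC k 7).conj ((ρ γ).baseChange ℂ) with hF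
  set Z := (eC k 7).conj (Y.baseChange ℂ) with hZ
  have h1 : ∀ x, Z ((F ^ n) x) = (F ^ n) (Z x) := by
    intro x
    have h2 : (eC k 7).conj ((Y * ρ γ ^ n).baseChange ℂ) =
        (eC k 7).conj ((ρ γ ^ n * Y).baseChange ℂ) := by rw [hY]
    rw [bc_mul, bc_mul, Module.End.mul_eq_comp, Module.End.mul_eq_comp, LinearEquiv.conj_comp,
      LinearEquiv.conj_comp, conj_pow] at h2
    exact LinearMap.congr_fun h2 x
  have h2 : ∀ s, ∃ a : ℂ, Z (P s) = a • P s := by
    intro s
    have h3 : (F ^ n) (Z (P s)) = lam s ^ n • Z (P s) := by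
      rw [← h1, repr_pow hL.eig, map_smul]
    refine ⟨P.repr (Z (P s)) s, ?_⟩
    conv_lhs => rw [← P.sum_repr (Z (P s))]
    refine Finset.sum_eq_single s (fun t _ hts => ?_) fun h2 => absurd (Finset.mem_univ _) h2
    have h4 : P.repr (Z (P s)) t = 0 := by
      by_contra h0
      exact hts (hg.tf n hn t s (eig_repr (repr_pow hL.eig n) h3 h0).symm)
    rw [h4, zero_smul]
  have h3 : Z ∘ₗ F = F ∘ₗ Z := by
    refine P.ext fun s => ?_
    obtain ⟨a, ha⟩ := h2 s
    rw [LinearMap.comp_apply, LinearMap.comp_apply, hL.eig, map_smul, ha, map_smul, hL.eig,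
      smul_comm]
  refine LinearMap.ext fun w => funext fun s => hi ?_
  have h4 := congrFun (LinearMap.congr_fun h3 fun s => algebraMap k ℂ (w s)) s
  rw [LinearMap.comp_apply, LinearMap.comp_apply, hF, hZ, conj_bc, conj_bc, conj_bc, conj_bc] at h4
  exact h4

/-- The kernel of an endomorphism which commutes with an element with an irreducible factor of degree
six. -/
theorem ker_of_comm {T N : End k (Fin 7 → k)} {Q : Polynomial k}
    (hT : T.charpoly = (Polynomial.X - 1) * Q) (hsep : T.charpoly.Separable) (hQ : Irreducible Q)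
    (hN : N * T = T * N) {v : Fin 7 → k} (hv0 : v ≠ 0) (hv : T v = v) (hNv : N v = 0)
    (huniq : ∀ w, T w = w → ∃ a : k, w = a • v) (hN0 : N ≠ 0) {w : Fin 7 → k} (hw : N w = 0) :
    ∃ a : k, w = a • v := by
  by_cases hTw : T w = w
  · exact huniq w hTw
  exfalso
  apply hN0
  have hTN : ∀ x, N x = 0 → N (T x) = 0 := by
    intro x hx
    rw [← Module.End.mul_apply, hN, Module.End.mul_apply, hx, map_zero]
  have hker : ∀ x ∈ LinearMap.ker N, T x ∈ LinearMap.ker N := fun x hx => hTN x hx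
  set w' := T w - w with hw'
  have hw'0 : w' ≠ 0 := sub_ne_zero.2 hTw
  have hw'N : w' ∈ LinearMap.ker N := by
    rw [LinearMap.mem_ker, hw', map_sub, hTN w hw, hw, sub_zero]
  let T' := T.restrict hker
  have haev : ∀ (f : Polynomial k) (x : LinearMap.ker N),
      ((Polynomial.aeval T' f x : LinearMap.ker N) : Fin 7 → k) = Polynomial.aeval T f x := by
    intro f x
    induction f using Polynomial.induction_on' with
    | add p q hp hq => rw [map_add, map_add, LinearMap.add_apply, LinearMap.add_apply,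
        Submodule.coe_add, hp, hq]
    | monomial n a =>
      rw [Polynomial.aeval_monomial, Polynomial.aeval_monomial]
      rw [Module.End.mul_apply, Module.End.mul_apply, Module.algebraMap_end_apply,
        Module.algebraMap_end_apply, Submodule.coe_smul]
      congr 1
      have h1 := Module.End.pow_restrict n hker
      change (((T.restrict hker ^ n) x : LinearMap.ker N) : Fin 7 → k) = _
      rw [h1]
      rfl
  -- the factor divides the characteristic polynomial of the restriction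
  have hQw : Polynomial.aeval T Q w' = 0 := by
    have h1 : Polynomial.aeval T T.charpoly w = 0 := by
      rw [LinearMap.aeval_self_charpoly]
      rfl
    rw [hT, mul_comm, map_mul, Module.End.mul_apply] at h1
    rw [← h1]
    congr 1
    rw [map_sub, Polynomial.aeval_X, map_one]
    rfl
  have hdvd : Q ∣ T'.charpoly := by
    by_contra hnd
    obtain ⟨f, g, hfg⟩ := (hQ.coprime_iff_not_dvd.2 hnd)
    have h1 : Polynomial.aeval T (f * Q + g * T'.charpoly) w' = w' := by
      rw [hfg, map_one]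
      rfl
    rw [map_add, LinearMap.add_apply, map_mul, map_mul, Module.End.mul_apply, Module.End.mul_apply,
      hQw, map_zero, zero_add, ← haev T'.charpoly ⟨w', hw'N⟩, LinearMap.aeval_self_charpoly] at h1
    apply hw'0
    rw [← h1]
    exact map_zero _
  have hdvd1 : (Polynomial.X - 1 : Polynomial k) ∣ T'.charpoly := by
    rw [← Polynomial.C_1, Polynomial.dvd_iff_isRoot, ← Module.End.hasEigenvalue_iff_isRoot_charpoly]
    refine Module.End.hasEigenvalue_of_hasEigenvector (x := ⟨v, hNv⟩) ⟨?_, fun h0 => hv0 ?_⟩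
    · rw [Module.End.mem_eigenspace_iff, one_smul]
      exact Subtype.ext hv
    · exact congrArg Subtype.val h0
  have hcop : IsCoprime (Polynomial.X - 1 : Polynomial k) Q := by
    rw [hT] at hsep
    exact hsep.isCoprime
  have hdvd2 : T.charpoly ∣ T'.charpoly := by
    rw [hT]
    exact hcop.mul_dvd hdvd1 hdvd
  have h7 : 7 ≤ finrank k (LinearMap.ker N) := by
    have h1 := Polynomial.natDegree_le_of_dvd hdvd2 (LinearMap.charpoly_monic _).ne_zero
    rw [LinearMap.charpoly_natDegree, LinearMap.charpoly_natDegree, finrank_fin_fun] at h1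
    exact h1
  have htop : LinearMap.ker N = ⊤ := by
    apply Submodule.eq_top_of_finrank_eq
    rw [finrank_fin_fun]
    exact le_antisymm (by
      have h1 := Submodule.finrank_le (LinearMap.ker N)
      rwa [finrank_fin_fun] at h1) h7
  exact LinearMap.ker_eq_top.1 htop

/-- The discriminant, if a subgroup of finite index has a stable line. -/
theorem square_of_line (hJc : IsCross J c)
    (hinv : ∀ g x y, ρ g (cross c x y) = cross c (ρ g x) (ρ g y)) (γ : Γ)
    (hγ : GenericMat (LinearMap.toMatrix' (ρ γ))) {v : Fin 7 → k} (hBv : formB J v v ≠ 0)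
    {n : ℕ} (hn : 0 < n) {a : k} (ha : ρ (γ ^ n) v = a • v) :
    ∃ b : k, b ^ 2 = -formB J v v * disc (ρ γ) := by
  obtain ⟨v₁, hv₁0, hv₁, hBv₁, huniq₁, htr₁⟩ := exists_fixed hJc hinv γ hγ
  have hv0 : v ≠ 0 := by
    rintro rfl
    exact hBv (by rw [map_zero])
  have hform : ∀ g x y, formB J (ρ g x) (ρ g y) = formB J x y := by
    intro g
    refine form_inv two_ne_zero (isCrossB_of hJc) exists_not_mul (g := ρ g) ?_
      (fun x y => (hinv g x y).symm)
    intro x y hxy
    have h1 := congrArg (ρ g⁻¹) hxy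
    rwa [← Module.End.mul_apply, ← Module.End.mul_apply, ← map_mul, inv_mul_cancel, map_one,
      Module.End.one_apply, Module.End.one_apply] at h1
  have ha2 : a ^ 2 = 1 := by
    have h1 := hform (γ ^ n) v v
    rw [ha, map_smul, map_smul, LinearMap.smul_apply, smul_eq_mul, smul_eq_mul] at h1
    apply mul_right_cancel₀ hBv
    linear_combination h1
  have hfix : (ρ γ ^ (n * 2)) v = v := by
    rw [pow_mul, ← map_pow, pow_two, Module.End.mul_apply, ha, map_smul, ha, smul_smul, ← pow_two,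
      ha2, one_smul]
  obtain ⟨b, hb⟩ := huniq₁ (n * 2) (by omega) v hfix
  refine ⟨b * LinearMap.trace k _ (crossB c v₁ * ρ γ), ?_⟩
  rw [mul_pow, htr₁, hb, map_smul, map_smul, LinearMap.smul_apply, smul_eq_mul, smul_eq_mul]
  ring

/-- **The criterion.** Elements with generic eigenvalues; for one of them the factor of degree six
is irreducible, and the product of the discriminants of two of them is not a square. -/
theorem scalar_of_comm (hJc : IsCross J c)
    (hinv : ∀ g x y, ρ g (cross c x y) = cross c (ρ g x) (ρ g y)) (γ₀ γ₁ γ₂ : Γ)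
    (h₀ : GenericMat (LinearMap.toMatrix' (ρ γ₀))) (h₁ : GenericMat (LinearMap.toMatrix' (ρ γ₁)))
    (h₂ : GenericMat (LinearMap.toMatrix' (ρ γ₂)))
    {Q : Polynomial k} (hQ : Irreducible Q)
    (hQ₀ : (LinearMap.toMatrix' (ρ γ₀)).charpoly = (Polynomial.X - 1) * Q)
    (hd : ¬ IsSquare (disc (ρ γ₁) * disc (ρ γ₂))) {Δ : Subgroup Γ} (hΔ : Δ.FiniteIndex)
    {Y : End k (Fin 7 → k)} (hY : ∀ g ∈ Δ, Y * ρ g = ρ g * Y) : ∃ a : k, Y = a • 1 := by
  obtain ⟨v, hv0, hv, hBv, huniq, -⟩ := exists_fixed hJc hinv γ₀ h₀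
  obtain ⟨n, hn, -, hnΔ⟩ := Subgroup.exists_pow_mem_of_index_ne_zero hΔ.index_ne_zero γ₀
  obtain ⟨n₁, hn₁, -, hnΔ₁⟩ := Subgroup.exists_pow_mem_of_index_ne_zero hΔ.index_ne_zero γ₁
  obtain ⟨n₂, hn₂, -, hnΔ₂⟩ := Subgroup.exists_pow_mem_of_index_ne_zero hΔ.index_ne_zero γ₂
  have hYγ : Y * ρ γ₀ = ρ γ₀ * Y := by
    refine comm_of_pow hJc hinv γ₀ h₀ hn ?_
    rw [← map_pow]
    exact hY _ hnΔ
  obtain ⟨y₀, hy₀⟩ : ∃ y₀ : k, Y v = y₀ • v := by
    apply huniq 1 one_pos
    rw [pow_one, ← Module.End.mul_apply, ← hYγ, Module.End.mul_apply, hv]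
  set N : End k (Fin 7 → k) := Y - y₀ • 1 with hN
  by_cases hN0 : N = 0
  · exact ⟨y₀, sub_eq_zero.1 hN0⟩
  exfalso
  have hNv : N v = 0 := by
    rw [hN, LinearMap.sub_apply, hy₀, LinearMap.smul_apply, Module.End.one_apply, sub_self]
  have hNg : ∀ g ∈ Δ, N * ρ g = ρ g * N := by
    intro g hg
    rw [hN, sub_mul, mul_sub, hY g hg, smul_mul_assoc, mul_smul_comm, one_mul, mul_one]
  have hNγ : N * ρ γ₀ = ρ γ₀ * N := by
    rw [hN, sub_mul, mul_sub, hYγ, smul_mul_assoc, mul_smul_comm, one_mul, mul_one]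
  have hch : (ρ γ₀).charpoly = (Polynomial.X - 1) * Q := by
    rw [← LinearMap.charpoly_toMatrix (ρ γ₀) (Pi.basisFun k (Fin 7))]
    exact hQ₀
  have hsep : (ρ γ₀).charpoly.Separable := by
    rw [hch, ← hQ₀]
    have h3 := h₀.simple 1 one_pos
    rwa [pow_one] at h3
  have hker : ∀ w, N w = 0 → ∃ a : k, w = a • v := fun w hw =>
    ker_of_comm hch hsep hQ hNγ hv0 hv hNv (fun w hw => huniq 1 one_pos w (by rwa [pow_one])) hN0 hw
  -- the line is stable under the group
  have hline : ∀ g ∈ Δ, ∃ a : k, ρ g v = a • v := by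
    intro g hg
    apply hker
    rw [← Module.End.mul_apply, hNg _ hg, Module.End.mul_apply, hNv, map_zero]
  obtain ⟨a₁, ha₁⟩ := hline _ hnΔ₁
  obtain ⟨a₂, ha₂⟩ := hline _ hnΔ₂
  obtain ⟨b₁, hb₁⟩ := square_of_line hJc hinv γ₁ h₁ hBv hn₁ ha₁
  obtain ⟨b₂, hb₂⟩ := square_of_line hJc hinv γ₂ h₂ hBv hn₂ ha₂
  apply hd
  refine ⟨b₁ * b₂ / formB J v v, ?_⟩
  rw [div_mul_div_comm, eq_div_iff (mul_ne_zero hBv hBv)]
  have h2 : b₁ * b₂ * (b₁ * b₂) = b₁ ^ 2 * b₂ ^ 2 := by ring
  rw [h2, hb₁, hb₂]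
  ring

end Pool.Agent.H853.G2
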