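import Pool.Agent.H853.G2.Der

/-!
# Derivations of a cross product and a generic automorphism
-/

set_option autoImplicit false
set_option linter.unusedSectionVars false

namespace Pool.Agent.H853.G2

open Module

variable {K : Type*} [Field K] {E : Type*} [AddCommGroup E] [Module K E] {ι : Type*} [Fintype ι]
  [DecidableEq ι]
  (B : E →ₗ[K] E →ₗ[K] K) (m : E →ₗ[K] E →ₗ[K] E) (F : E →ₗ[K] E) (P : Basis ι K E)
  (lam : ι → K) (opp : ι → ι) (s₀ : ι)

/-- A basis of eigenvectors of an automorphism of the cross product. -/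
structure Lab : Prop where
  two : (2 : K) ≠ 0
  cross : IsCrossB B m
  nd : ∀ x, (∀ y, B x y = 0) → x = 0
  eig : ∀ s, F (P s) = lam s • P s
  inj : Function.Injective lam
  opp_mul : ∀ s, lam s * lam (opp s) = 1
  one : lam s₀ = 1
  aut : ∀ x y, F (m x y) = m (F x) (F y)
  form : ∀ x y, B (F x) (F y) = B x y

/-- The eigenvalues of the multiplication by the vector of weight one. -/
noncomputable def sgn (s : ι) : K := P.repr (m (P s₀) (P s)) s

variable {B m F P lam opp s₀}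

theorem repr_eig {T : E →ₗ[K] E} {μ : ι → K} (hT : ∀ s, T (P s) = μ s • P s) (x : E) (s : ι) :
    P.repr (T x) s = μ s * P.repr x s := by
  have h1 : T x = ∑ t, (μ t * P.repr x t) • P t := by
    conv_lhs => rw [← P.sum_repr x]
    rw [map_sum]
    refine Finset.sum_congr rfl fun t _ => ?_
    rw [map_smul, hT, smul_smul, mul_comm]
  rw [h1, map_sum, Finsupp.finsetSum_apply, Finset.sum_eq_single s]
  · rw [map_smul, Finsupp.smul_apply, P.repr_self, Finsupp.single_eq_same, smul_eq_mul, mul_one]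
  · intro t _ hts
    rw [map_smul, Finsupp.smul_apply, P.repr_self, Finsupp.single_apply, if_neg hts, smul_zero]
  · intro h2
    exact absurd (Finset.mem_univ _) h2

theorem eig_repr {T : E →ₗ[K] E} {μ : ι → K} (hT : ∀ s, T (P s) = μ s • P s) {x : E} {ν : K}
    (hx : T x = ν • x) {s : ι} (hs : P.repr x s ≠ 0) : ν = μ s := by
  have h1 := repr_eig hT x s
  rw [hx, map_smul, Finsupp.smul_apply, smul_eq_mul] at h1
  exact mul_right_cancel₀ hs h1

theorem exists_repr {x : E} (hx : x ≠ 0) : ∃ s, P.repr x s ≠ 0 := by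
  by_contra h
  push Not at h
  apply hx
  rw [← P.sum_repr x]
  exact Finset.sum_eq_zero fun s _ => by rw [h, zero_smul]

namespace Lab

/-- Eigenvectors are multiples of the basis vectors. -/
theorem eig_of (h : Lab B m F P lam opp s₀) {x : E} {s : ι} (hx : F x = lam s • x) :
    x = P.repr x s • P s := by
  conv_lhs => rw [← P.sum_repr x]
  refine Finset.sum_eq_single s (fun t _ hts => ?_) fun h2 => absurd (Finset.mem_univ _) h2
  have h1 : P.repr x t = 0 := by
    by_contra h0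
    exact hts (h.inj (eig_repr h.eig hx h0).symm)
  rw [h1, zero_smul]

/-- A non-zero eigenvector. -/
theorem exists_eig (h : Lab B m F P lam opp s₀) {x : E} (hx0 : x ≠ 0) {μ : K}
    (hx : F x = μ • x) : ∃ s, μ = lam s ∧ ∃ c : K, c ≠ 0 ∧ x = c • P s := by
  obtain ⟨s, hs⟩ := exists_repr (P := P) hx0
  have h1 := eig_repr h.eig hx hs
  exact ⟨s, h1, _, hs, h.eig_of (by rw [hx, h1])⟩

theorem lam_ne (h : Lab B m F P lam opp s₀) (s : ι) : lam s ≠ 0 := fun h0 => by
  have h1 := h.opp_mul s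
  rw [h0, zero_mul] at h1
  exact zero_ne_one h1

theorem lam_ne_one (h : Lab B m F P lam opp s₀) {s : ι} (hs : s ≠ s₀) : lam s ≠ 1 := fun h0 =>
  hs (h.inj (h0.trans h.one.symm))

theorem opp_opp (h : Lab B m F P lam opp s₀) (s : ι) : opp (opp s) = s := by
  apply h.inj
  apply mul_left_cancel₀ (h.lam_ne (opp s))
  rw [h.opp_mul, mul_comm, h.opp_mul]

theorem opp_s₀ (h : Lab B m F P lam opp s₀) : opp s₀ = s₀ := by
  apply h.inj
  have h1 := h.opp_mul s₀
  rw [h.one, one_mul] at h1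
  rw [h1, h.one]

theorem opp_ne (h : Lab B m F P lam opp s₀) {s : ι} (hs : s ≠ s₀) : opp s ≠ s₀ := fun h0 => by
  apply hs
  rw [← h.opp_opp s, h0, h.opp_s₀]

theorem form_opp (h : Lab B m F P lam opp s₀) {s t : ι} (hst : t ≠ opp s) :
    B (P s) (P t) = 0 := by
  have h1 := h.form (P s) (P t)
  rw [h.eig, h.eig, map_smul, map_smul, LinearMap.smul_apply, smul_eq_mul, smul_eq_mul] at h1
  by_contra h0
  apply hst
  have h2 : (lam s * lam t - 1) * B (P s) (P t) = 0 := by linear_combination h1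
  have h3 := sub_eq_zero.1 ((mul_eq_zero.1 h2).resolve_right h0)
  apply h.inj
  exact mul_left_cancel₀ (h.lam_ne s) (h3.trans (h.opp_mul s).symm)

theorem form_ne (h : Lab B m F P lam opp s₀) (s : ι) : B (P s) (P (opp s)) ≠ 0 := by
  intro h0
  apply P.ne_zero s
  apply h.nd
  intro y
  rw [← P.sum_repr y, map_sum]
  refine Finset.sum_eq_zero fun t _ => ?_
  rw [map_smul]
  by_cases ht : t = opp s
  · rw [ht, h0, smul_zero]
  · rw [h.form_opp ht, smul_zero]

theorem form_s₀ (h : Lab B m F P lam opp s₀) {s : ι} (hs : s ≠ s₀) : B (P s₀) (P s) = 0 :=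
  h.form_opp (by rw [h.opp_s₀]; exact hs)

theorem form_s₀_ne (h : Lab B m F P lam opp s₀) : B (P s₀) (P s₀) ≠ 0 := by
  have h1 := h.form_ne s₀
  rwa [h.opp_s₀] at h1

theorem mul_s₀ (h : Lab B m F P lam opp s₀) (s : ι) :
    m (P s₀) (P s) = sgn m P s₀ s • P s := by
  apply h.eig_of
  rw [h.aut, h.eig s₀, h.eig s, map_smul, h.one, one_smul]

theorem sgn_s₀ (h : Lab B m F P lam opp s₀) : sgn m P s₀ s₀ = 0 := by
  rw [sgn, h.cross.alt, map_zero]
  rfl

theorem sgn_sq (h : Lab B m F P lam opp s₀) {s : ι} (hs : s ≠ s₀) :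
    sgn m P s₀ s ^ 2 = -B (P s₀) (P s₀) := by
  have h1 := h.cross.twice (P s₀) (P s)
  rw [h.mul_s₀, map_smul, h.mul_s₀, h.form_s₀ hs, zero_smul, zero_sub, smul_smul, ← neg_smul] at h1
  have h2 := smul_left_injective K (P.ne_zero s) h1
  rw [pow_two]
  exact h2

theorem sgn_ne (h : Lab B m F P lam opp s₀) {s : ι} (hs : s ≠ s₀) : sgn m P s₀ s ≠ 0 := by
  intro h0
  have h1 := h.sgn_sq hs
  rw [h0, zero_pow two_ne_zero, eq_comm, neg_eq_zero] at h1
  exact h.form_s₀_ne h1

theorem sgn_eq_or (h : Lab B m F P lam opp s₀) {s t : ι} (hs : s ≠ s₀) (ht : t ≠ s₀) :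
    sgn m P s₀ s = sgn m P s₀ t ∨ sgn m P s₀ s = -sgn m P s₀ t := by
  rw [← sq_eq_sq_iff_eq_or_eq_neg, h.sgn_sq hs, h.sgn_sq ht]

theorem sgn_opp (h : Lab B m F P lam opp s₀) (s : ι) :
    sgn m P s₀ (opp s) = -sgn m P s₀ s := by
  have h1 := h.cross.skew (P s₀) (P s) (P (opp s))
  rw [h.mul_s₀, h.mul_s₀, map_smul, map_smul, LinearMap.smul_apply, smul_eq_mul, smul_eq_mul] at h1
  apply mul_right_cancel₀ (h.form_ne s)
  linear_combination h1

theorem ne_neg (h : Lab B m F P lam opp s₀) {s : ι} (hs : s ≠ s₀) :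
    sgn m P s₀ s ≠ -sgn m P s₀ s := by
  intro h0
  have h1 : 2 * sgn m P s₀ s = 0 := by linear_combination h0
  exact (mul_ne_zero h.two (h.sgn_ne hs)) h1

theorem ne_opp (h : Lab B m F P lam opp s₀) {s : ι} (hs : s ≠ s₀) : opp s ≠ s := by
  intro h0
  have h1 := h.sgn_opp s
  rw [h0] at h1
  exact h.ne_neg hs h1

/-- The product of vectors of opposite signs. -/
theorem mul_mixed (h : Lab B m F P lam opp s₀) {s t : ι} (hs : s ≠ s₀) (ht : t ≠ s₀)
    (hst : sgn m P s₀ t = -sgn m P s₀ s) (hne : t ≠ opp s) : m (P s) (P t) = 0 := by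
  have key : ∀ s t : ι, s ≠ s₀ → t ≠ s₀ → t ≠ opp s →
      m (P s₀) (m (P s) (P t)) = -(sgn m P s₀ t • m (P s) (P t)) := by
    intro s t hs ht hne
    have h1 := h.cross.twice2 (P s₀) (P s) (P t)
    rw [h.form_s₀ ht, h.form_s₀ hs, h.form_opp hne, h.mul_s₀ t, map_smul, zero_smul,
      zero_smul, mul_zero, zero_smul, add_zero, sub_zero] at h1
    exact eq_neg_of_add_eq_zero_left h1
  have h1 := key s t hs ht hne
  have h2 := key t s ht hs (fun h0 => hne (by rw [h0, h.opp_opp]))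
  rw [h.cross.anti (P t), map_neg, smul_neg, neg_neg, h1, neg_neg, hst] at h2
  have h3 : (2 * sgn m P s₀ s) • m (P s) (P t) = 0 := by
    rw [two_mul, add_smul]
    nth_rewrite 1 [← h2]
    rw [neg_smul, neg_add_cancel]
  exact (smul_eq_zero.1 h3).resolve_left (mul_ne_zero h.two (h.sgn_ne hs))

/-- The product of vectors of the same sign. -/
theorem mul_same (h : Lab B m F P lam opp s₀) {s t : ι} (hs : s ≠ s₀) (ht : t ≠ s₀)
    (hst : sgn m P s₀ t = sgn m P s₀ s) (hne : t ≠ s) :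
    ∃ w, w ≠ s₀ ∧ w ≠ s ∧ w ≠ t ∧ sgn m P s₀ w = sgn m P s₀ s ∧ lam s * lam t * lam w = 1 := by
  have hto : t ≠ opp s := by
    intro h0
    rw [h0, h.sgn_opp] at hst
    exact h.ne_neg hs hst.symm
  have hto' : t ≠ opp (opp s) := by rwa [h.opp_opp]
  have h0 : m (P s) (P t) ≠ 0 := by
    intro h0
    have h1 := h.cross.twice2 (P s) (P (opp s)) (P t)
    rw [h.mul_mixed (h.opp_ne hs) ht (by rw [h.sgn_opp, neg_neg, hst]) hto', h0, map_zero,
      map_zero, h.form_opp hto, h.form_opp hto', zero_smul, zero_smul, zero_add,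
      zero_sub, eq_comm, neg_eq_zero] at h1
    exact smul_ne_zero (mul_ne_zero h.two (h.form_ne s)) (P.ne_zero _) h1
  have hF : F (m (P s) (P t)) = (lam s * lam t) • m (P s) (P t) := by
    rw [h.aut, h.eig, h.eig, map_smul, map_smul, LinearMap.smul_apply, smul_smul, mul_comm]
  obtain ⟨v, hv, c, hc0, hc⟩ := h.exists_eig h0 hF
  have hM : m (P s₀) (m (P s) (P t)) = -(sgn m P s₀ t • m (P s) (P t)) := by
    have h1 := h.cross.twice2 (P s₀) (P s) (P t)
    rw [h.form_s₀ ht, h.form_s₀ hs, h.form_opp hto, h.mul_s₀ t, map_smul, zero_smul,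
      zero_smul, mul_zero, zero_smul, add_zero, sub_zero] at h1
    exact eq_neg_of_add_eq_zero_left h1
  rw [hc, map_smul, h.mul_s₀, smul_smul, smul_smul, ← neg_smul] at hM
  have h1 := smul_left_injective K (P.ne_zero v) hM
  have hsv : sgn m P s₀ v = -sgn m P s₀ s := by
    apply mul_left_cancel₀ hc0
    change c * sgn m P s₀ v = -(sgn m P s₀ t * c) at h1
    rw [h1, hst]
    ring
  have hv0 : v ≠ s₀ := by
    rintro rfl
    rw [h.sgn_s₀, eq_comm, neg_eq_zero] at hsv
    exact h.sgn_ne hs hsv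
  have ho : ∀ u, B (m (P s) (P t)) (P u) = 0 → opp v ≠ u := by
    rintro u hu rfl
    rw [hc, map_smul, LinearMap.smul_apply, smul_eq_mul] at hu
    exact (mul_ne_zero hc0 (h.form_ne v)) hu
  refine ⟨opp v, h.opp_ne hv0, ho s (h.cross.orth _ _), ho t ?_, ?_, ?_⟩
  · rw [h.cross.anti, map_neg, LinearMap.neg_apply, h.cross.orth, neg_zero]
  · rw [h.sgn_opp, hsv, neg_neg]
  · rw [hv, h.opp_mul]

end Lab

end Pool.Agent.H853.G2
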