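import Pool.Agent.H853.G2.Gen

/-!
# Semisimplicity of representations with values in `G₂`: representations with a rational point
-/

set_option autoImplicit false
set_option linter.unusedSectionVars false

open NumberField IsDedekindDomain Module Matrix

namespace Pool.Agent.H853.G2

open Pool.Agent.K7.H9.SS Pool.Agent.K7.H9.HT
open Pool.Agent.W569.FM Pool.Agent.W571.FM Pool.Agent.Y115.Chi Pool.Agent.Y115.T
  Pool.Agent.Y115.R Pool.Agent.Y115.CQ

section rat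

variable (ℓ : ℕ) [hℓ : Fact ℓ.Prime]
  {𝕂 : Type} [NormedField 𝕂] [NormedAlgebra ℚ_[ℓ] 𝕂] [FiniteDimensional ℚ_[ℓ] 𝕂]
  {G : Type*} [Group G]

/-- Three prime numbers (different from `ℓ`) at which the representation is pure of weight `0`, at one of
them with good reduction. -/
structure ThreePrimes {n : ℕ} (ρ : Gal(AlgebraicClosure ℚ/ℚ) →* GL (Fin n) 𝕂) : Prop where
  exists_data : ∃ (j : 𝕂 →+* ℂ) (R : HeightOneSpectrum (𝓞 ℚ) → Multiset ℂ) (T : Set ℕ),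
    3 ≤ T.encard ∧ (∀ p ∈ T, p.Prime ∧ p ≠ ℓ) ∧
    (∀ p ∈ T, ∀ v, Above v p → PureAt ρ j 0 v (R v)) ∧
    ∃ p ∈ T, ∀ v, Above v p → ∀ a ∈ R v, ‖a‖ = 1

theorem ThreePrimes.exists_finite {n : ℕ} {ρ : Gal(AlgebraicClosure ℚ/ℚ) →* GL (Fin n) 𝕂}
    (hρ : Continuous ρ) (h : ThreePrimes ℓ ρ) (U : Submodule 𝕂 (Fin n → 𝕂)) (hU : Stable ρ U)
    (hU' : ∀ g, U ≤ U.comap (act ρ g)) : ∃ N : ℕ, 0 < N ∧ ∀ g, dt ρ U hU' g ^ N = 1 := by
  obtain ⟨j, R, T, hT3, hT, hR, hgood⟩ := h.exists_data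
  obtain ⟨N, A, hN, hdt, hwA⟩ := exists_char ℓ ρ hρ j 0 R T hT3
    (fun p hp => ⟨(hT p hp).1, (hT p hp).2, unramifiedIn_rat (hT p hp).1⟩) hR
    (by
      obtain ⟨p, hp, h1⟩ := hgood
      exact ⟨p, hp, fun v hv a ha => by rw [h1 v hv a ha, one_pow, zpow_zero]⟩) U hU hU'
  have hA0 : A = 0 := by
    rw [zero_mul, zero_mul] at hwA
    omega
  refine ⟨N, hN, fun g => ?_⟩
  rw [hdt, hA0, zpow_zero]

/-- **Semisimplicity of representations with values in `G₂`.** -/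
theorem semisimple_rat (ρ : G →* GL (Fin 7) 𝕂) (s : Gal(AlgebraicClosure ℚ/ℚ) →* G)
    (hcont : Continuous (ρ.comp s)) {J : Matrix (Fin 7) (Fin 7) 𝕂}
    {c : Fin 7 → Fin 7 → Fin 7 → 𝕂} (hJc : IsCross J c) (hinv : Preserves ρ c)
    (h3p : ThreePrimes ℓ (ρ.comp s))
    (hreg : (∃ (i : 𝕂 →ₐ[ℚ_[ℓ]] PadicComplex ℓ) (e : AlgebraicClosure ℚ →+* PadicComplex ℓ)
        (a : Fin 7 → ℤ), Function.Injective a ∧ HodgeTate (ρ.comp s) i e a) ∨
      ∃ g, SimplePowers (ρ (s g) : Matrix (Fin 7) (Fin 7) 𝕂)) :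
    SemisimpleG ρ := by
  classical
  have hcompl : CompleteSpace 𝕂 := FiniteDimensional.complete ℚ_[ℓ] 𝕂
  have hultra : IsUltrametricDist 𝕂 := IsUltrametricDist.of_normedAlgebra ℚ_[ℓ]
  have hchar : CharZero 𝕂 := charZero_of_injective_algebraMap (algebraMap ℚ_[ℓ] 𝕂).injective
  have h2 : (2 : 𝕂) ≠ 0 := two_ne_zero
  have hst : ∀ U, StableG ρ U → Stable (ρ.comp s) U := fun U hU g x hx => hU (s g) x hx
  rcases hreg with ⟨i, e, a, ha, hHT⟩ | ⟨g, hg⟩
  · have htate : TateTheorem i e := Pool.Agent.K7.H9.AST.tateTheorem i e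
    obtain ⟨P, hPdet, hP⟩ := hHT
    let i' : 𝕂 →+* PadicComplex ℓ := (i : 𝕂 →+* PadicComplex ℓ)
    have hcharΩ : CharZero (PadicComplex ℓ) := charZero_of_injective_ringHom i'.injective
    -- the semilinear action
    let Γ : Type := {q : (PadicComplex ℓ ≃+* PadicComplex ℓ) × GF ℚ // Induces i e q.1 q.2}
    let h : Γ → PadicComplex ℓ ≃+* PadicComplex ℓ := fun γ => γ.1.1
    let x : Γ → PadicComplex ℓ := fun γ => cyc ℓ γ.1.2
    have hcyc : ∀ g : GF ℚ, cyc ℓ g = i ((chiE ℓ 𝕂 g : 𝕂ˣ) : 𝕂) := by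
      intro g
      rw [coe_chiE, AlgHom.commutes]
      rfl
    have hx : ∀ γ, x γ ≠ 0 := by
      intro γ
      change cyc ℓ γ.1.2 ≠ 0
      rw [hcyc]
      exact (map_ne_zero i).2 (Units.ne_zero _)
    have tate : ∀ m : ℤ, m ≠ 0 → ∀ c : PadicComplex ℓ, (∀ γ, h γ c = x γ ^ m * c) → c = 0 :=
      fun m hm c hc => htate m hm c fun h' g hg => hc ⟨(h', g), hg⟩
    let R' : Γ → Matrix (Fin 7) (Fin 7) (PadicComplex ℓ) :=
      fun γ => (mat (ρ.comp s) γ.1.2).map i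
    have hR' : ∀ γ, R' γ * P.map (h γ) = P * Matrix.diagonal fun s => x γ ^ (-a s) :=
      fun γ => hP γ.1.1 γ.1.2 γ.2
    have hRc : ∀ γ v w, cross (mapC i' c) ((R' γ).mulVec v) ((R' γ).mulVec w) =
        (R' γ).mulVec (cross (mapC i' c) v w) := fun γ v w =>
      cross_map_mulVec i' (M := mat (ρ.comp s) γ.1.2) (hinv (s γ.1.2)) v w
    have hJi : ∀ γ, (R' γ)ᵀ * J.map i * R' γ = x γ ^ (-(0 : ℤ)) • J.map i := by
      intro γ
      have h3 : (mat (ρ.comp s) γ.1.2)ᵀ * J * mat (ρ.comp s) γ.1.2 = J :=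
        form_matrix (form_of_preserves h2 hJc hinv (s γ.1.2))
      have h4 := congrArg (fun M : Matrix (Fin 7) (Fin 7) 𝕂 => M.map i) h3
      simp only [Matrix.map_mul] at h4
      rw [neg_zero, zpow_zero, one_smul]
      exact h4
    have hfixJ : ∀ γ, (J.map i).map (h γ) = J.map i := by
      intro γ
      ext s t
      exact γ.2.fix _
    refine semisimple_of_weights (P := P) (a := a) h2 hJc hinv i' hPdet ha ?_ ?_ ?_
    · intro s t hst
      exact gram h x hx tate a P R' hR' (J.map i) hfixJ hJi s t hst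
    · intro s t
      exact cross_weights h x hx tate a P hPdet R' hR' (mapC i' c) (fun γ s t u => γ.2.fix _) hRc
        s t
    · intro U hU
      have hU2 := hst U hU
      have hU' : ∀ g, U ≤ U.comap (act (ρ.comp s) g) := fun g x hx => hU2 g x hx
      obtain ⟨N, hN, hdt⟩ := h3p.exists_finite ℓ hcont U hU2 hU'
      obtain ⟨S, h3, h4, h5, h6⟩ := exists_S ℓ (ρ.comp s) ha htate hPdet hP hU2 hU' hN
        (A := 0) (fun g => by rw [hdt, zpow_zero])
      refine ⟨S, h3, h4, h5, ?_⟩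
      rw [neg_zero] at h6
      exact (mul_eq_zero.1 h6).resolve_left (Nat.cast_ne_zero.2 hN.ne')
  · refine semisimple_of_elt hJc hinv (s g) hg fun U hU => ?_
    have hU2 := hst U hU
    have hU' : ∀ g, U ≤ U.comap (act (ρ.comp s) g) := fun g x hx => hU2 g x hx
    obtain ⟨N, hN, hdt⟩ := h3p.exists_finite ℓ hcont U hU2 hU'
    refine ⟨N, hN, ?_⟩
    have h3 := congrArg Units.val (hdt g)
    rw [Units.val_pow_eq_pow_val, Units.val_one, coe_dt] at h3
    exact h3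

end rat

end Pool.Agent.H853.G2
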