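import Pool.Agent.H853.G2.Irr
import Pool.Agent.H853.G2.Rat
import Pool.Graph.R_seed8.Y220.RM.TFR
import Pool.Graph.R_seed8.Y114.GF.Clifford

/-!
# The monodromy Lie algebra of type `G₂`
-/

set_option autoImplicit false
set_option linter.unusedSectionVars false

namespace Pool.Agent.H853.G2

open Module TensorProduct Pool.Agent.TH118.SG Pool.Agent.Y114.RM Pool.Agent.Y86.RM Pool.Agent.Y914.RM
  Pool.Agent.Y212.RM Pool.Agent.NH34.BD Pool.Agent.Y114.MU Pool.Agent.H204R3.GP Pool.Agent.H853.SR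
  Pool.Agent.Y114.TF

variable {ℓ : ℕ} [Fact ℓ.Prime] [Algebra ℚ_[ℓ] ℂ] {Γ : Type} [Group Γ] [TopologicalSpace Γ]
  [IsTopologicalGroup Γ] [CompactSpace Γ] {ρ : Representation ℚ_[ℓ] Γ (Fin 7 → ℚ_[ℓ])}
  {J : Matrix (Fin 7) (Fin 7) ℚ_[ℓ]} {c : Fin 7 → Fin 7 → Fin 7 → ℚ_[ℓ]}

theorem cont_AdE (hρ : Continuous fun g => LinearMap.toMatrix' (ρ g))
    (X : End ℚ_[ℓ] (Fin 7 → ℚ_[ℓ])) (x : Fin 7 → ℚ_[ℓ]) :
    Continuous fun γ => AdE (ρ γ) (ρ γ⁻¹) X x := by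
  have h0 : ∀ (g : Γ → Γ), Continuous g → ∀ y : Γ → (Fin 7 → ℚ_[ℓ]), Continuous y →
      Continuous fun γ => ρ (g γ) (y γ) := by
    intro g hg y hy
    have h2 : ∀ γ, ρ (g γ) (y γ) = (LinearMap.toMatrix' (ρ (g γ))).mulVec (y γ) := by
      intro γ
      rw [LinearMap.toMatrix'_mulVec]
    have h3 : Continuous fun γ => (LinearMap.toMatrix' (ρ (g γ))).mulVec (y γ) :=
      (hρ.comp hg).matrix_mulVec hy
    exact h3.congr fun γ => (h2 γ).symm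
  have h4 : Continuous fun γ : Γ => ρ γ⁻¹ x := h0 _ continuous_inv _ continuous_const
  have h5 : Continuous X := LinearMap.continuous_of_finiteDimensional X
  exact h0 id continuous_id _ (h5.comp h4)

/-- **The local theorem.** -/
theorem local_G2 (hρ : Continuous fun g => LinearMap.toMatrix' (ρ g)) (hJc : IsCross J c)
    (hinv : ∀ g x y, ρ g (cross c x y) = cross c (ρ g x) (ρ g y))
    (hss : FiniteIndexSemisimple ρ) (γ₀ γ₁ γ₂ : Γ)
    (h₀ : GenericMat (LinearMap.toMatrix' (ρ γ₀))) (h₁ : GenericMat (LinearMap.toMatrix' (ρ γ₁)))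
    (h₂ : GenericMat (LinearMap.toMatrix' (ρ γ₂)))
    {Q : Polynomial ℚ_[ℓ]} (hQ : Irreducible Q)
    (hQ₀ : (LinearMap.toMatrix' (ρ γ₀)).charpoly = (Polynomial.X - 1) * Q)
    (hd : ¬ IsSquare (disc (ρ γ₁) * disc (ρ γ₂))) (X : End ℚ_[ℓ] (Fin 7 → ℚ_[ℓ])) :
    X ∈ DerOf (crossB c) ↔
      ∀ (m : ℕ) (φ : Tensor ℚ_[ℓ] (Fin 7 → ℚ_[ℓ]) m), TateTensor ρ φ → KillsTensor X φ := by
  obtain ⟨L, hL, hLie, hAd, -⟩ := inputs.lie ℚ_[ℓ] (Fin 7 → ℚ_[ℓ]) _ ρ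
  have hc := isCrossB_of hJc
  have hnd : ∀ x, (∀ z, formB J x z = 0) → x = 0 := by
    intro x hx
    by_contra hne
    obtain ⟨z, hz⟩ := nondeg_of_cross hJc x hne
    exact hz (hx z)
  have hform : ∀ g x y, formB J (ρ g x) (ρ g y) = formB J x y := by
    intro g
    refine form_inv two_ne_zero hc exists_not_mul (g := ρ g) ?_ (fun x y => (hinv g x y).symm)
    intro x y hxy
    have h1 := congrArg (ρ g⁻¹) hxy
    rwa [← Module.End.mul_apply, ← Module.End.mul_apply, ← map_mul, inv_mul_cancel, map_one,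
      Module.End.one_apply, Module.End.one_apply] at h1
  have hle : ∀ X : End ℚ_[ℓ] (Fin 7 → ℚ_[ℓ]), (∀ (m : ℕ) (φ : Tensor ℚ_[ℓ] (Fin 7 → ℚ_[ℓ]) m),
      TateTensor ρ φ → KillsTensor X φ) → X ∈ DerOf (crossB c) := fun X hX =>
    le_der hinv hform hnd hX
  refine ⟨fun hX => ?_, hle X⟩
  have hLG : L ≤ DerOf (crossB c) := fun Y hY => hle Y ((hL Y).1 hY).2
  have hmain := local_main ρ inputs inputs2 hss hL hLie hAd (isLie_der _)
    (closed_der two_ne_zero hc exists_not_mul hnd) hLG γ₀ (stronglyRegular hJc hinv γ₀ h₀)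
  obtain ⟨Δ, hΔ, hcomm⟩ := Pool.Agent.Y220.RM.tfr_abs ρ (cont_AdE hρ) (comm L)
    (comm_conj ρ hAd) (comm_order ρ inputs inputs2 hL)
  have hscal : ∀ Y ∈ comm L, ∃ a : ℚ_[ℓ], Y = a • 1 := fun Y hY =>
    scalar_of_comm hJc hinv γ₀ γ₁ γ₂ h₀ h₁ h₂ hQ hQ₀ hd hΔ fun g hg => (hcomm g hg Y hY).symm
  obtain ⟨x, hx, z, hz, hxz⟩ := hmain X ⟨hX, fun Y hY => by
    obtain ⟨a, rfl⟩ := hscal Y hY
    rw [mul_smul_comm, smul_mul_assoc, one_mul, mul_one]⟩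
  have hzG : z ∈ DerOf (crossB c) := hz.1.1
  obtain ⟨a, ha⟩ := hscal z fun Y hY => (hz.2 Y ⟨hLG hY, fun Z hZ => hZ Y hY⟩).symm
  have ha0 : a = 0 := by
    obtain ⟨v, -, -, hBv, -⟩ := exists_fixed hJc hinv γ₀ h₀
    have h1 := der_skew two_ne_zero hc exists_not_mul hzG v v
    rw [ha, LinearMap.smul_apply, Module.End.one_apply, map_smul, map_smul, LinearMap.smul_apply,
      smul_eq_mul] at h1
    have h3 : (2 * formB J v v) * a = 0 := by linear_combination h1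
    exact (mul_eq_zero.1 h3).resolve_left (mul_ne_zero two_ne_zero hBv)
  rw [ha0, zero_smul] at ha
  rw [hxz, ha, add_zero]
  exact ((hL x).1 hx).2

end Pool.Agent.H853.G2
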