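import Pool.Agent.H853.G2.Irr
import Pool.Agent.H853.G2.Dens

/-!
# Rational characteristic polynomials
-/

set_option autoImplicit false
set_option linter.unusedSectionVars false

namespace Pool.Agent.H853.G2

open Module Polynomial

/-- A rational polynomial `P` is generic: the complex roots are simple, no quotient of different roots is
a root of unity, and no root different from `1` has a square which is a root. -/
structure Generic (P : ℚ[X]) : Prop where
  separable : P.Separable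
  torsionFree : ∀ x y : ℂ, aeval x P = 0 → aeval y P = 0 → ∀ n : ℕ, 0 < n → x ^ n = y ^ n → x = y
  square : ∀ x : ℂ, aeval x P = 0 → aeval (x ^ 2) P = 0 → x = 1

/-- The discriminant of the characteristic polynomial `P` (of degree `7`) of an automorphism of a cross
product: `(t - t')²`, if `P = (X - 1) (X³ - t X² + t' X - 1) (X³ - t' X² + t X - 1)`. -/
def crossDiscr (P : ℚ[X]) : ℚ := P.coeff 6 ^ 2 - 4 * P.coeff 5 - 6 * P.coeff 6 - 7

section esymm

variable {K : Type*} [Field K] [CharZero K]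

theorem prod_coeff (lam : Fin 7 → K) :
    (∏ s, (X - C (lam s))).coeff 6 = -∑ s, lam s ∧
      2 * (∏ s, (X - C (lam s))).coeff 5 = (∑ s, lam s) ^ 2 - ∑ s, lam s ^ 2 := by
  have h1 : (∏ s, (X - C (lam s))) =
      ((Finset.univ.val.map lam).map fun t => X - C t).prod := by
    rw [Multiset.map_map]
    rfl
  have hcard : Multiset.card (Finset.univ.val.map lam) = 7 := by
    rw [Multiset.card_map]
    rfl
  have e1 : ∀ k, (Finset.univ.val.map lam).esymm k = MvPolynomial.aeval lam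
      (MvPolynomial.esymm (Fin 7) ℤ k) := fun k =>
    (MvPolynomial.aeval_esymm_eq_multiset_esymm (Fin 7) ℤ k lam).symm
  have p1 : ∀ k, MvPolynomial.aeval lam (MvPolynomial.psum (Fin 7) ℤ k) = ∑ s, lam s ^ k := by
    intro k
    rw [MvPolynomial.psum, map_sum]
    exact Finset.sum_congr rfl fun s _ => by rw [map_pow, MvPolynomial.aeval_X]
  have n1 : MvPolynomial.aeval lam (MvPolynomial.esymm (Fin 7) ℤ 1) = ∑ s, lam s := by
    rw [MvPolynomial.esymm_one, map_sum]
    exact Finset.sum_congr rfl fun s _ => by rw [MvPolynomial.aeval_X]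
  have n2 : 2 * MvPolynomial.aeval lam (MvPolynomial.esymm (Fin 7) ℤ 2) =
      (∑ s, lam s) ^ 2 - ∑ s, lam s ^ 2 := by
    have h2 := congrArg (MvPolynomial.aeval lam) (MvPolynomial.mul_esymm_eq_sum (Fin 7) ℤ 2)
    have h3 : (Finset.HasAntidiagonal.antidiagonal 2).filter (fun a : ℕ × ℕ => a.1 < 2) = {(0, 2), (1, 1)} := by
      decide
    rw [h3, Finset.sum_insert (by decide), Finset.sum_singleton] at h2
    simp only [map_mul, map_add, map_pow, map_neg, map_one, map_ofNat, Nat.cast_ofNat, n1, p1,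
      MvPolynomial.esymm_zero, pow_one, pow_zero] at h2
    rw [h2]
    ring
  constructor
  · rw [h1, Multiset.prod_X_sub_C_coeff _ (by rw [hcard]; norm_num), hcard, e1, n1]
    ring
  · rw [h1, Multiset.prod_X_sub_C_coeff _ (by rw [hcard]; norm_num), hcard, e1, ← n2]
    ring

end esymm

section gen

variable {k : Type} [Field k] [CharZero k] [Algebra k ℂ]

theorem rat_hom (x : ℚ) : algebraMap k ℂ (algebraMap ℚ k x) = (x : ℂ) := by
  rw [eq_ratCast (algebraMap ℚ k), map_ratCast]

theorem eval_rat (P : ℚ[X]) (x : ℂ) :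
    eval₂ (algebraMap k ℂ) x (P.map (algebraMap ℚ k)) = aeval x P := by
  rw [eval₂_map, aeval_def]
  congr 1
  ext
  simp

variable {M : Matrix (Fin 7) (Fin 7) k} {P : ℚ[X]}

/-- The eigenvalues of a matrix with a generic rational characteristic polynomial. -/
theorem exists_eigs (hM : M.charpoly = P.map (algebraMap ℚ k)) (hP : Generic P) :
    ∃ (Bs : Basis (Fin 7) ℂ (Fin 7 → ℂ)) (lam : Fin 7 → ℂ), Function.Injective lam ∧
      (∀ s, Matrix.toLin' (M.map (algebraMap k ℂ)) (Bs s) = lam s • Bs s) ∧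
      ∀ s, aeval (lam s) P = 0 := by
  have hsep : M.charpoly.Separable := by
    rw [hM]
    exact hP.separable.map
  obtain ⟨P', lam, hP', hlam, hev, hroot⟩ := exists_eigenbasis (algebraMap k ℂ) hsep
  have htop : ⊤ ≤ Submodule.span ℂ (Set.range P') :=
    (hP'.span_eq_top_of_card_eq_finrank' (by rw [Fintype.card_fin, finrank_fin_fun])).ge
  refine ⟨Basis.mk hP' htop, lam, hlam, fun s => ?_, fun s => ?_⟩
  · rw [Basis.mk_apply, Matrix.toLin'_apply, hev]
  · rw [← eval_rat (k := k), ← hM]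
    exact hroot s

theorem charpoly_of_eigs {N : Matrix (Fin 7) (Fin 7) ℂ} {Bs : Basis (Fin 7) ℂ (Fin 7 → ℂ)}
    {μ : Fin 7 → ℂ} (h : ∀ s, Matrix.toLin' N (Bs s) = μ s • Bs s) :
    N.charpoly = ∏ s, (X - C (μ s)) := by
  have h1 : LinearMap.toMatrix Bs Bs (Matrix.toLin' N) = Matrix.diagonal μ := by
    ext s t
    rw [LinearMap.toMatrix_apply, h, map_smul, Bs.repr_self, Finsupp.smul_apply,
      Finsupp.single_apply, Matrix.diagonal_apply, smul_eq_mul]
    by_cases hst : s = t
    · rw [if_pos hst.symm, if_pos hst, hst, mul_one]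
    · rw [if_neg (Ne.symm hst), if_neg hst, mul_zero]
  rw [← Matrix.charpoly_toLin', ← LinearMap.charpoly_toMatrix (Matrix.toLin' N) Bs, h1,
    Matrix.charpoly_diagonal]

theorem toLin_pow {N : Matrix (Fin 7) (Fin 7) ℂ} {v : Fin 7 → ℂ} {z : ℂ}
    (h : Matrix.toLin' N v = z • v) (m : ℕ) : Matrix.toLin' (N ^ m) v = z ^ m • v := by
  rw [Matrix.toLin'_apply] at h ⊢
  exact mulVec_pow h m

/-- A matrix with a generic rational characteristic polynomial. -/
theorem genericMat_of (hM : M.charpoly = P.map (algebraMap ℚ k)) (hP : Generic P) :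
    GenericMat M := by
  obtain ⟨Bs, lam, hlam, hev, hroot⟩ := exists_eigs hM hP
  refine ⟨fun m hm => ?_, fun x hx hx2 => ?_⟩
  · have h1 : ((M ^ m).map (algebraMap k ℂ)).charpoly = ∏ s, (X - C (lam s ^ m)) := by
      refine charpoly_of_eigs (Bs := Bs) fun s => ?_
      have h2 : (M ^ m).map (algebraMap k ℂ) = (M.map (algebraMap k ℂ)) ^ m :=
        Matrix.map_pow M (algebraMap k ℂ) m
      rw [h2]
      exact toLin_pow (hev s) m
    have h2 : ((M ^ m).charpoly.map (algebraMap k ℂ)).Separable := by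
      rw [← Matrix.charpoly_map, h1, separable_prod_X_sub_C_iff]
      exact fun s t hst => hlam (hP.torsionFree _ _ (hroot s) (hroot t) m hm hst)
    exact (separable_map _).1 h2
  · rw [hM, eval_rat] at hx hx2
    exact hP.square x hx hx2

theorem disc_of (hM : M.charpoly = P.map (algebraMap ℚ k)) (hP : Generic P) :
    disc (Matrix.toLin' M) = algebraMap ℚ k (crossDiscr P) := by
  obtain ⟨Bs, lam, hlam, hev, hroot⟩ := exists_eigs hM hP
  apply (algebraMap k ℂ).injective
  have hch : P.map (algebraMap ℚ ℂ) = ∏ s, (X - C (lam s)) := by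
    rw [← charpoly_of_eigs hev, Matrix.charpoly_map, hM, Polynomial.map_map]
    congr 1
    ext
    simp
  obtain ⟨c6, c5⟩ := prod_coeff lam
  rw [← hch, coeff_map] at c6 c5
  have ht : ∀ N : Matrix (Fin 7) (Fin 7) k, algebraMap k ℂ (LinearMap.trace k _ (Matrix.toLin' N)) =
      LinearMap.trace ℂ _ (Matrix.toLin' (N.map (algebraMap k ℂ))) := by
    intro N
    rw [Matrix.trace_toLin'_eq, Matrix.trace_toLin'_eq]
    exact AddMonoidHom.map_trace (algebraMap k ℂ).toAddMonoidHom N
  have t1 : algebraMap k ℂ (LinearMap.trace k _ (Matrix.toLin' M)) = ∑ s, lam s := by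
    rw [ht]
    exact trace_eig hev
  have t2 : algebraMap k ℂ (LinearMap.trace k _ (Matrix.toLin' M * Matrix.toLin' M)) =
      ∑ s, lam s ^ 2 := by
    rw [Module.End.mul_eq_comp, ← Matrix.toLin'_mul, ht]
    refine trace_eig (P := Bs) fun s => ?_
    rw [Matrix.map_mul, ← pow_two]
    exact toLin_pow (hev s) 2
  rw [disc, rat_hom, crossDiscr]
  simp only [map_sub, map_add, map_mul, map_pow, map_ofNat, t1, t2]
  push_cast
  have c6' : ((P.coeff 6 : ℚ) : ℂ) = -∑ s, lam s := c6
  have c5' : 2 * ((P.coeff 5 : ℚ) : ℂ) = (∑ s, lam s) ^ 2 - ∑ s, lam s ^ 2 := c5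
  rw [c6']
  linear_combination 2 * c5'

end gen

section lift

variable {ℓ : ℕ} [Fact ℓ.Prime] {L : IntermediateField ℚ ℂ} {τ : L → L} {P Q : ℚ[X]}

/-- The factor of degree six is irreducible, if the automorphism is transitive on its roots. -/
theorem irreducible_of_lift (h : Lifts τ ℓ) (hP : P.Separable) (hPQ : P = (X - 1) * Q)
    (hQ : Q.Monic) (hQ0 : Q ≠ 1) (hL : ∀ x : ℂ, aeval x P = 0 → x ∈ L)
    (htr : ∀ x y : L, aeval (x : ℂ) Q = 0 → aeval (y : ℂ) Q = 0 → ∃ n : ℕ, (τ^[n]) x = y) :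
    Irreducible (Q.map (algebraMap ℚ ℚ_[ℓ])) := by
  classical
  obtain ⟨ι, σ, hσ⟩ := h
  have hQL : ∀ x : ℂ, aeval x Q = 0 → x ∈ L := fun x hx => hL x (by
    rw [hPQ, map_mul, hx, mul_zero])
  have hQsep : Q.Separable := by
    rw [hPQ] at hP
    exact hP.of_mul_right
  have hdeg : 0 < Q.natDegree := by
    rcases Nat.eq_zero_or_pos Q.natDegree with h1 | h1
    · exact absurd (hQ.natDegree_eq_zero.1 h1) hQ0
    · exact h1
  obtain ⟨a, ha⟩ : ∃ a : ℂ, aeval a Q = 0 :=
    IsAlgClosed.exists_aeval_eq_zero ℂ Q (by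
      rw [Polynomial.degree_eq_natDegree hQ.ne_zero]
      exact_mod_cast hdeg.ne')
  have hιrat : ∀ (x : L) (R : ℚ[X]), aeval (x : ℂ) R = 0 → aeval (ι x) R = 0 := by
    intro x R hx
    have h1 : aeval (ι x) R = ι (eval₂ (algebraMap ℚ L) x R) := by
      rw [hom_eval₂, aeval_def]
      congr 1
      ext
      simp
    have h2 : eval₂ (algebraMap ℚ L) x R = 0 := by
      apply Subtype.ext
      have h3 : ((eval₂ (algebraMap ℚ L) x R : L) : ℂ) = aeval (x : ℂ) R := by
        have h4 := hom_eval₂ R (algebraMap ℚ L) L.val.toRingHom x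
        have h5 : (L.val.toRingHom.comp (algebraMap ℚ L)) = algebraMap ℚ ℂ := by
          ext
          simp
        rw [h5] at h4
        exact h4
      rw [h3, hx]
      rfl
    rw [h1, h2, map_zero]
  let a' : L := ⟨a, hQL a ha⟩
  set q := minpoly ℚ_[ℓ] (ι a') with hq
  have hint : IsIntegral ℚ_[ℓ] (ι a') := Algebra.IsIntegral.isIntegral _
  have hdvd : q ∣ Q.map (algebraMap ℚ ℚ_[ℓ]) := by
    apply minpoly.dvd
    rw [aeval_map_algebraMap]
    exact hιrat a' Q ha
  have hiter : ∀ (n : ℕ) (x : L), ι ((τ^[n]) x) = (σ ^ n) (ι x) := by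
    intro n
    induction n with
    | zero => intro x; rfl
    | succ n ih =>
      intro x
      rw [Function.iterate_succ_apply, ih, ← hσ, pow_succ]
      rfl
  have hroots : ∀ y : ℂ, (hy : aeval y Q = 0) → aeval (ι ⟨y, hQL y hy⟩) q = 0 := by
    intro y hy
    obtain ⟨n, hn⟩ := htr a' ⟨y, hQL y hy⟩ ha hy
    rw [← hn, hiter]
    have h1 : aeval ((σ ^ n) (ι a')) q = (σ ^ n) (aeval (ι a') q) := by
      rw [aeval_algHom_apply (σ ^ n : AlgebraicClosure ℚ_[ℓ] ≃ₐ[ℚ_[ℓ]] AlgebraicClosure ℚ_[ℓ])]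
    rw [h1, hq, minpoly.aeval, map_zero]
  have hcard : Q.natDegree ≤ q.natDegree := by
    have h1 : Fintype.card (Q.rootSet ℂ) = Q.natDegree :=
      card_rootSet_eq_natDegree hQsep (IsAlgClosed.splits _)
    have hq0 : q ≠ 0 := minpoly.ne_zero hint
    have h2 : Fintype.card (Q.rootSet ℂ) ≤ Fintype.card (q.rootSet (AlgebraicClosure ℚ_[ℓ])) := by
      have hz : ∀ y : Q.rootSet ℂ, aeval (y : ℂ) Q = 0 := fun y => (mem_rootSet.1 y.2).2
      refine Fintype.card_le_of_injective (fun y => ⟨ι ⟨y, hQL y (hz y)⟩,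
        mem_rootSet.2 ⟨hq0, hroots y (hz y)⟩⟩) ?_
      intro y z hyz
      have h3 := ι.injective (congrArg Subtype.val hyz)
      exact Subtype.ext (congrArg (fun u : L => (u : ℂ)) h3)
    rw [← h1]
    refine h2.trans ?_
    rw [← Nat.card_eq_fintype_card, Nat.card_coe_set_eq]
    exact (ncard_rootSet_le q _)
  have heq : q = Q.map (algebraMap ℚ ℚ_[ℓ]) := by
    refine (eq_of_monic_of_dvd_of_natDegree_le (minpoly.monic hint) (hQ.map _) hdvd ?_).symm
    rw [natDegree_map]
    exact hcard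
  rw [← heq]
  exact minpoly.irreducible hint

/-- The product of the discriminants is not a square, if the automorphism moves its square root. -/
theorem nonsquare_of_lift (h : Lifts τ ℓ) {d : ℚ} {w : L} (hw : (w : ℂ) ^ 2 = d) (hw0 : w ≠ 0)
    (hτ : τ w = -w) : ¬ IsSquare (algebraMap ℚ ℚ_[ℓ] d) := by
  obtain ⟨ι, σ, hσ⟩ := h
  rintro ⟨r, hr⟩
  have h1 : (ι w) ^ 2 = (algebraMap ℚ_[ℓ] (AlgebraicClosure ℚ_[ℓ]) r) ^ 2 := by
    have h2 : w ^ 2 = (d : L) := by
      apply Subtype.ext
      rw [IntermediateField.coe_pow, hw]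
      simp
    have h3 := congrArg (algebraMap ℚ_[ℓ] (AlgebraicClosure ℚ_[ℓ])) hr
    rw [eq_ratCast, map_ratCast, map_mul] at h3
    rw [← map_pow, h2, map_ratCast, h3, pow_two]
  have h2 : σ (ι w) = ι w := by
    rcases sq_eq_sq_iff_eq_or_eq_neg.1 h1 with h3 | h3
    · rw [h3, AlgEquiv.commutes]
    · rw [h3, map_neg, AlgEquiv.commutes]
  rw [hσ, hτ, map_neg] at h2
  have h3 : 2 * ι w = 0 := by linear_combination -h2
  have h4 : ι w = 0 := (mul_eq_zero.1 h3).resolve_left two_ne_zero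
  exact hw0 (ι.injective (by rw [h4, map_zero]))

end lift

end Pool.Agent.H853.G2
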