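import Pool.Agent.H853.G2.Ex
import Pool.Agent.H853.G2.Ext

/-!
# Elements with generic eigenvalues are strongly regular for the derivations of a cross product
-/

set_option autoImplicit false
set_option linter.unusedSectionVars false

namespace Pool.Agent.H853.G2

open Module TensorProduct Pool.Agent.Y114.RM Pool.Agent.H853.SR

section gen

variable {W : Type} [AddCommGroup W] [Module ℂ W] {ι : Type} [Fintype ι] [DecidableEq ι]

/-- The generalized eigenvectors for a conjugation by a diagonalizable map. -/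
theorem gen_eig {g g' : End ℂ W} (hg : g' * g = 1) (P : Basis ι ℂ W) {lam : ι → ℂ}
    (heig : ∀ s, g (P s) = lam s • P s) {β : ℂ} {X : End ℂ W}
    (hX : X ∈ (AdE g g').maxGenEigenspace β) : g * X = β • (X * g) := by
  have hg' : ∀ x, g' (g x) = x := fun x => by
    rw [← Module.End.mul_apply, hg, Module.End.one_apply]
  have hne : ∀ s, lam s ≠ 0 := by
    intro s h0
    apply P.ne_zero s
    rw [← hg' (P s), heig, h0, zero_smul, map_zero]
  have heig' : ∀ s, g' (P s) = (lam s)⁻¹ • P s := by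
    intro s
    have h1 := hg' (P s)
    rw [heig, map_smul] at h1
    rw [← h1, smul_smul, inv_mul_cancel₀ (hne s), one_smul, h1]
  let φ : ι → ι → End ℂ W → ℂ := fun s t Y => P.repr (Y (P t)) s
  have hφ : ∀ s t Y, φ s t (AdE g g' Y) = lam s * (lam t)⁻¹ * φ s t Y := by
    intro s t Y
    change P.repr ((g * (Y * g')) (P t)) s = _
    rw [Module.End.mul_apply, Module.End.mul_apply, heig', map_smul, map_smul, map_smul,
      Finsupp.smul_apply, repr_eig heig, smul_eq_mul]
    change (lam t)⁻¹ * (lam s * P.repr (Y (P t)) s) = lam s * (lam t)⁻¹ * P.repr (Y (P t)) s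
    ring
  have hsub : ∀ s t Y, φ s t ((AdE g g' - β • 1) Y) =
      (lam s * (lam t)⁻¹ - β) * φ s t Y := by
    intro s t Y
    have h1 : (AdE g g' - β • 1) Y = AdE g g' Y - β • Y := rfl
    rw [h1, sub_mul, ← hφ]
    change P.repr ((AdE g g' Y - β • Y) (P t)) s = _
    rw [LinearMap.sub_apply, LinearMap.smul_apply, map_sub, map_smul]
    rfl
  have hpow : ∀ (n : ℕ) s t Y, φ s t (((AdE g g' - β • 1) ^ n) Y) =
      (lam s * (lam t)⁻¹ - β) ^ n * φ s t Y := by
    intro n s t
    induction n with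
    | zero => intro Y; rw [pow_zero, pow_zero, one_mul]; rfl
    | succ n ih => intro Y; rw [pow_succ, Module.End.mul_apply, ih, hsub, pow_succ, mul_assoc]
  obtain ⟨n, hn⟩ := (Module.End.mem_maxGenEigenspace _ _ _).1 hX
  have h0 : ∀ s t, (lam s * (lam t)⁻¹ - β) * φ s t X = 0 := by
    intro s t
    have h1 := hpow n s t X
    rw [hn] at h1
    have h2 : φ s t 0 = 0 := by
      change P.repr ((0 : End ℂ W) (P t)) s = 0
      rw [LinearMap.zero_apply, map_zero]
      rfl
    rw [h2] at h1
    rcases mul_eq_zero.1 h1.symm with h3 | h3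
    · rw [eq_zero_of_pow_eq_zero h3, zero_mul]
    · rw [h3, mul_zero]
  refine P.ext fun t => ?_
  apply P.repr.injective
  ext s
  have h1 := h0 s t
  change (lam s * (lam t)⁻¹ - β) * P.repr (X (P t)) s = 0 at h1
  rw [Module.End.mul_apply, LinearMap.smul_apply, Module.End.mul_apply, heig, map_smul, map_smul,
    map_smul, Finsupp.smul_apply, Finsupp.smul_apply, repr_eig heig, smul_eq_mul, smul_eq_mul]
  have h3 : lam t * ((lam s * (lam t)⁻¹ - β) * P.repr (X (P t)) s) =
      lam s * P.repr (X (P t)) s - β * (lam t * P.repr (X (P t)) s) := by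
    have h4 := hne t
    field_simp
  rw [h1, mul_zero] at h3
  exact sub_eq_zero.1 h3.symm

end gen

section tr

variable {k : Type} [Field k] [Algebra k ℂ] {n : ℕ}

theorem ext_bil {Ω : Type*} [Field Ω] {i : k →+* Ω} {W : Type*} [AddCommGroup W] [Module Ω W]
    {f g : (Fin n → Ω) →ₗ[Ω] (Fin n → Ω) →ₗ[Ω] W}
    (h : ∀ x y : Fin n → k, f (fun s => i (x s)) (fun s => i (y s)) =
      g (fun s => i (x s)) (fun s => i (y s))) : f = g :=
  ext_single (i := i) fun x => ext_single (i := i) fun y => h x y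

/-- The coordinates on the extension of scalars. -/
noncomputable def eC (k : Type) [Field k] [Algebra k ℂ] (n : ℕ) :
    (ℂ ⊗[k] (Fin n → k)) ≃ₗ[ℂ] (Fin n → ℂ) := TensorProduct.piScalarRight k ℂ ℂ (Fin n)

theorem eC_one (v : Fin n → k) : eC k n (1 ⊗ₜ[k] v) = fun s => algebraMap k ℂ (v s) := by
  funext s
  change (TensorProduct.piScalarRight k ℂ ℂ (Fin n)) (1 ⊗ₜ[k] v) s = _
  rw [TensorProduct.piScalarRight_apply, TensorProduct.piScalarRightHom_tmul]
  change v s • (1 : ℂ) = _
  rw [Algebra.smul_def, mul_one]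

theorem conj_bc (X : End k (Fin n → k)) (v : Fin n → k) :
    (eC k n).conj (X.baseChange ℂ) (fun s => algebraMap k ℂ (v s)) =
      fun s => algebraMap k ℂ (X v s) := by
  rw [← eC_one, ← eC_one, LinearEquiv.conj_apply_apply, LinearEquiv.symm_apply_apply,
    LinearMap.baseChange_tmul]

variable {J : Matrix (Fin n) (Fin n) k} {c : Fin n → Fin n → Fin n → k}

theorem der_ext {X : End ℂ (ℂ ⊗[k] (Fin n → k))} (hX : X ∈ bcS ℂ (DerOf (crossB c))) :
    ∀ x y, (eC k n).conj X (crossB (mapC (algebraMap k ℂ) c) x y) =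
      crossB (mapC (algebraMap k ℂ) c) ((eC k n).conj X x) y +
      crossB (mapC (algebraMap k ℂ) c) x ((eC k n).conj X y) := by
  set m' := crossB (mapC (algebraMap k ℂ) c) with hm'
  have hmi : ∀ x y : Fin n → k, m' (fun s => algebraMap k ℂ (x s))
      (fun s => algebraMap k ℂ (y s)) = fun s => algebraMap k ℂ (crossB c x y s) :=
    fun x y => cross_map (algebraMap k ℂ) c x y
  refine Submodule.span_induction ?_ ?_ ?_ ?_ hX
  · rintro _ ⟨Y, hY, rfl⟩
    have h1 : m'.compr₂ ((eC k n).conj (Y.baseChange ℂ)) =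
        m'.comp ((eC k n).conj (Y.baseChange ℂ)) + m'.compl₂ ((eC k n).conj (Y.baseChange ℂ)) := by
      refine ext_bil (i := algebraMap k ℂ) fun x y => ?_
      rw [LinearMap.compr₂_apply, LinearMap.add_apply, LinearMap.add_apply, LinearMap.comp_apply,
        LinearMap.compl₂_apply, conj_bc, conj_bc, hmi, hmi, hmi, conj_bc, hY x y]
      funext s
      simp only [Pi.add_apply, map_add]
    intro x y
    exact LinearMap.congr_fun (LinearMap.congr_fun h1 x) y
  · intro x y
    simp only [map_zero, LinearMap.zero_apply, add_zero]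
  · intro Y Y' _ _ hY hY' x y
    simp only [map_add, LinearMap.add_apply, hY x y, hY' x y]
    abel
  · intro a Y _ hY x y
    simp only [map_smul, LinearMap.smul_apply, hY x y, smul_add]

end tr

section str

variable {k : Type} [Field k] [CharZero k] [Algebra k ℂ] {Γ : Type} [Group Γ]
  {ρ : Representation k Γ (Fin 7 → k)} {J : Matrix (Fin 7) (Fin 7) k}
  {c : Fin 7 → Fin 7 → Fin 7 → k}

/-- The matrix of an element has generic eigenvalues: no quotient of different eigenvalues is a root of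
unity, and no eigenvalue different from `1` has a square which is an eigenvalue. -/
structure GenericMat (M : Matrix (Fin 7) (Fin 7) k) : Prop where
  simple : SimplePowers M
  sq : ∀ x : ℂ, Polynomial.eval₂ (algebraMap k ℂ) x M.charpoly = 0 →
    Polynomial.eval₂ (algebraMap k ℂ) (x ^ 2) M.charpoly = 0 → x = 1

theorem exists_labC (hJc : IsCross J c)
    (hinv : ∀ g x y, ρ g (cross c x y) = cross c (ρ g x) (ρ g y)) (γ : Γ)
    (hγ : GenericMat (LinearMap.toMatrix' (ρ γ))) :
    ∃ (P : Basis (Fin 7) ℂ (Fin 7 → ℂ)) (lam : Fin 7 → ℂ) (opp : Fin 7 → Fin 7) (s₀ : Fin 7),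
      Lab (formB (J.map (algebraMap k ℂ))) (crossB (mapC (algebraMap k ℂ) c))
        ((eC k 7).conj ((ρ γ).baseChange ℂ)) P lam opp s₀ ∧ Gen lam ∧
      (∀ s, Polynomial.eval₂ (algebraMap k ℂ) (lam s) (LinearMap.toMatrix' (ρ γ)).charpoly = 0) := by
  set M := LinearMap.toMatrix' (ρ γ) with hM
  have hsep : M.charpoly.Separable := by
    have h3 := hγ.simple 1 one_pos
    rwa [pow_one] at h3
  obtain ⟨P', lam, hP', hlam, hev, hroot⟩ := exists_eigenbasis (algebraMap k ℂ) hsep
  have htop : ⊤ ≤ Submodule.span ℂ (Set.range P') :=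
    (hP'.span_eq_top_of_card_eq_finrank' (by rw [Fintype.card_fin, finrank_fin_fun])).ge
  let P : Basis (Fin 7) ℂ (Fin 7 → ℂ) := Basis.mk hP' htop
  have hPs : ∀ s, P s = P' s := fun s => by rw [Basis.mk_apply]
  have hcross := isCrossB_of (isCross_map (i := algebraMap k ℂ) two_ne_zero hJc)
  have hnd : ∀ x, (∀ y, formB (J.map (algebraMap k ℂ)) x y = 0) → x = 0 := by
    intro x hx
    by_contra hne
    obtain ⟨z, hz⟩ := nondeg_of_cross (isCross_map (i := algebraMap k ℂ) two_ne_zero hJc) x hne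
    exact hz (hx z)
  have hMv : ∀ v, M.mulVec v = ρ γ v := by
    intro v
    rw [hM, ← Matrix.toLin'_apply, Matrix.toLin'_toMatrix']
  have hF : ∀ x, (eC k 7).conj ((ρ γ).baseChange ℂ) x = (M.map (algebraMap k ℂ)).mulVec x := by
    intro x
    have h1 : (eC k 7).conj ((ρ γ).baseChange ℂ) = (M.map (algebraMap k ℂ)).mulVecLin := by
      refine ext_single (i := algebraMap k ℂ) fun v => ?_
      rw [conj_bc, Matrix.mulVecLin_apply, map_mulVec, hMv]
    rw [h1, Matrix.mulVecLin_apply]
  have heig : ∀ s, (eC k 7).conj ((ρ γ).baseChange ℂ) (P s) = lam s • P s := by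
    intro s
    rw [hF, hPs, hev]
  have hg : Gen lam := by
    refine ⟨fun n hn s t hst => eq_of_pow hγ.simple hP' hev hn hst, fun s t hst => ?_⟩
    apply hγ.sq _ (hroot t)
    rw [← hst]
    exact hroot s
  have haut : ∀ x y, (eC k 7).conj ((ρ γ).baseChange ℂ) (crossB (mapC (algebraMap k ℂ) c) x y) =
      crossB (mapC (algebraMap k ℂ) c) ((eC k 7).conj ((ρ γ).baseChange ℂ) x)
        ((eC k 7).conj ((ρ γ).baseChange ℂ) y) := by
    intro x y
    rw [hF, hF, hF]
    exact (cross_map_mulVec (algebraMap k ℂ) (M := M)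
      (fun v w => by rw [hMv, hMv, hMv, hinv]) x y).symm
  have hinjF : Function.Injective ((eC k 7).conj ((ρ γ).baseChange ℂ)) := by
    intro x y hxy
    have h1 : (M.map (algebraMap k ℂ)).mulVec x = (M.map (algebraMap k ℂ)).mulVec y := by
      rw [← hF, ← hF, hxy]
    have h2 : LinearMap.toMatrix' (ρ γ⁻¹) * M = 1 := by
      rw [hM, ← LinearMap.toMatrix'_mul, ← map_mul, inv_mul_cancel, map_one,
        LinearMap.toMatrix'_one]
    have h3 : (LinearMap.toMatrix' (ρ γ⁻¹)).map (algebraMap k ℂ) * M.map (algebraMap k ℂ) = 1 := by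
      rw [← Matrix.map_mul, h2, Matrix.map_one _ (map_zero _) (map_one _)]
    have h6 := congrArg (fun z => ((LinearMap.toMatrix' (ρ γ⁻¹)).map (algebraMap k ℂ)).mulVec z) h1
    simpa [Matrix.mulVec_mulVec, h3] using h6
  have hform : ∀ x y, formB (J.map (algebraMap k ℂ)) ((eC k 7).conj ((ρ γ).baseChange ℂ) x)
      ((eC k 7).conj ((ρ γ).baseChange ℂ) y) = formB (J.map (algebraMap k ℂ)) x y :=
    form_inv two_ne_zero hcross exists_not_mul hinjF (fun x y => (haut x y).symm)
  obtain ⟨opp, s₀, hL⟩ := exists_lab two_ne_zero hcross hnd heig haut hform hg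
  exact ⟨P, lam, opp, s₀, hL, hg, hroot⟩

/-- **An element with generic eigenvalues is strongly regular for the derivations.** -/
theorem stronglyRegular (hJc : IsCross J c)
    (hinv : ∀ g x y, ρ g (cross c x y) = cross c (ρ g x) (ρ g y)) (γ : Γ)
    (hγ : GenericMat (LinearMap.toMatrix' (ρ γ))) :
    StronglyRegular ρ (DerOf (crossB c)) γ := by
  obtain ⟨P, lam, opp, s₀, hL, hg, -⟩ := exists_labC hJc hinv γ hγ
  have hgg : ρ γ * ρ γ⁻¹ = 1 := by rw [← map_mul, mul_inv_cancel, map_one]
  have hg'g : ρ γ⁻¹ * ρ γ = 1 := by rw [← map_mul, inv_mul_cancel, map_one]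
  have hws : ∀ β X, X ∈ rootSpace ρ (DerOf (crossB c)) γ β → (eC k 7).conj X ∈
      WS (formB (J.map (algebraMap k ℂ))) (crossB (mapC (algebraMap k ℂ) c))
        ((eC k 7).conj ((ρ γ).baseChange ℂ)) β := by
    rintro β X ⟨hX, hXβ⟩
    have hder := der_ext hX
    refine ⟨hder, fun x y => ?_, fun x => ?_⟩
    · have h1 := der_skew two_ne_zero hL.cross exists_not_mul (X := (eC k 7).conj X) hder x y
      exact eq_neg_of_add_eq_zero_left h1
    · have h1 := gen_eig (by rw [← bc_mul, hg'g, bc_one]) (P.map (eC k 7).symm) (lam := lam)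
        (fun s => by
          have h2 := hL.eig s
          rw [LinearEquiv.conj_apply_apply] at h2
          rw [Basis.map_apply]
          apply (eC k 7).injective
          rw [h2, map_smul, LinearEquiv.apply_symm_apply]) hXβ
      have h3 := congrArg (eC k 7).conj h1
      rw [map_smul, Module.End.mul_eq_comp, Module.End.mul_eq_comp, LinearEquiv.conj_comp,
        LinearEquiv.conj_comp] at h3
      exact LinearMap.congr_fun h3 x
  have hinj : Function.Injective (eC k 7).conj := (eC k 7).conj.injective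
  refine ⟨fun X hX => der_conj (fun x y => hinv γ x y) hgg hg'g hX, ?_, ?_, ?_⟩
  · intro X hX Y hY
    apply hinj
    rw [Module.End.mul_eq_comp, Module.End.mul_eq_comp, LinearEquiv.conj_comp,
      LinearEquiv.conj_comp]
    exact hL.comm (hws 1 X hX) (hws 1 Y hY)
  · intro β hβ
    by_cases h0 : rootSpace ρ (DerOf (crossB c)) γ β = ⊥
    · rw [h0, finrank_bot]
      exact zero_le_one
    · obtain ⟨X, hX, hX0⟩ := (Submodule.ne_bot_iff _).1 h0
      refine finrank_le_one ⟨X, hX⟩ fun ⟨Y, hY⟩ => ?_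
      obtain ⟨a, ha⟩ := hL.prop hg (Fintype.card_fin 7) hβ (hws β X hX) (hws β Y hY)
        (fun h => hX0 (hinj (by rw [h, map_zero])))
      refine ⟨a, Subtype.ext ?_⟩
      apply hinj
      change (eC k 7).conj (a • X) = (eC k 7).conj Y
      rw [map_smul, ha]
  · rintro β hβ ⟨m, hm, hm'⟩
    rw [eq_bot_iff]
    intro X hX
    rw [Submodule.mem_bot]
    by_contra hX0
    exact hβ (hL.wt_pow hg (hws β X hX) (fun h => hX0 (hinj (by rw [h, map_zero]))) hm hm')

end str

end Pool.Agent.H853.G2
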