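import Pool.Agent.H853.G2.Main
import Pool.Agent.H853.G2.Pol

/-!
# Systems of representations of type `G₂`
-/

set_option autoImplicit false
set_option linter.unusedSectionVars false

namespace Pool.Agent.H853.G2

open Module Polynomial NumberField Pool.Agent.Y114.RM Pool.Agent.H204R3.GP

section rep

variable {G : Type} [Group G] {k : Type} [Field k] {n : ℕ}

/-- The representation given by matrices. -/
noncomputable def rep (ρ : G →* GL (Fin n) k) : Representation k G (Fin n → k) :=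
  ((Matrix.toLinAlgEquiv' : Matrix (Fin n) (Fin n) k ≃ₐ[k] _) :
    Matrix (Fin n) (Fin n) k →* Module.End k (Fin n → k)).comp ((Units.coeHom _).comp ρ)

theorem rep_apply (ρ : G →* GL (Fin n) k) (g : G) :
    rep ρ g = Matrix.toLin' (ρ g : Matrix (Fin n) (Fin n) k) := rfl

theorem toMatrix_rep (ρ : G →* GL (Fin n) k) (g : G) :
    LinearMap.toMatrix' (rep ρ g) = (ρ g : Matrix (Fin n) (Fin n) k) := by
  rw [rep_apply, LinearMap.toMatrix'_toLin']

/-- The monodromy of the representation is as large as the cross product `c` permits: it is absolutely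
irreducible under all subgroups of finite index, and an endomorphism kills all Tate tensors (the tensors
fixed by a subgroup of finite index) if and only if it is a derivation of the cross product. -/
structure IsTypeG2 (ρ : G →* GL (Fin n) k) (c : Fin n → Fin n → Fin n → k) : Prop where
  irreducible : ∀ Δ : Subgroup G, Δ.FiniteIndex → ∀ W : Submodule k (Fin n → k),
    (∀ g ∈ Δ, ∀ x ∈ W, rep ρ g x ∈ W) → W = ⊥ ∨ W = ⊤
  scalars : ∀ Δ : Subgroup G, Δ.FiniteIndex → ∀ Y : End k (Fin n → k),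
    (∀ g ∈ Δ, Y * rep ρ g = rep ρ g * Y) → ∃ a : k, Y = a • 1
  tensors : ∀ X : End k (Fin n → k), X ∈ DerOf (crossB c) ↔
    ∀ (m : ℕ) (φ : Tensor k (Fin n → k) m), TateTensor (rep ρ) φ → KillsTensor X φ

end rep

variable {G : Type} [Group G] [TopologicalSpace G] [IsTopologicalGroup G] [CompactSpace G]

/-- **The theorem for one prime.** -/
theorem typeG2 {ℓ : ℕ} [Fact ℓ.Prime] (ρ : G →* GL (Fin 7) ℚ_[ℓ]) (hρ : Continuous ρ)
    {J : Matrix (Fin 7) (Fin 7) ℚ_[ℓ]} {c : Fin 7 → Fin 7 → Fin 7 → ℚ_[ℓ]} (hJc : IsCross J c)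
    (hinv : Preserves ρ c) (s : Gal(AlgebraicClosure ℚ/ℚ) →* G) (hs : Continuous s)
    (h3p : ThreePrimes ℓ (ρ.comp s)) {P₀ P₁ P₂ Q : ℚ[X]} (g₀ g₁ g₂ : Gal(AlgebraicClosure ℚ/ℚ))
    (h₀ : Generic P₀) (h₁ : Generic P₁) (h₂ : Generic P₂)
    (e₀ : (ρ (s g₀) : Matrix (Fin 7) (Fin 7) ℚ_[ℓ]).charpoly = P₀.map (algebraMap ℚ ℚ_[ℓ]))
    (e₁ : (ρ (s g₁) : Matrix (Fin 7) (Fin 7) ℚ_[ℓ]).charpoly = P₁.map (algebraMap ℚ ℚ_[ℓ]))
    (e₂ : (ρ (s g₂) : Matrix (Fin 7) (Fin 7) ℚ_[ℓ]).charpoly = P₂.map (algebraMap ℚ ℚ_[ℓ]))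
    (hPQ : P₀ = (X - 1) * Q) (hirr : Irreducible (Q.map (algebraMap ℚ ℚ_[ℓ])))
    (hd : ¬ IsSquare (algebraMap ℚ ℚ_[ℓ] (crossDiscr P₁ * crossDiscr P₂))) : IsTypeG2 ρ c := by
  obtain ⟨j, -⟩ := h3p.exists_data
  let _ : Algebra ℚ_[ℓ] ℂ := j.toAlgebra
  have hcont : Continuous (ρ.comp s) := hρ.comp hs
  have hss : SemisimpleG ρ := semisimple_rat ℓ ρ s hcont hJc hinv h3p
    (Or.inr ⟨g₀, (genericMat_of e₀ h₀).simple⟩)
  have hss' : FiniteIndexSemisimple (rep ρ) := by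
    intro Δ hΔ
    refine Pool.Agent.Y114.GF.semi_finiteIndex (rep ρ) (fun U hU => ?_) Δ
    obtain ⟨U', hU', hc⟩ := hss U fun g x hx => hU g trivial x hx
    exact ⟨U', fun g _ x hx => hU' g x hx, hc⟩
  have hinv' : ∀ g x y, rep ρ g (cross c x y) = cross c (rep ρ g x) (rep ρ g y) :=
    fun g x y => (hinv g x y).symm
  have gm : ∀ {g : Gal(AlgebraicClosure ℚ/ℚ)} {P : ℚ[X]}, Generic P →
      (ρ (s g) : Matrix (Fin 7) (Fin 7) ℚ_[ℓ]).charpoly = P.map (algebraMap ℚ ℚ_[ℓ]) →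
      GenericMat (LinearMap.toMatrix' (rep ρ (s g))) := by
    intro g P hP hg
    rw [toMatrix_rep]
    exact genericMat_of hg hP
  have hQ₀ : (LinearMap.toMatrix' (rep ρ (s g₀))).charpoly =
      (X - 1) * Q.map (algebraMap ℚ ℚ_[ℓ]) := by
    rw [toMatrix_rep, e₀, hPQ, Polynomial.map_mul, Polynomial.map_sub, Polynomial.map_X,
      Polynomial.map_one]
  have hd' : ¬ IsSquare (disc (rep ρ (s g₁)) * disc (rep ρ (s g₂))) := by
    rw [rep_apply, rep_apply, disc_of e₁ h₁, disc_of e₂ h₂, ← map_mul]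
    exact hd
  have hscal : ∀ Δ : Subgroup G, Δ.FiniteIndex → ∀ Y : End ℚ_[ℓ] (Fin 7 → ℚ_[ℓ]),
      (∀ g ∈ Δ, Y * rep ρ g = rep ρ g * Y) → ∃ a : ℚ_[ℓ], Y = a • 1 := fun Δ hΔ Y hY =>
    scalar_of_comm hJc hinv' _ _ _ (gm h₀ e₀) (gm h₁ e₁) (gm h₂ e₂) hirr hQ₀ hd' hΔ hY
  have hcont' : Continuous fun g => LinearMap.toMatrix' (rep ρ g) := by
    have h1 : (fun g => LinearMap.toMatrix' (rep ρ g)) =
        fun g => (ρ g : Matrix (Fin 7) (Fin 7) ℚ_[ℓ]) := funext fun g => toMatrix_rep ρ g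
    rw [h1]
    exact Units.continuous_val.comp hρ
  refine ⟨fun Δ hΔ W hW => ?_, hscal, local_G2 hcont' hJc hinv' hss' _ _ _ (gm h₀ e₀) (gm h₁ e₁)
    (gm h₂ e₂) hirr hQ₀ hd'⟩
  obtain ⟨W', hW', hc⟩ := hss' Δ hΔ W hW
  set p : End ℚ_[ℓ] (Fin 7 → ℚ_[ℓ]) := W.projection W' hc with hp
  have p1 : ∀ u ∈ W, p u = u := fun u hu => Submodule.projection_apply_left hc ⟨u, hu⟩
  have p2 : ∀ u ∈ W', p u = 0 := fun u hu => Submodule.projection_apply_right hc ⟨u, hu⟩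
  obtain ⟨a, ha⟩ := hscal Δ hΔ p fun g hg => by
    refine LinearMap.ext fun x => ?_
    obtain ⟨u, hu, v, hv, rfl⟩ : ∃ u ∈ W, ∃ v ∈ W', u + v = x := by
      have h1 : x ∈ W ⊔ W' := by rw [hc.sup_eq_top]; exact Submodule.mem_top
      exact Submodule.mem_sup.1 h1
    rw [Module.End.mul_apply, Module.End.mul_apply, map_add, map_add, map_add, map_add,
      p1 u hu, p2 v hv, p1 _ (hW g hg u hu), p2 _ (hW' g hg v hv), map_zero]
  by_cases ha0 : a = 0
  · left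
    rw [eq_bot_iff]
    intro u hu
    rw [Submodule.mem_bot, ← p1 u hu, ha, ha0, zero_smul, LinearMap.zero_apply]
  · right
    have h1 : W' = ⊥ := by
      rw [eq_bot_iff]
      intro u hu
      have h2 := p2 u hu
      rw [ha, LinearMap.smul_apply, Module.End.one_apply] at h2
      exact (Submodule.mem_bot _).2 ((smul_eq_zero.1 h2).resolve_left ha0)
    have h2 := hc.sup_eq_top
    rwa [h1, sup_bot_eq] at h2

end Pool.Agent.H853.G2
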