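import Pool.Agent.H853.G2.Lab

/-!
# Derivations of a cross product and a generic automorphism
-/

set_option autoImplicit false
set_option linter.unusedSectionVars false

namespace Pool.Agent.H853.G2

open Module

variable {K : Type*} [Field K] {E : Type*} [AddCommGroup E] [Module K E] {ι : Type*} [Fintype ι]
  [DecidableEq ι]

/-- The derivations of weight `r`. -/
def WS (B : E →ₗ[K] E →ₗ[K] K) (m : E →ₗ[K] E →ₗ[K] E) (F : E →ₗ[K] E) (r : K) :
    Submodule K (E →ₗ[K] E) where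
  carrier := {Z | (∀ x y, Z (m x y) = m (Z x) y + m x (Z y)) ∧ (∀ x y, B (Z x) y = -B x (Z y)) ∧
    ∀ x, F (Z x) = r • Z (F x)}
  zero_mem' := ⟨fun x y => by simp, fun x y => by simp, fun x => by simp⟩
  add_mem' := by
    rintro Z Z' ⟨h1, h2, h3⟩ ⟨h1', h2', h3'⟩
    refine ⟨fun x y => ?_, fun x y => ?_, fun x => ?_⟩
    · simp only [LinearMap.add_apply, map_add, h1, h1']
      abel
    · simp only [LinearMap.add_apply, map_add, h2, h2']
      ring
    · simp only [LinearMap.add_apply, map_add, h3, h3', smul_add]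
  smul_mem' := by
    rintro c Z ⟨h1, h2, h3⟩
    refine ⟨fun x y => ?_, fun x y => ?_, fun x => ?_⟩
    · simp only [LinearMap.smul_apply, map_smul, h1, smul_add]
    · simp only [LinearMap.smul_apply, map_smul, h2, smul_eq_mul]
      ring
    · simp only [LinearMap.smul_apply, map_smul, h3]
      rw [smul_comm]

/-- The conditions on the eigenvalues. -/
structure Gen (lam : ι → K) : Prop where
  tf : ∀ n : ℕ, 0 < n → ∀ s t, lam s ^ n = lam t ^ n → s = t
  sq : ∀ s t, lam s = lam t ^ 2 → lam t = 1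

variable {B : E →ₗ[K] E →ₗ[K] K} {m : E →ₗ[K] E →ₗ[K] E} {F : E →ₗ[K] E} {P : Basis ι K E}
  {lam : ι → K} {opp : ι → ι} {s₀ : ι}

namespace Lab

theorem pow_ne (h : Lab B m F P lam opp s₀) (hg : Gen lam) {s : ι} (hs : s ≠ s₀) {n : ℕ}
    (hn : 0 < n) : lam s ^ n ≠ 1 := by
  intro h0
  apply hs
  apply hg.tf n hn
  rw [h0, h.one, one_pow]

/-- The seven weights. -/
theorem three (h : Lab B m F P lam opp s₀) (h7 : Fintype.card ι = 7) {s t w : ι} (hs : s ≠ s₀)
    (ht : t ≠ s₀) (hw : w ≠ s₀) (hts : t ≠ s) (hws : w ≠ s) (hwt : w ≠ t)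
    (hst : sgn m P s₀ t = sgn m P s₀ s) (hsw : sgn m P s₀ w = sgn m P s₀ s) (u : ι) (hu : u ≠ s₀) :
    (u = s ∨ u = t ∨ u = w) ∨ (opp u = s ∨ opp u = t ∨ opp u = w) := by
  classical
  let A : Finset ι := {s, t, w}
  have hA : A.card = 3 := Finset.card_eq_three.2 ⟨s, t, w, hts.symm, hws.symm, hwt.symm, rfl⟩
  have hinj : Function.Injective opp := fun a b hab => by
    rw [← h.opp_opp a, hab, h.opp_opp]
  have hA' : (A.image opp).card = 3 := by rw [Finset.card_image_of_injective _ hinj, hA]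
  have hAs : ∀ a ∈ A, a ≠ s₀ ∧ sgn m P s₀ a = sgn m P s₀ s := by
    intro a ha
    simp only [A, Finset.mem_insert, Finset.mem_singleton] at ha
    rcases ha with rfl | rfl | rfl
    · exact ⟨hs, rfl⟩
    · exact ⟨ht, hst⟩
    · exact ⟨hw, hsw⟩
  have hd : Disjoint A (A.image opp) := by
    rw [Finset.disjoint_left]
    intro a ha ha'
    obtain ⟨b, hb, rfl⟩ := Finset.mem_image.1 ha'
    have h1 := (hAs _ ha).2
    rw [h.sgn_opp, (hAs b hb).2] at h1
    exact h.ne_neg hs h1.symm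
  have hn : s₀ ∉ A ∪ A.image opp := by
    rw [Finset.mem_union, not_or]
    refine ⟨fun h1 => (hAs _ h1).1 rfl, fun h1 => ?_⟩
    obtain ⟨b, hb, hb'⟩ := Finset.mem_image.1 h1
    exact h.opp_ne (hAs b hb).1 hb'
  have hc : (insert s₀ (A ∪ A.image opp)).card = Fintype.card ι := by
    rw [Finset.card_insert_of_notMem hn, Finset.card_union_of_disjoint hd, hA, hA', h7]
  have huniv := (Finset.card_eq_iff_eq_univ _).1 hc
  have h1 : u ∈ insert s₀ (A ∪ A.image opp) := by
    rw [huniv]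
    exact Finset.mem_univ u
  rw [Finset.mem_insert, Finset.mem_union] at h1
  rcases h1 with h1 | h1 | h1
  · exact absurd h1 hu
  · simp only [A, Finset.mem_insert, Finset.mem_singleton] at h1
    exact Or.inl h1
  · obtain ⟨b, hb, rfl⟩ := Finset.mem_image.1 h1
    rw [h.opp_opp]
    simp only [A, Finset.mem_insert, Finset.mem_singleton] at hb
    exact Or.inr hb

/-- A short root is not a long root. -/
theorem short_ne_long (h : Lab B m F P lam opp s₀) (hg : Gen lam) (h7 : Fintype.card ι = 7)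
    {s t u : ι} (hs : s ≠ s₀) (ht : t ≠ s₀) (hu : u ≠ s₀) (hts : t ≠ s)
    (hst : sgn m P s₀ t = sgn m P s₀ s) : lam t ≠ lam u * lam s := by
  intro he
  obtain ⟨w, hw, hws, hwt, hsw, hp⟩ := h.mul_same hs ht hst hts
  have hs0 := h.lam_ne s
  have ht0 := h.lam_ne t
  have hw0 := h.lam_ne w
  rcases h.three h7 hs ht hw hts hws hwt hst hsw u hu with (rfl | rfl | rfl) | (hu' | hu' | hu')
  · apply hs
    exact h.inj ((hg.sq t u (by rw [he, pow_two])).trans h.one.symm)
  · apply h.lam_ne_one hs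
    apply mul_left_cancel₀ ht0
    rw [← he, mul_one]
  · apply h.pow_ne hg ht (n := 2) (by norm_num)
    rw [pow_two]
    nth_rewrite 2 [he]
    rw [← hp]
    ring
  all_goals
    have h1 := h.opp_mul u
    rw [hu'] at h1
  · apply h.lam_ne_one ht
    rw [he, mul_comm _ (lam s), mul_comm, ← h1]
  · have h2 : lam s = lam t ^ 2 := by
      rw [pow_two]
      nth_rewrite 2 [he]
      linear_combination (-lam s) * h1
    apply h.lam_ne_one ht
    exact hg.sq s t h2
  · apply h.pow_ne hg hs (n := 2) (by norm_num)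
    have h2 : lam s * lam s * (lam u * lam w) = 1 := by
      rw [← hp, he]
      ring
    rw [h1, mul_one, ← pow_two] at h2
    exact h2

/-- The long roots are different. -/
theorem long_inj (h : Lab B m F P lam opp s₀) (hg : Gen lam) (h7 : Fintype.card ι = 7)
    {s t u v : ι} (hs : s ≠ s₀) (ht : t ≠ s₀) (hu : u ≠ s₀) (hv : v ≠ s₀) (hts : t ≠ s)
    (hst : sgn m P s₀ t = sgn m P s₀ s) (hsu : sgn m P s₀ u = sgn m P s₀ s)
    (hsv : sgn m P s₀ v = sgn m P s₀ s) (he : lam t * lam u = lam v * lam s) : u = s := by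
  obtain ⟨w, hw, hws, hwt, hsw, hp⟩ := h.mul_same hs ht hst hts
  have hs0 := h.lam_ne s
  have ht0 := h.lam_ne t
  have hw0 := h.lam_ne w
  have key : ∀ a, a ≠ s₀ → sgn m P s₀ a = sgn m P s₀ s → a = s ∨ a = t ∨ a = w := by
    intro a ha hsa
    rcases h.three h7 hs ht hw hts hws hwt hst hsw a ha with h1 | h1
    · exact h1
    · exfalso
      have h2 : sgn m P s₀ (opp a) = sgn m P s₀ s := by
        rcases h1 with h1 | h1 | h1
        · rw [h1]
        · rw [h1, hst]
        · rw [h1, hsw]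
      rw [h.sgn_opp, hsa] at h2
      exact h.ne_neg hs h2.symm
  rcases key u hu hsu with rfl | rfl | rfl
  · rfl
  · exfalso
    rcases key v hv hsv with rfl | rfl | rfl
    · exact hts (hg.tf 2 (by norm_num) _ _ (by rw [pow_two, pow_two, he]))
    · exact hts (h.inj (mul_left_cancel₀ ht0 he))
    · apply h.pow_ne hg ht (n := 3) (by norm_num)
      rw [← hp]
      linear_combination lam u * he
  · exfalso
    rcases key v hv hsv with rfl | rfl | rfl
    · apply h.pow_ne hg hs (n := 3) (by norm_num)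
      rw [← hp]
      linear_combination (-lam v) * he
    · exact hws (h.inj (mul_left_cancel₀ ht0 he))
    · exact hts (h.inj (mul_right_cancel₀ hw0 (by rw [he, mul_comm])))

section wtz

variable {Z : E →ₗ[K] E} {r : K}

theorem F_Z (h : Lab B m F P lam opp s₀) (hZ : Z ∈ WS B m F r) (s : ι) :
    F (Z (P s)) = (r * lam s) • Z (P s) := by
  rw [hZ.2.2, h.eig, map_smul, smul_smul]

/-- A derivation which kills the vector of weight one preserves the signs. -/
theorem same_sgn (h : Lab B m F P lam opp s₀) (hZ : Z ∈ WS B m F r) (h0 : Z (P s₀) = 0) {s : ι}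
    (hs : Z (P s) ≠ 0) : ∃ t, r * lam s = lam t ∧ sgn m P s₀ t = sgn m P s₀ s ∧
      ∃ c : K, c ≠ 0 ∧ Z (P s) = c • P t := by
  obtain ⟨t, ht, c, hc0, hc⟩ := h.exists_eig hs (h.F_Z hZ s)
  refine ⟨t, ht, ?_, c, hc0, hc⟩
  have h1 := hZ.1 (P s₀) (P s)
  rw [h0, map_zero, LinearMap.zero_apply, zero_add, h.mul_s₀, map_smul, hc, map_smul, h.mul_s₀,
    smul_smul, smul_smul] at h1
  have h2 := smul_left_injective K (P.ne_zero t) h1
  apply mul_left_cancel₀ hc0
  change sgn m P s₀ s * c = c * sgn m P s₀ t at h2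
  rw [← h2, mul_comm]

/-- A derivation which kills the vectors of one sign is zero. -/
theorem eq_zero (h : Lab B m F P lam opp s₀) (hZ : Z ∈ WS B m F r) (h0 : Z (P s₀) = 0) {u : ι}
    (hu : u ≠ s₀) (hs : ∀ s, s ≠ s₀ → sgn m P s₀ s = sgn m P s₀ u → Z (P s) = 0) : Z = 0 := by
  refine P.ext fun s => ?_
  rw [LinearMap.zero_apply]
  by_contra hne
  have hs0 : s ≠ s₀ := by
    rintro rfl
    exact hne h0
  have hsu : sgn m P s₀ s = -sgn m P s₀ u := by
    rcases h.sgn_eq_or hs0 hu with h1 | h1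
    · exact absurd (hs s hs0 h1) hne
    · exact h1
  obtain ⟨t, -, ht, c, hc0, hc⟩ := h.same_sgn hZ h0 hne
  have ht0 : t ≠ s₀ := by
    rintro rfl
    rw [h.sgn_s₀, hsu] at ht
    exact h.sgn_ne hu (neg_eq_zero.1 ht.symm)
  have h1 := hZ.2.1 (P s) (P (opp t))
  rw [hs (opp t) (h.opp_ne ht0) (by rw [h.sgn_opp, ht, hsu, neg_neg]), map_zero, neg_zero, hc,
    map_smul, LinearMap.smul_apply, smul_eq_mul] at h1
  exact (mul_ne_zero hc0 (h.form_ne t)) h1

theorem short_zero (h : Lab B m F P lam opp s₀) (hg : Gen lam) (h7 : Fintype.card ι = 7) {u : ι}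
    (hu : u ≠ s₀) (hZ : Z ∈ WS B m F (lam u)) (h0 : Z (P s₀) = 0) : Z = 0 := by
  refine h.eq_zero hZ h0 hu fun s hs hsu => ?_
  by_contra hne
  obtain ⟨t, ht, hst, -⟩ := h.same_sgn hZ h0 hne
  have ht0 : t ≠ s₀ := by
    rintro rfl
    rw [h.sgn_s₀] at hst
    exact h.sgn_ne hs hst.symm
  by_cases hts : t = s
  · rw [hts] at ht
    exact h.lam_ne_one hu (mul_right_cancel₀ (h.lam_ne s) (by rw [ht, one_mul]))
  · exact h.short_ne_long hg h7 hs ht0 hu hts hst ht.symm

/-- The derivations of a weight different from one are proportional. -/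
theorem prop (h : Lab B m F P lam opp s₀) (hg : Gen lam) (h7 : Fintype.card ι = 7) (hr : r ≠ 1)
    {Z' : E →ₗ[K] E} (hZ : Z ∈ WS B m F r) (hZ' : Z' ∈ WS B m F r) (hZ0 : Z ≠ 0) :
    ∃ c : K, Z' = c • Z := by
  by_cases h0 : Z (P s₀) = 0
  · -- a long root
    obtain ⟨s, hs⟩ : ∃ s, Z (P s) ≠ 0 := by
      by_contra hcon
      push Not at hcon
      exact hZ0 (P.ext fun s => by rw [hcon, LinearMap.zero_apply])
    have hs0 : s ≠ s₀ := by
      rintro rfl
      exact hs h0
    obtain ⟨t, ht, hst, c, hc0, hc⟩ := h.same_sgn hZ h0 hs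
    have ht0 : t ≠ s₀ := by
      rintro rfl
      rw [h.sgn_s₀] at hst
      exact h.sgn_ne hs0 hst.symm
    have hts : t ≠ s := by
      rintro rfl
      exact hr (mul_right_cancel₀ (h.lam_ne t) (by rw [ht, one_mul]))
    have h0' : Z' (P s₀) = 0 := by
      by_contra hne
      obtain ⟨u, hu, -⟩ := h.exists_eig hne (h.F_Z hZ' s₀)
      rw [h.one, mul_one] at hu
      have hu0 : u ≠ s₀ := by
        rintro rfl
        exact hr (by rw [hu, h.one])
      exact h.short_ne_long hg h7 hs0 ht0 hu0 hts hst (by rw [← ht, hu])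
    obtain ⟨c', hc'⟩ : ∃ c', Z' (P s) = c' • P t := by
      have h1 : F (Z' (P s)) = lam t • Z' (P s) := by rw [h.F_Z hZ', ht]
      exact ⟨_, h.eig_of h1⟩
    refine ⟨c' * c⁻¹, ?_⟩
    rw [← sub_eq_zero]
    have hD : Z' - (c' * c⁻¹) • Z ∈ WS B m F r :=
      Submodule.sub_mem _ hZ' (Submodule.smul_mem _ _ hZ)
    have hD0 : (Z' - (c' * c⁻¹) • Z) (P s₀) = 0 := by
      rw [LinearMap.sub_apply, LinearMap.smul_apply, h0, h0', smul_zero, sub_zero]
    refine h.eq_zero hD hD0 hs0 fun a ha hsa => ?_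
    by_contra hne
    obtain ⟨b, hb, hsb, -⟩ := h.same_sgn hD hD0 hne
    have hb0 : b ≠ s₀ := by
      rintro rfl
      rw [h.sgn_s₀] at hsb
      exact h.sgn_ne ha hsb.symm
    have h1 : a = s := by
      refine h.long_inj hg h7 hs0 ht0 ha hb0 hts hst hsa (hsb.trans hsa) ?_
      rw [← ht, ← hb]
      ring
    apply hne
    rw [h1, LinearMap.sub_apply, LinearMap.smul_apply, hc, hc', smul_smul, mul_assoc,
      inv_mul_cancel₀ hc0, mul_one, sub_self]
  · obtain ⟨u, hu, c, hc0, hc⟩ := h.exists_eig h0 (h.F_Z hZ s₀)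
    rw [h.one, mul_one] at hu
    have hu0 : u ≠ s₀ := by
      rintro rfl
      exact hr (by rw [hu, h.one])
    obtain ⟨c', hc'⟩ : ∃ c', Z' (P s₀) = c' • P u := by
      have h1 : F (Z' (P s₀)) = lam u • Z' (P s₀) := by rw [h.F_Z hZ', h.one, mul_one, hu]
      exact ⟨_, h.eig_of h1⟩
    refine ⟨c' * c⁻¹, ?_⟩
    rw [← sub_eq_zero]
    have hD : Z' - (c' * c⁻¹) • Z ∈ WS B m F r :=
      Submodule.sub_mem _ hZ' (Submodule.smul_mem _ _ hZ)
    rw [hu] at hD
    refine h.short_zero hg h7 hu0 hD ?_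
    rw [LinearMap.sub_apply, LinearMap.smul_apply, hc, hc', smul_smul, mul_assoc,
      inv_mul_cancel₀ hc0, mul_one, sub_self]

/-- The derivations of weight one commute. -/
theorem comm (h : Lab B m F P lam opp s₀) {Z' : E →ₗ[K] E} (hZ : Z ∈ WS B m F 1)
    (hZ' : Z' ∈ WS B m F 1) : Z ∘ₗ Z' = Z' ∘ₗ Z := by
  refine P.ext fun s => ?_
  obtain ⟨c, hc⟩ : ∃ c, Z (P s) = c • P s := by
    have h1 : F (Z (P s)) = lam s • Z (P s) := by rw [h.F_Z hZ, one_mul]
    exact ⟨_, h.eig_of h1⟩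
  obtain ⟨c', hc'⟩ : ∃ c, Z' (P s) = c • P s := by
    have h1 : F (Z' (P s)) = lam s • Z' (P s) := by rw [h.F_Z hZ', one_mul]
    exact ⟨_, h.eig_of h1⟩
  rw [LinearMap.comp_apply, LinearMap.comp_apply, hc, hc', map_smul, map_smul, hc, hc',
    smul_comm]

/-- The weight of a non-zero derivation is not a root of unity different from one. -/
theorem wt_pow (h : Lab B m F P lam opp s₀) (hg : Gen lam) (hZ : Z ∈ WS B m F r) (hZ0 : Z ≠ 0)
    {n : ℕ} (hn : 0 < n) (hrn : r ^ n = 1) : r = 1 := by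
  obtain ⟨s, hs⟩ : ∃ s, Z (P s) ≠ 0 := by
    by_contra hcon
    push Not at hcon
    exact hZ0 (P.ext fun s => by rw [hcon, LinearMap.zero_apply])
  obtain ⟨t, ht, -⟩ := h.exists_eig hs (h.F_Z hZ s)
  have h1 : t = s := hg.tf n hn t s (by rw [← ht, mul_pow, hrn, one_mul])
  rw [h1] at ht
  exact mul_right_cancel₀ (h.lam_ne s) (by rw [ht, one_mul])

end wtz

end Lab

end Pool.Agent.H853.G2
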